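import Mathlib
set_option autoImplicit false

/-!
# Digits, blocks of digits, and rational approximation
-/

namespace Pool.Agent.Q199.Dg

/-- the digit of index `n + 1` after the point in the base `b` expansion of `x` -/
noncomputable def digit (b : ℕ) (x : ℝ) (n : ℕ) : ℤ := ⌊x * (b : ℝ) ^ (n + 1)⌋ % (b : ℤ)

theorem floor_succ (b : ℕ) (hb : 1 ≤ b) (x : ℝ) (n : ℕ) :
    ⌊x * (b : ℝ) ^ (n + 1)⌋ = b * ⌊x * (b : ℝ) ^ n⌋ + digit b x n := by
  have hb0 : (0 : ℝ) < b := by exact_mod_cast hb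
  set F : ℤ := ⌊x * (b : ℝ) ^ n⌋ with hF
  set G : ℤ := ⌊x * (b : ℝ) ^ (n + 1)⌋ with hG
  have h1 : (F : ℝ) ≤ x * (b : ℝ) ^ n := Int.floor_le _
  have h2 : x * (b : ℝ) ^ n < F + 1 := Int.lt_floor_add_one _
  have h3 : (G : ℝ) ≤ x * (b : ℝ) ^ (n + 1) := Int.floor_le _
  have h4 : x * (b : ℝ) ^ (n + 1) < G + 1 := Int.lt_floor_add_one _
  have e : x * (b : ℝ) ^ (n + 1) = b * (x * (b : ℝ) ^ n) := by ring
  rw [e] at h3 h4
  have h5 : (b : ℤ) * F < G + 1 := by
    have : (b : ℝ) * F < G + 1 := by nlinarith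
    exact_mod_cast this
  have h6 : G < b * F + b := by
    have : (G : ℝ) < b * F + b := by nlinarith
    exact_mod_cast this
  have h7 : digit b x n = G - b * F := by
    unfold digit
    rw [← hG]
    have h8 : G = (G - b * F) + b * F := by ring
    rw [h8, Int.add_mul_emod_self_left, Int.emod_eq_of_lt (by linarith) (by linarith)]
    ring
  rw [h7]
  ring

/-- Two equal blocks of digits give a good rational approximation. -/
theorem close (b : ℕ) (hb : 1 ≤ b) (x : ℝ) (i j l : ℕ)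
    (h : ∀ u < l, digit b x (i + u) = digit b x (j + u)) :
    ∃ m : ℤ, |x * ((b : ℝ) ^ j - (b : ℝ) ^ i) - m| * (b : ℝ) ^ l < 1 := by
  have key : ∀ l, (∀ u < l, digit b x (i + u) = digit b x (j + u)) →
      ⌊x * (b : ℝ) ^ (i + l)⌋ - (b : ℤ) ^ l * ⌊x * (b : ℝ) ^ i⌋ =
        ⌊x * (b : ℝ) ^ (j + l)⌋ - (b : ℤ) ^ l * ⌊x * (b : ℝ) ^ j⌋ := by
    intro l
    induction l with
    | zero => intro _; simp
    | succ l ih =>
      intro h
      have h1 := ih fun u hu => h u (by omega)
      have h2 := h l (by omega)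
      have h3 := floor_succ b hb x (i + l)
      have h4 := floor_succ b hb x (j + l)
      rw [← add_assoc, ← add_assoc, h3, h4, h2]
      linear_combination (b : ℤ) * h1
  have hk := key l h
  refine ⟨⌊x * (b : ℝ) ^ j⌋ - ⌊x * (b : ℝ) ^ i⌋, ?_⟩
  have hb0 : (0 : ℝ) < (b : ℝ) ^ l := by
    have : (0 : ℝ) < b := by exact_mod_cast hb
    positivity
  have h1 : (⌊x * (b : ℝ) ^ (i + l)⌋ : ℝ) ≤ x * (b : ℝ) ^ (i + l) := Int.floor_le _
  have h2 : x * (b : ℝ) ^ (i + l) < ⌊x * (b : ℝ) ^ (i + l)⌋ + 1 := Int.lt_floor_add_one _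
  have h3 : (⌊x * (b : ℝ) ^ (j + l)⌋ : ℝ) ≤ x * (b : ℝ) ^ (j + l) := Int.floor_le _
  have h4 : x * (b : ℝ) ^ (j + l) < ⌊x * (b : ℝ) ^ (j + l)⌋ + 1 := Int.lt_floor_add_one _
  have hk' : (⌊x * (b : ℝ) ^ (i + l)⌋ : ℝ) - (b : ℝ) ^ l * ⌊x * (b : ℝ) ^ i⌋ =
        ⌊x * (b : ℝ) ^ (j + l)⌋ - (b : ℝ) ^ l * ⌊x * (b : ℝ) ^ j⌋ := by
    exact_mod_cast hk
  rw [← abs_of_pos hb0, ← abs_mul]
  push_cast
  have e : (x * ((b : ℝ) ^ j - (b : ℝ) ^ i) - ((⌊x * (b : ℝ) ^ j⌋ : ℝ) - ⌊x * (b : ℝ) ^ i⌋)) *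
      (b : ℝ) ^ l = (x * (b : ℝ) ^ (j + l) - ⌊x * (b : ℝ) ^ (j + l)⌋) -
        (x * (b : ℝ) ^ (i + l) - ⌊x * (b : ℝ) ^ (i + l)⌋) := by
    rw [pow_add, pow_add] at *
    linear_combination (-1 : ℝ) * hk'
  rw [e, abs_lt]
  constructor <;> linarith

section MH
variable {α : Type*} [DecidableEq α]

/-- the block of length `n` of `w` which begins at the place `i` -/
def bl (w : ℕ → α) (n i : ℕ) : Fin n → α := fun t => w (i + t)

/-- the blocks of length `n` of `w` which begin at the places `0, …, R` -/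
def bls (w : ℕ → α) (R n : ℕ) : Finset (Fin n → α) := (Finset.range (R + 1)).image (bl w n)

/-- restriction of a block -/
def res (n : ℕ) (f : Fin (n + 1) → α) : Fin n → α := fun t => f t.castSucc

omit [DecidableEq α] in
theorem res_bl (w : ℕ → α) (n i : ℕ) : res n (bl w (n + 1) i) = bl w n i := by
  funext t
  simp [res, bl]

theorem bls_res (w : ℕ → α) (R n : ℕ) : (bls w R (n + 1)).image (res n) = bls w R n := by
  unfold bls
  rw [Finset.image_image]
  congr 1

theorem card_bls_le (w : ℕ → α) (R n : ℕ) : (bls w R n).card ≤ (bls w R (n + 1)).card := by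
  rw [← bls_res w R n]
  exact Finset.card_image_le

theorem card_bls_zero (w : ℕ → α) (R : ℕ) : 1 ≤ (bls w R 0).card := by
  rw [Nat.one_le_iff_ne_zero, ← Nat.pos_iff_ne_zero, Finset.card_pos]
  exact ⟨bl w 0 0, Finset.mem_image.2 ⟨0, by simp, rfl⟩⟩

theorem exists_step (w : ℕ → α) (R : ℕ) : ∀ n, (bls w R n).card ≤ n →
    ∃ m, m < n ∧ (bls w R m).card = (bls w R (m + 1)).card ∧ (bls w R m).card ≤ m + 1 := by
  intro n
  induction n with
  | zero =>
    intro h
    have := card_bls_zero w R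
    omega
  | succ n ih =>
    intro h
    by_cases h1 : (bls w R n).card = (bls w R (n + 1)).card
    · exact ⟨n, by omega, h1, by omega⟩
    · have h2 := card_bls_le w R n
      obtain ⟨m, h3, h4, h5⟩ := ih (by omega)
      exact ⟨m, by omega, h4, h5⟩

/-- **Finite form of the theorem of Morse and Hedlund.** If at most `n` different blocks of length
`n` begin at the places `0, …, R` (`n ≤ R`), then two blocks of length `R` which begin at the
places `0, …, n` coincide. -/
theorem morse_hedlund (w : ℕ → α) (R n : ℕ) (hR : n ≤ R) (h : (bls w R n).card ≤ n) :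
    ∃ i j, i < j ∧ j ≤ n ∧ ∀ u < R, w (i + u) = w (j + u) := by
  obtain ⟨m, hm, hc, hc1⟩ := exists_step w R n h
  have hinj : Set.InjOn (res m) (bls w R (m + 1) : Set (Fin (m + 1) → α)) := by
    rw [← Finset.card_image_iff, bls_res]
    exact hc
  have hstep : ∀ a b, a ≤ R → b ≤ R → bl w m a = bl w m b → bl w (m + 1) a = bl w (m + 1) b := by
    intro a b ha hb hab
    apply hinj
    · exact Finset.mem_coe.2 (Finset.mem_image.2 ⟨a, by simp; omega, rfl⟩)
    · exact Finset.mem_coe.2 (Finset.mem_image.2 ⟨b, by simp; omega, rfl⟩)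
    · rw [res_bl, res_bl, hab]
  -- pigeonhole
  obtain ⟨i, j, hij, hj, hb⟩ : ∃ i j, i < j ∧ j ≤ (bls w R m).card ∧ bl w m i = bl w m j := by
    have hmaps : ∀ a ∈ Finset.range ((bls w R m).card + 1), bl w m a ∈ bls w R m := by
      intro a ha
      rw [Finset.mem_range] at ha
      exact Finset.mem_image.2 ⟨a, by simp; omega, rfl⟩
    obtain ⟨a, ha, a', ha', hne, heq⟩ := Finset.exists_ne_map_eq_of_card_lt_of_maps_to
      (by rw [Finset.card_range]; omega) hmaps
    rw [Finset.mem_range] at ha ha'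
    rcases Nat.lt_or_gt_of_ne hne with h1 | h1
    · exact ⟨a, a', h1, by omega, heq⟩
    · exact ⟨a', a, h1, by omega, heq.symm⟩
  have hprop : ∀ s, j + s ≤ R + 1 → bl w m (i + s) = bl w m (j + s) := by
    intro s
    induction s with
    | zero => intro _; exact hb
    | succ s ih =>
      intro hs
      have h1 := hstep (i + s) (j + s) (by omega) (by omega) (ih (by omega))
      funext t
      have h2 := congrFun h1 t.succ
      simp only [bl, Fin.val_succ] at h2 ⊢
      rw [show i + (s + 1) + (t : ℕ) = i + s + (t + 1) by ring,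
        show j + (s + 1) + (t : ℕ) = j + s + (t + 1) by ring]
      exact h2
  refine ⟨i, j, hij, by omega, fun u hu => ?_⟩
  have hfull : ∀ s, j + s ≤ R → ∀ t, t ≤ m → w (i + s + t) = w (j + s + t) := by
    intro s hs t ht
    have h1 := hstep (i + s) (j + s) (by omega) (by omega) (hprop s (by omega))
    exact congrFun h1 ⟨t, by omega⟩
  by_cases hu1 : j + u ≤ R
  · exact hfull u hu1 0 (by omega)
  · have h1 := hfull (R - j) (by omega) (u - (R - j)) (by omega)
    rw [show i + (R - j) + (u - (R - j)) = i + u by omega,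
      show j + (R - j) + (u - (R - j)) = j + u by omega] at h1
    exact h1

end MH

/-- the number of different blocks of `n` digits among the first `L` digits of `x` (after the point)
in the base `b` -/
noncomputable def blocks (b : ℕ) (x : ℝ) (n L : ℕ) : ℕ :=
  ((Finset.range (L + 1 - n)).image fun i => fun t : Fin n => digit b x (i + t)).card

theorem few_blocks (b : ℕ) (x : ℝ) (n L : ℕ) (hL : 2 * n ≤ L) (h : blocks b x n L ≤ n) :
    ∃ i j, i < j ∧ j ≤ n ∧ ∀ u < L - n, digit b x (i + u) = digit b x (j + u) := by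
  apply morse_hedlund (digit b x) (L - n) n (by omega)
  unfold blocks at h
  unfold bls bl
  rw [show L - n + 1 = L + 1 - n by omega]
  exact h

end Pool.Agent.Q199.Dg
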