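import Pool.Agent.Q199.Dg.Lin
import Mathlib
set_option autoImplicit false

/-!
# Linear forms `(x t + y e + z) / w` with few blocks of digits
-/

namespace Pool.Agent.Q199.Dg

open Real Filter

/-- the value of the form -/
noncomputable def fv (t : ℝ) (x y z w : ℤ) : ℝ := (x * t + y * exp 1 + z) / w

theorem comb (t : ℝ) (x y z w x' y' z' w' : ℤ) (hw : w ≠ 0) (hw' : w' ≠ 0) :
    ((x' * w : ℤ) : ℝ) * fv t x y z w + ((-(x * w') : ℤ) : ℝ) * fv t x' y' z' w' =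
      ((x' * y - x * y' : ℤ) : ℝ) * exp 1 + ((x' * z - x * z' : ℤ) : ℝ) := by
  have h1 : (w : ℝ) ≠ 0 := by exact_mod_cast hw
  have h2 : (w' : ℝ) ≠ 0 := by exact_mod_cast hw'
  unfold fv
  push_cast
  field_simp
  ring

theorem abs_cast_mul_le (a b : ℤ) (H : ℝ) (ha : |(a : ℝ)| ≤ H) (hb : |(b : ℝ)| ≤ H) :
    |((a * b : ℤ) : ℝ)| ≤ H ^ 2 := by
  push_cast
  rw [abs_mul]
  have := abs_nonneg (a : ℝ)
  have := abs_nonneg (b : ℝ)
  nlinarith

/-- At one scale all forms with few blocks have proportional `(x, y)`. -/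
theorem dir_unique (b : ℕ) (hb : 2 ≤ b) (t H : ℝ) (hH : 1 ≤ H) (s n l : ℕ)
    (hl : (612 + 188 * log (H ^ 2 * (b : ℝ) ^ (s + 2 * n))) * H ^ 4 *
      (b : ℝ) ^ (s + 3 * n) < (b : ℝ) ^ l)
    (x y z w x' y' z' w' : ℤ) (hw : w ≠ 0) (hw' : w' ≠ 0)
    (hx : |(x : ℝ)| ≤ H) (hy : |(y : ℝ)| ≤ H) (hwH : |(w : ℝ)| ≤ H)
    (hx' : |(x' : ℝ)| ≤ H) (hy' : |(y' : ℝ)| ≤ H) (hwH' : |(w' : ℝ)| ≤ H)
    (h : Rep b (fv t x y z w) s n l) (h' : Rep b (fv t x' y' z' w') s n l) :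
    x * y' = x' * y := by
  by_contra hne
  have hK : x' * y - x * y' ≠ 0 := fun h0 => hne (by linarith)
  have hb1 : (1 : ℝ) ≤ b := by exact_mod_cast (by omega : 1 ≤ b)
  have hprod : (1 : ℝ) ≤ H ^ 2 * (b : ℝ) ^ (s + 2 * n) := by
    have e1 : (1 : ℝ) ≤ H ^ 2 := one_le_pow₀ hH
    have e2 : (1 : ℝ) ≤ (b : ℝ) ^ (s + 2 * n) := one_le_pow₀ hb1
    nlinarith
  have hKb : |((x' * y - x * y' : ℤ) : ℝ)| ≤ 2 * H ^ 2 := by
    have e1 := abs_cast_mul_le x' y H hx' hy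
    have e2 := abs_cast_mul_le x y' H hx hy'
    rw [Int.cast_sub]
    calc _ ≤ |((x' * y : ℤ) : ℝ)| + |((x * y' : ℤ) : ℝ)| := abs_sub _ _
      _ ≤ _ := by linarith
  have key := one_base _ _ (x' * w) (-(x * w')) (x' * y - x * y') (x' * z - x * z') hK
    (comb t x y z w x' y' z' w' hw hw') b hb s n l h h' (2 * (H ^ 2 * (b : ℝ) ^ (s + 2 * n))) (by
      calc _ ≤ 2 * H ^ 2 * (b : ℝ) ^ (s + 2 * n) := by gcongr
        _ = _ := by ring)
  rw [log_mul (by norm_num) (by positivity)] at key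
  have hlog : 0 ≤ log (H ^ 2 * (b : ℝ) ^ (s + 2 * n)) := log_nonneg hprod
  set W := log (H ^ 2 * (b : ℝ) ^ (s + 2 * n)) with hW
  have hl2 := Real.log_two_lt_d9
  have eAB : |((x' * w : ℤ) : ℝ)| + |((-(x * w') : ℤ) : ℝ)| ≤ 2 * H ^ 2 := by
    have e1 := abs_cast_mul_le x' w H hx' hwH
    have e2 := abs_cast_mul_le x w' H hx hwH'
    rw [Int.cast_neg, abs_neg]
    linarith
  have h2 : (120 + 47 * (log 2 + W)) * (2 * (H ^ 2 * (b : ℝ) ^ (s + 2 * n))) *
      ((|((x' * w : ℤ) : ℝ)| + |((-(x * w') : ℤ) : ℝ)|) * (b : ℝ) ^ n) ≤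
      (153 + 47 * W) * (2 * (H ^ 2 * (b : ℝ) ^ (s + 2 * n))) * (2 * H ^ 2 * (b : ℝ) ^ n) := by
    have e3 : 120 + 47 * (log 2 + W) ≤ 153 + 47 * W := by linarith
    gcongr
  have h3 : (153 + 47 * W) * (2 * (H ^ 2 * (b : ℝ) ^ (s + 2 * n))) *
      (2 * H ^ 2 * (b : ℝ) ^ n) = (612 + 188 * W) * H ^ 4 * (b : ℝ) ^ (s + 3 * n) := by
    rw [show s + 3 * n = s + 2 * n + n by ring, pow_add _ (s + 2 * n) n]
    ring
  linarith

/-- Forms of two consecutive scales. -/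
theorem dir_next (b : ℕ) (hb : 2 ≤ b) (t H : ℝ) (n : ℕ) (δ : ℝ)
    (x y z w x' y' z' w' : ℤ) (hw : w ≠ 0) (hw' : w' ≠ 0)
    (hx : |(x : ℝ)| ≤ H) (hy : |(y : ℝ)| ≤ H) (hwH : |(w : ℝ)| ≤ H)
    (hx' : |(x' : ℝ)| ≤ H) (hy' : |(y' : ℝ)| ≤ H) (hwH' : |(w' : ℝ)| ≤ H)
    (D m D' m' : ℤ) (hD : 0 < D) (hD1 : (D : ℝ) ≤ (b : ℝ) ^ n)
    (hD' : 0 < D') (hD1' : (D' : ℝ) ≤ (b : ℝ) ^ (n + 1))
    (hm : |fv t x y z w * D - m| ≤ δ) (hm' : |fv t x' y' z' w' * D' - m'| ≤ δ)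
    (hne : x * y' ≠ x' * y) :
    1 ≤ (120 + 47 * log (2 * H ^ 2 * (b : ℝ) ^ (2 * n + 1))) * (2 * H ^ 2 * (b : ℝ) ^ (2 * n + 1)) *
      (2 * H ^ 2 * (b : ℝ) ^ (n + 1) * δ) := by
  have hK : x' * y - x * y' ≠ 0 := fun h0 => hne (by linarith)
  have hb1 : (1 : ℝ) ≤ b := by exact_mod_cast (by omega : 1 ≤ b)
  have hDR : (0 : ℝ) < D := by exact_mod_cast hD
  have hDR' : (0 : ℝ) < D' := by exact_mod_cast hD'
  have hKb : |((x' * y - x * y' : ℤ) : ℝ)| ≤ 2 * H ^ 2 := by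
    have e1 := abs_cast_mul_le x' y H hx' hy
    have e2 := abs_cast_mul_le x y' H hx hy'
    rw [Int.cast_sub]
    calc _ ≤ |((x' * y : ℤ) : ℝ)| + |((x * y' : ℤ) : ℝ)| := abs_sub _ _
      _ ≤ _ := by linarith
  have hQ : |((x' * y - x * y' : ℤ) : ℝ)| * D * D' ≤ 2 * H ^ 2 * (b : ℝ) ^ (2 * n + 1) := by
    rw [show 2 * n + 1 = n + (n + 1) by ring, pow_add _ n]
    calc |((x' * y - x * y' : ℤ) : ℝ)| * D * D' ≤ 2 * H ^ 2 * (b : ℝ) ^ n * (b : ℝ) ^ (n + 1) := by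
          gcongr
      _ = _ := by ring
  have hQ1 : (1 : ℝ) ≤ 2 * H ^ 2 * (b : ℝ) ^ (2 * n + 1) := by
    refine le_trans ?_ hQ
    have e1 : (1 : ℝ) ≤ |((x' * y - x * y' : ℤ) : ℝ)| := by
      have : (1 : ℤ) ≤ |x' * y - x * y'| := Int.one_le_abs hK
      exact_mod_cast this
    have e2 : (1 : ℝ) ≤ D := by exact_mod_cast hD
    have e3 : (1 : ℝ) ≤ D' := by exact_mod_cast hD'
    calc (1 : ℝ) = 1 * 1 * 1 := by norm_num
      _ ≤ _ := by gcongr
  have hlog := log_nonneg hQ1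
  have key := lin_core _ _ (x' * w) (-(x * w')) (x' * y - x * y') (x' * z - x * z') hK
    (comb t x y z w x' y' z' w' hw hw') D D' hD hD' m m' _ hQ
  refine key.trans ?_
  apply mul_le_mul_of_nonneg_left _ (by positivity)
  have e1 := abs_cast_mul_le x' w H hx' hwH
  have e2 : |((-(x * w') : ℤ) : ℝ)| ≤ H ^ 2 := by
    rw [Int.cast_neg, abs_neg]
    exact abs_cast_mul_le x w' H hx hwH'
  have e3 : (D : ℝ) ≤ (b : ℝ) ^ (n + 1) := hD1.trans (pow_le_pow_right₀ hb1 (by omega))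
  calc |((x' * w : ℤ) : ℝ)| * D' * |fv t x y z w * D - m| +
        |((-(x * w') : ℤ) : ℝ)| * D * |fv t x' y' z' w' * D' - m'| ≤
        H ^ 2 * (b : ℝ) ^ (n + 1) * δ + H ^ 2 * (b : ℝ) ^ (n + 1) * δ := by gcongr
    _ = _ := by ring

/-- the limit which is used -/
theorem lim (B γ c a : ℝ) (hB : 1 < B) (hγ : 0 < γ) :
    Tendsto (fun n : ℕ => (a + c * n) * B ^ (-(γ * n))) atTop (nhds 0) := by
  have hr0 : 0 ≤ B ^ (-γ) := by positivity
  have hr1 : B ^ (-γ) < 1 := Real.rpow_lt_one_of_one_lt_of_neg hB (by linarith)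
  have e : ∀ n : ℕ, B ^ (-(γ * n)) = (B ^ (-γ)) ^ n := by
    intro n
    rw [← Real.rpow_natCast, ← Real.rpow_mul (by linarith)]
    congr 1
    ring
  simp_rw [e]
  have h1 := tendsto_self_mul_const_pow_of_lt_one hr0 hr1
  have h2 := tendsto_pow_atTop_nhds_zero_of_lt_one hr0 hr1
  have h3 := (h2.const_mul a).add (h1.const_mul c)
  simp only [mul_zero, add_zero] at h3
  refine h3.congr fun n => ?_
  ring

/-- forms of height at most `b^(ε n)` with at most `n` blocks of length `n` among the first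
`λ n` digits -/
def Simple (b : ℕ) (t ε lam : ℝ) (n : ℕ) (x y z w : ℤ) : Prop :=
  (x ≠ 0 ∨ y ≠ 0) ∧ w ≠ 0 ∧ |(x : ℝ)| ≤ (b : ℝ) ^ (ε * n) ∧ |(y : ℝ)| ≤ (b : ℝ) ^ (ε * n) ∧
    |(w : ℝ)| ≤ (b : ℝ) ^ (ε * n) ∧ blocksAt b (fv t x y z w) 0 n ⌈lam * n⌉₊ ≤ n

theorem Simple.close {b : ℕ} (hb : 2 ≤ b) {t ε lam : ℝ} (hl : 2 ≤ lam) {n : ℕ} {x y z w : ℤ}
    (h : Simple b t ε lam n x y z w) : ∃ D m : ℤ, 0 < D ∧ (D : ℝ) ≤ (b : ℝ) ^ n ∧
      |fv t x y z w * D - m| ≤ (b : ℝ) ^ (-((lam - 1) * n)) := by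
  obtain ⟨-, -, -, -, -, h⟩ := h
  have hn0 : (0 : ℝ) ≤ n := by positivity
  have hL : lam * n ≤ ⌈lam * n⌉₊ := Nat.le_ceil _
  have h2n : 2 * n ≤ ⌈lam * n⌉₊ := by
    have : ((2 * n : ℕ) : ℝ) ≤ ⌈lam * n⌉₊ := by
      push_cast
      nlinarith
    exact_mod_cast this
  obtain ⟨D, m, h1, h2, h3⟩ := (rep_of_few b _ 0 n _ h2n h).close hb
  refine ⟨D, m, h1, h2, ?_⟩
  have hb0 : (0 : ℝ) < b := by exact_mod_cast (by omega : 0 < b)
  have hb1 : (1 : ℝ) ≤ b := by exact_mod_cast (by omega : 1 ≤ b)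
  rw [pow_zero, mul_one] at h3
  rw [Real.rpow_neg hb0.le, ← one_div, le_div_iff₀ (by positivity)]
  refine le_trans ?_ h3.le
  apply mul_le_mul_of_nonneg_left _ (abs_nonneg _)
  rw [← Real.rpow_natCast]
  apply Real.rpow_le_rpow_of_exponent_le hb1
  rw [Nat.cast_sub (by omega)]
  linarith

theorem ev_next (b : ℕ) (hb : 2 ≤ b) (ε lam : ℝ) (hε : 0 < ε) (hl : 4 + 4 * ε < lam) (t : ℝ) :
    ∀ᶠ n : ℕ in atTop, ∀ x y z w x' y' z' w' : ℤ, Simple b t ε lam n x y z w →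
      Simple b t ε lam (n + 1) x' y' z' w' → x * y' = x' * y := by
  set B : ℝ := (b : ℝ) with hB
  have hB1 : 1 < B := by rw [hB]; exact_mod_cast (by omega : 1 < b)
  have hB0 : 0 < B := by linarith
  have hlogB : 0 < log B := log_pos hB1
  have hlim := (lim B (lam - 4 - 4 * ε) (47 * ((2 * ε + 2) * log B))
    (120 + 47 * (log 2 + (2 * ε + 1) * log B)) hB1 (by linarith)).const_mul
      (4 * B ^ (4 * ε + 2))
  rw [mul_zero] at hlim
  filter_upwards [hlim.eventually_lt_const one_pos] with n hn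
  intro x y z w x' y' z' w' h h'
  by_contra hne
  obtain ⟨D, m, hD, hD1, hm⟩ := h.close hb (by linarith)
  obtain ⟨D', m', hD', hD1', hm'⟩ := h'.close hb (by linarith)
  obtain ⟨-, hw, hx, hy, hwH, -⟩ := h
  obtain ⟨-, hw', hx', hy', hwH', -⟩ := h'
  have hmono : B ^ (ε * n) ≤ B ^ (ε * (n + 1)) := by
    apply Real.rpow_le_rpow_of_exponent_le hB1.le
    nlinarith
  have hcast : B ^ (ε * ((n + 1 : ℕ) : ℝ)) = B ^ (ε * (n + 1)) := by push_cast; rfl
  rw [← hB, hcast] at hx' hy' hwH'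
  have hδ' : B ^ (-((lam - 1) * ((n + 1 : ℕ) : ℝ))) ≤ B ^ (-((lam - 1) * n)) := by
    apply Real.rpow_le_rpow_of_exponent_le hB1.le
    push_cast
    nlinarith
  have key := dir_next b hb t (B ^ (ε * (n + 1))) n (B ^ (-((lam - 1) * n)))
    x y z w x' y' z' w' hw hw' (hx.trans hmono) (hy.trans hmono) (hwH.trans hmono) hx' hy' hwH'
    D m D' m' hD hD1 hD' hD1' hm (hm'.trans hδ') hne
  rw [← hB] at key
  have e1 : (B ^ (ε * ((n : ℝ) + 1))) ^ 2 = B ^ (2 * ε * (n + 1)) := by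
    rw [← Real.rpow_natCast, ← Real.rpow_mul hB0.le]
    congr 1
    push_cast
    ring
  have e2 : 2 * B ^ (2 * ε * ((n : ℝ) + 1)) * B ^ (2 * n + 1) =
      2 * B ^ (2 * ε * (n + 1) + (2 * n + 1)) := by
    rw [mul_assoc, ← Real.rpow_natCast B (2 * n + 1), ← Real.rpow_add hB0]
    push_cast
    rfl
  have e3 : log (2 * B ^ (2 * ε * ((n : ℝ) + 1) + (2 * n + 1))) =
      log 2 + (2 * ε * (n + 1) + (2 * n + 1)) * log B := by
    rw [log_mul (by norm_num) (by positivity), Real.log_rpow hB0]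
  have e4 : 2 * B ^ (2 * ε * ((n : ℝ) + 1)) * B ^ (n + 1) * B ^ (-((lam - 1) * n)) =
      2 * B ^ (2 * ε * (n + 1) + (n + 1) + -((lam - 1) * n)) := by
    rw [Real.rpow_add hB0, Real.rpow_add hB0, ← Real.rpow_natCast B (n + 1)]
    push_cast
    ring
  rw [e1, e2, e3, e4] at key
  have e5 : 2 * B ^ (2 * ε * ((n : ℝ) + 1) + (2 * n + 1)) *
      (2 * B ^ (2 * ε * (n + 1) + (n + 1) + -((lam - 1) * n))) =
      4 * B ^ (4 * ε + 2) * B ^ (-((lam - 4 - 4 * ε) * n)) := by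
    have : B ^ (2 * ε * ((n : ℝ) + 1) + (2 * n + 1)) *
        B ^ (2 * ε * ((n : ℝ) + 1) + (n + 1) + -((lam - 1) * n)) =
        B ^ (4 * ε + 2) * B ^ (-((lam - 4 - 4 * ε) * n)) := by
      rw [← Real.rpow_add hB0, ← Real.rpow_add hB0]
      congr 1
      ring
    linear_combination 4 * this
  rw [mul_assoc, e5] at key
  have e6 : (120 + 47 * (log 2 + (2 * ε * ((n : ℝ) + 1) + (2 * n + 1)) * log B)) *
      (4 * B ^ (4 * ε + 2) * B ^ (-((lam - 4 - 4 * ε) * n))) =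
      4 * B ^ (4 * ε + 2) * ((120 + 47 * (log 2 + (2 * ε + 1) * log B) +
        47 * ((2 * ε + 2) * log B) * n) * B ^ (-((lam - 4 - 4 * ε) * n))) := by ring
  rw [e6] at key
  linarith

/-- **The criterion.** -/
theorem criterion (b : ℕ) (hb : 2 ≤ b) (ε lam : ℝ) (hε : 0 < ε) (hl : 4 + 4 * ε < lam) (t : ℝ) :
    (∃ x y z : ℤ, (x ≠ 0 ∨ y ≠ 0) ∧ x * t + y * exp 1 + z = 0) ↔
      ∀ᶠ n : ℕ in atTop, ∃ x y z w : ℤ, Simple b t ε lam n x y z w := by
  set B : ℝ := (b : ℝ) with hB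
  have hB1 : 1 < B := by rw [hB]; exact_mod_cast (by omega : 1 < b)
  have hB0 : 0 < B := by linarith
  constructor
  · rintro ⟨x, y, z, hxy, h0⟩
    have hlim : Tendsto (fun n : ℕ => B ^ (ε * n)) atTop atTop := by
      have e : ∀ n : ℕ, B ^ (ε * n) = (B ^ ε) ^ n := by
        intro n
        rw [← Real.rpow_natCast, ← Real.rpow_mul hB0.le]
      simp_rw [e]
      exact tendsto_pow_atTop_atTop_of_one_lt (Real.one_lt_rpow hB1 hε)
    filter_upwards [hlim.eventually_ge_atTop (max (max |(x : ℝ)| |(y : ℝ)|) 1),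
      eventually_ge_atTop 1] with n hn hn1
    refine ⟨x, y, z, 1, hxy, one_ne_zero, ?_, ?_, ?_, ?_⟩
    · exact le_trans (le_trans (le_max_left _ _) (le_max_left _ _)) hn
    · exact le_trans (le_trans (le_max_right _ _) (le_max_left _ _)) hn
    · rw [Int.cast_one, abs_one]
      exact le_trans (le_max_right _ _) hn
    · have e : fv t x y z 1 = 0 := by
        unfold fv
        rw [h0, zero_div]
      rw [e]
      unfold blocksAt
      refine le_trans ?_ hn1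
      rw [Finset.card_le_one]
      intro f hf g hg
      rw [Finset.mem_image] at hf hg
      obtain ⟨i, _, rfl⟩ := hf
      obtain ⟨j, _, rfl⟩ := hg
      funext k
      simp [digit]
  · intro h
    obtain ⟨n₁, hn₁⟩ := eventually_atTop.1 (h.and (ev_next b hb ε lam hε hl t))
    have hex : ∀ n, ∃ x y z w : ℤ, n₁ ≤ n → Simple b t ε lam n x y z w := by
      intro n
      by_cases hn : n₁ ≤ n
      · obtain ⟨x, y, z, w, hs⟩ := (hn₁ n hn).1
        exact ⟨x, y, z, w, fun _ => hs⟩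
      · exact ⟨0, 0, 0, 0, fun h => absurd h hn⟩
    choose x y z w hS using hex
    set X := x n₁ with hX
    set Y := y n₁ with hY
    have hXY : X ≠ 0 ∨ Y ≠ 0 := (hS n₁ le_rfl).1
    have hprop : ∀ n, n₁ ≤ n → X * y n = x n * Y := by
      intro n hn
      induction n, hn using Nat.le_induction with
      | base => rw [← hX, ← hY]
      | succ n hn ih =>
        have h1 := (hn₁ n hn).2 _ _ _ _ _ _ _ _ (hS n hn) (hS (n + 1) (by omega))
        have h2 : x n ≠ 0 ∨ y n ≠ 0 := (hS n hn).1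
        rcases h2 with h2 | h2
        · apply mul_left_cancel₀ h2
          linear_combination X * h1 + x (n + 1) * ih
        · apply mul_left_cancel₀ h2
          linear_combination Y * h1 + y (n + 1) * ih
    set θ : ℝ := X * t + Y * exp 1 with hθ
    -- the coordinate
    obtain ⟨P, p, hP, hp⟩ : ∃ (P : ℤ) (p : ℕ → ℤ), P ≠ 0 ∧ ∀ n, n₁ ≤ n → p n ≠ 0 ∧
        |(p n : ℝ)| ≤ B ^ (ε * n) ∧ (P : ℝ) * (x n * t + y n * exp 1) = p n * θ := by
      by_cases hX0 : X = 0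
      · have hY0 : Y ≠ 0 := hXY.resolve_left (fun h => h hX0)
        refine ⟨Y, y, hY0, fun n hn => ?_⟩
        have h1 := hprop n hn
        rw [hX0, zero_mul] at h1
        have h2 : x n = 0 := (mul_eq_zero.1 h1.symm).resolve_right hY0
        have h3 : y n ≠ 0 := (hS n hn).1.resolve_left (fun h => h h2)
        refine ⟨h3, (hS n hn).2.2.2.1, ?_⟩
        rw [hθ, hX0, h2]
        push_cast
        ring
      · refine ⟨X, x, hX0, fun n hn => ?_⟩
        have h1 := hprop n hn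
        have h1R : (X : ℝ) * y n = x n * Y := by exact_mod_cast h1
        have h3 : x n ≠ 0 := by
          intro h0
          rw [h0, zero_mul] at h1
          have h4 := (mul_eq_zero.1 h1).resolve_left hX0
          rcases (hS n hn).1 with h5 | h5
          · exact h5 h0
          · exact h5 h4
        refine ⟨h3, (hS n hn).2.2.1, ?_⟩
        rw [hθ]
        linear_combination exp 1 * h1R
    -- the approximations
    have happ : ∀ n, ∃ E F : ℤ, n₁ ≤ n → E ≠ 0 ∧ |(E : ℝ)| ≤ B ^ (ε * n + n) ∧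
        |(E : ℝ) * θ - F| ≤ |(P : ℝ)| * B ^ (ε * n + -((lam - 1) * n)) := by
      intro n
      by_cases hn : n₁ ≤ n
      swap
      · exact ⟨0, 0, fun h => absurd h hn⟩
      obtain ⟨D, m, hD, hD1, hm⟩ := (hS n hn).close hb (by linarith)
      obtain ⟨-, hw, -, -, hwH, -⟩ := hS n hn
      obtain ⟨hp0, hp1, hp2⟩ := hp n hn
      have hDR : (0 : ℝ) < D := by exact_mod_cast hD
      refine ⟨D * p n, P * (w n * m - D * z n), fun _ => ⟨mul_ne_zero hD.ne' hp0, ?_, ?_⟩⟩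
      · push_cast
        rw [abs_mul, abs_of_pos hDR, Real.rpow_add hB0, mul_comm (B ^ (ε * (n : ℝ))),
          Real.rpow_natCast]
        exact mul_le_mul hD1 hp1 (abs_nonneg _) (by positivity)
      · have hwR : (w n : ℝ) ≠ 0 := by exact_mod_cast hw
        have e1 : (w n : ℝ) * fv t (x n) (y n) (z n) (w n) = x n * t + y n * exp 1 + z n := by
          unfold fv
          field_simp
        have e2 : ((D * p n : ℤ) : ℝ) * θ - ((P * (w n * m - D * z n) : ℤ) : ℝ) =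
            P * (w n * (fv t (x n) (y n) (z n) (w n) * D - m)) := by
          push_cast
          linear_combination (-(D : ℝ)) * hp2 - P * D * e1
        rw [e2, abs_mul, abs_mul, Real.rpow_add hB0]
        apply mul_le_mul_of_nonneg_left _ (abs_nonneg _)
        exact mul_le_mul hwH hm (abs_nonneg _) (by positivity)
    choose E F hEF using happ
    -- consecutive approximations coincide
    have hgap := (lim B (lam - 2 - 2 * ε) 0 1 hB1 (by linarith)).const_mul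
      (2 * |(P : ℝ)| * B ^ (ε + 1))
    rw [mul_zero] at hgap
    obtain ⟨n₂, hn₂⟩ := eventually_atTop.1 (hgap.eventually_lt_const one_pos)
    have hstep : ∀ n, n₁ ≤ n → n₂ ≤ n → E (n + 1) * F n = E n * F (n + 1) := by
      intro n h1 h2
      by_contra hne
      have h3 : (1 : ℝ) ≤ |((E (n + 1) * F n - E n * F (n + 1) : ℤ) : ℝ)| := by
        have : (1 : ℤ) ≤ |E (n + 1) * F n - E n * F (n + 1)| :=
          Int.one_le_abs (sub_ne_zero.2 hne)
        exact_mod_cast this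
      obtain ⟨-, hE1, hF1⟩ := hEF n h1
      obtain ⟨-, hE2, hF2⟩ := hEF (n + 1) (by omega)
      have h4 := hn₂ n h2
      have e : ((E (n + 1) * F n - E n * F (n + 1) : ℤ) : ℝ) =
          -(E (n + 1) * (E n * θ - F n)) + E n * (E (n + 1) * θ - F (n + 1)) := by
        push_cast; ring
      rw [e] at h3
      have h5 : |(-(E (n + 1) * (E n * θ - F n)) + E n * (E (n + 1) * θ - F (n + 1)) : ℝ)| ≤
          B ^ (ε * ((n + 1 : ℕ) : ℝ) + ((n + 1 : ℕ) : ℝ)) *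
            (|(P : ℝ)| * B ^ (ε * n + -((lam - 1) * n))) +
          B ^ (ε * n + (n : ℝ)) * (|(P : ℝ)| * B ^ (ε * ((n + 1 : ℕ) : ℝ) +
            -((lam - 1) * ((n + 1 : ℕ) : ℝ)))) := by
        refine (abs_add_le _ _).trans ?_
        rw [abs_neg, abs_mul, abs_mul]
        gcongr
      have h6 : B ^ (ε * n + (n : ℝ)) * (|(P : ℝ)| * B ^ (ε * ((n + 1 : ℕ) : ℝ) +
            -((lam - 1) * ((n + 1 : ℕ) : ℝ)))) ≤
          |(P : ℝ)| * B ^ (ε + 1) * B ^ (-((lam - 2 - 2 * ε) * n)) := by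
        have e1 : B ^ (ε * n + (n : ℝ)) * (|(P : ℝ)| * B ^ (ε * ((n + 1 : ℕ) : ℝ) +
            -((lam - 1) * ((n + 1 : ℕ) : ℝ)))) = |(P : ℝ)| * B ^ ((ε * n + (n : ℝ)) +
              (ε * ((n + 1 : ℕ) : ℝ) + -((lam - 1) * ((n + 1 : ℕ) : ℝ)))) := by
          rw [Real.rpow_add hB0 (ε * n + (n : ℝ))]
          ring
        rw [e1, mul_assoc, ← Real.rpow_add hB0]
        apply mul_le_mul_of_nonneg_left _ (abs_nonneg _)
        apply Real.rpow_le_rpow_of_exponent_le hB1.le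
        push_cast
        nlinarith
      have h7 : B ^ (ε * ((n + 1 : ℕ) : ℝ) + ((n + 1 : ℕ) : ℝ)) *
            (|(P : ℝ)| * B ^ (ε * n + -((lam - 1) * n))) =
          |(P : ℝ)| * B ^ (ε + 1) * B ^ (-((lam - 2 - 2 * ε) * n)) := by
        have e1 : B ^ (ε * ((n + 1 : ℕ) : ℝ) + ((n + 1 : ℕ) : ℝ)) *
            (|(P : ℝ)| * B ^ (ε * n + -((lam - 1) * n))) = |(P : ℝ)| *
            B ^ ((ε * ((n + 1 : ℕ) : ℝ) + ((n + 1 : ℕ) : ℝ)) + (ε * n + -((lam - 1) * n))) := by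
          rw [Real.rpow_add hB0 (ε * ((n + 1 : ℕ) : ℝ) + ((n + 1 : ℕ) : ℝ))]
          ring
        rw [e1, mul_assoc, ← Real.rpow_add hB0]
        congr 2
        push_cast
        ring
      have h8 : 2 * |(P : ℝ)| * B ^ (ε + 1) * ((1 + 0 * (n : ℝ)) * B ^ (-((lam - 2 - 2 * ε) * n))) =
          2 * (|(P : ℝ)| * B ^ (ε + 1) * B ^ (-((lam - 2 - 2 * ε) * n))) := by ring
      rw [h8] at h4
      linarith
    set n₃ := max n₁ n₂ with hn₃
    have hconst : ∀ n, n₃ ≤ n → E n₃ * F n = E n * F n₃ := by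
      intro n hn
      induction n, hn using Nat.le_induction with
      | base => rfl
      | succ n hn ih =>
        have h1 := hstep n (le_trans (le_max_left _ _) hn) (le_trans (le_max_right _ _) hn)
        have h2 : E n ≠ 0 := (hEF n (le_trans (le_max_left _ _) hn)).1
        apply mul_left_cancel₀ h2
        linear_combination (-(E n₃)) * h1 + E (n + 1) * ih
    -- the value is rational
    have hE3 : E n₃ ≠ 0 := (hEF n₃ (le_max_left _ _)).1
    have hzero : (E n₃ : ℝ) * θ - F n₃ = 0 := by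
      have hlim2 := (lim B (lam - 1 - ε) 0 1 hB1 (by linarith)).const_mul
        (|(E n₃ : ℝ)| * |(P : ℝ)|)
      rw [mul_zero] at hlim2
      have hle : ∀ᶠ n : ℕ in atTop, |(E n₃ : ℝ) * θ - F n₃| ≤
          |(E n₃ : ℝ)| * |(P : ℝ)| * ((1 + 0 * (n : ℝ)) * B ^ (-((lam - 1 - ε) * n))) := by
        filter_upwards [eventually_ge_atTop n₃] with n hn
        obtain ⟨hE0, -, hF⟩ := hEF n (le_trans (le_max_left _ _) hn)
        have h1 := hconst n hn
        have h1R : (E n₃ : ℝ) * F n = E n * F n₃ := by exact_mod_cast h1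
        have h2 : (1 : ℝ) ≤ |(E n : ℝ)| := by
          have : (1 : ℤ) ≤ |E n| := Int.one_le_abs hE0
          exact_mod_cast this
        have h3 : |(E n : ℝ)| * |(E n₃ : ℝ) * θ - F n₃| = |(E n₃ : ℝ)| * |(E n : ℝ) * θ - F n| := by
          rw [← abs_mul, ← abs_mul]
          congr 1
          linear_combination h1R
        have h4 : |(E n₃ : ℝ) * θ - F n₃| ≤ |(E n : ℝ)| * |(E n₃ : ℝ) * θ - F n₃| := by
          have := abs_nonneg ((E n₃ : ℝ) * θ - F n₃)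
          nlinarith
        rw [h3] at h4
        refine h4.trans ?_
        have h5 : B ^ (ε * n + -((lam - 1) * n)) = (1 + 0 * (n : ℝ)) * B ^ (-((lam - 1 - ε) * n)) := by
          rw [zero_mul, add_zero, one_mul]
          congr 1
          ring
        rw [← h5, mul_assoc]
        exact mul_le_mul_of_nonneg_left hF (abs_nonneg _)
      have h1 := ge_of_tendsto hlim2 hle
      exact abs_eq_zero.1 (le_antisymm h1 (abs_nonneg _))
    refine ⟨E n₃ * X, E n₃ * Y, -F n₃, ?_, ?_⟩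
    · rcases hXY with h | h
      · exact Or.inl (mul_ne_zero hE3 h)
      · exact Or.inr (mul_ne_zero hE3 h)
    · push_cast
      rw [hθ] at hzero
      linear_combination hzero

end Pool.Agent.Q199.Dg
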