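import Pool.Agent.Q199.Dg.Lin
import Pool.Agent.Q158.EqD.TransAff
import Mathlib
set_option autoImplicit false

/-!
# Repetitions in the digits and the discrepancy of multiples
-/

namespace Pool.Agent.Q199.Dg

open Real Polynomial Pool.Agent.Q158.EqD

theorem Rep.mono {b : ℕ} {x : ℝ} {a n l l' : ℕ} (h : Rep b x a n l) (hl : l' ≤ l) :
    Rep b x a n l' := by
  obtain ⟨i, j, h1, h2, h3⟩ := h
  exact ⟨i, j, h1, h2, fun s hs => h3 s (by omega)⟩

theorem rep_disc (b : ℕ) (hb : 2 ≤ b) (y : ℝ) (s n L M : ℕ) (h : Rep b y s n L)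
    (hM : 4 * (M : ℝ) < (b : ℝ) ^ L) : 1 / (2 * (b : ℝ) ^ n) ≤ disc (y * (b : ℝ) ^ s) M := by
  obtain ⟨D, m, hD, hD1, hm⟩ := h.close hb
  have hb0 : (0 : ℝ) < b := by exact_mod_cast (by omega : 0 < b)
  have hDR : (1 : ℝ) ≤ D := by exact_mod_cast hD
  set z : ℝ := y * (b : ℝ) ^ s with hz
  have hcnt : cnt z M (1 / (4 * D)) (3 / (4 * D)) = 0 := by
    unfold cnt
    rw [Finset.card_eq_zero, Finset.filter_eq_empty_iff]
    intro k hk hcon
    obtain ⟨h3, h4⟩ := hcon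
    rw [Finset.mem_Icc] at hk
    rw [← Int.self_sub_floor] at h3 h4
    set F : ℤ := ⌊(k : ℝ) * z⌋
    have hkM : (k : ℝ) ≤ M := by exact_mod_cast hk.2
    have hk0 : (0 : ℝ) ≤ k := by positivity
    have h5 : 1 / 4 ≤ ((k : ℝ) * z - F) * D := by
      have := mul_le_mul_of_nonneg_right h3 (by linarith : (0 : ℝ) ≤ D)
      have e : 1 / (4 * (D : ℝ)) * D = 1 / 4 := by field_simp
      linarith
    have h6 : ((k : ℝ) * z - F) * D < 3 / 4 := by
      have := mul_lt_mul_of_pos_right h4 (by linarith : (0 : ℝ) < D)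
      have e : 3 / (4 * (D : ℝ)) * D = 3 / 4 := by field_simp
      linarith
    have h7 : |(k : ℝ) * (z * D - m)| < 1 / 4 := by
      rw [abs_mul, abs_of_nonneg hk0]
      have hb1 : (0 : ℝ) < (b : ℝ) ^ L := by positivity
      have h8 : |z * D - m| < 1 / (b : ℝ) ^ L := by
        rw [lt_div_iff₀ hb1]; exact hm
      have h9 : (k : ℝ) * |z * D - m| ≤ M * (1 / (b : ℝ) ^ L) := by
        apply mul_le_mul hkM h8.le (abs_nonneg _) (by positivity)
      have h10 : (M : ℝ) * (1 / (b : ℝ) ^ L) < 1 / 4 := by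
        rw [mul_one_div, div_lt_iff₀ hb1]
        linarith
      linarith
    rw [abs_lt] at h7
    have e : ((k : ℝ) * z - F) * D = ((k * m - F * D : ℤ) : ℝ) + (k : ℝ) * (z * D - m) := by
      push_cast; ring
    rw [e] at h5 h6
    have h11 : (0 : ℝ) < ((k * m - F * D : ℤ) : ℝ) := by linarith [h7.2]
    have h12 : ((k * m - F * D : ℤ) : ℝ) < 1 := by linarith [h7.1]
    have h13 : 0 < k * m - F * D := by exact_mod_cast h11
    have h14 : k * m - F * D < 1 := by exact_mod_cast h12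
    omega
  have h1 := le_disc z M (1 / (4 * D)) (3 / (4 * D)) (by positivity)
    (by apply div_le_div_of_nonneg_right (by norm_num) (by positivity))
    (by rw [div_le_one (by positivity)]; linarith)
  rw [hcnt, Nat.cast_zero, zero_div, zero_sub, abs_neg] at h1
  have e : (3 / (4 * (D : ℝ)) - 1 / (4 * D)) = 1 / (2 * D) := by
    field_simp; norm_num
  rw [e, abs_of_pos (by positivity)] at h1
  refine le_trans ?_ h1
  apply one_div_le_one_div_of_le (by positivity)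
  linarith

/-- **Blocks of digits of `P(t + a x)`** for a number `x` with a transcendence measure. -/
theorem trans_blocks (x : ℝ) (hx : MeasR x) (T : ℝ) (d : ℕ) : ∃ C : ℕ, ∀ t : ℝ, |t| ≤ T →
    ∀ b : ℕ, 2 ≤ b → ∀ s n : ℕ, 0 < n → ∃ a₀ : ℚ, ∀ a : ℚ, a ≠ a₀ →
      |(a.num : ℝ)| ≤ (b : ℝ) ^ (s + n) → (a.den : ℝ) ≤ (b : ℝ) ^ (s + n) →
      ∀ P : ℤ[X], 0 < P.natDegree → P.natDegree ≤ d → (∀ i, |(P.coeff i : ℝ)| ≤ (b : ℝ) ^ (s + n)) →
        n < blocksAt b (aeval (t + a * x) P) s n (C * (s + n)) := by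
  obtain ⟨κ, K, hκ, hK, h⟩ := aff x hx T d
  obtain ⟨E, hE⟩ := pow_unbounded_of_one_lt (2 * K) (by norm_num : (1 : ℝ) < 2)
  obtain ⟨C1, hC1⟩ := exists_nat_gt ((2 + E) / κ)
  have hC1' : 2 + (E : ℝ) ≤ C1 * κ := by
    rw [div_lt_iff₀ hκ] at hC1
    exact hC1.le
  refine ⟨C1 + 4, fun t ht b hb s n hn => ?_⟩
  set w : ℝ := (b : ℝ) ^ (s + n) with hw
  have hbR : (2 : ℝ) ≤ b := by exact_mod_cast hb
  have hb1 : (1 : ℝ) ≤ b := by linarith
  have hw2 : 2 ≤ w := by
    calc (2 : ℝ) ≤ b := hbR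
      _ = (b : ℝ) ^ 1 := (pow_one _).symm
      _ ≤ w := pow_le_pow_right₀ hb1 (by omega)
  set N : ℕ := (b ^ (s + n)) ^ C1 with hN
  have hN0 : 0 < N := by positivity
  have hNR : (N : ℝ) = w ^ C1 := by rw [hN, hw]; push_cast; ring
  have hNκ : w ^ (2 + E) ≤ (N : ℝ) ^ κ := by
    rw [hNR, ← Real.rpow_natCast w C1, ← Real.rpow_mul (by linarith), ← Real.rpow_natCast]
    apply Real.rpow_le_rpow_of_exponent_le (by linarith)
    push_cast
    exact hC1'
  have hwN : w ≤ (N : ℝ) ^ κ := by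
    refine le_trans ?_ hNκ
    calc w = w ^ 1 := (pow_one _).symm
      _ ≤ w ^ (2 + E) := pow_le_pow_right₀ (by linarith) (by omega)
  have hwN2 : w * w ≤ (N : ℝ) ^ κ := by
    refine le_trans ?_ hNκ
    calc w * w = w ^ 2 := by ring
      _ ≤ w ^ (2 + E) := pow_le_pow_right₀ (by linarith) (by omega)
  obtain ⟨a₀, ha₀⟩ := h t ht N hN0
  refine ⟨a₀, fun a hne h1 h2 P hP0 hPd hPc => ?_⟩
  by_contra hcon
  push Not at hcon
  have hrep := rep_of_few b (aeval (t + a * x) P) s n ((C1 + 4) * (s + n)) (by nlinarith) hcon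
  have hrep' := hrep.mono (l' := (C1 + 3) * (s + n)) (by
    have : (C1 + 4) * (s + n) = (C1 + 3) * (s + n) + (s + n) := by ring
    omega)
  have hMb : 4 * (N : ℝ) < (b : ℝ) ^ ((C1 + 3) * (s + n)) := by
    have e : (b : ℝ) ^ ((C1 + 3) * (s + n)) = w ^ 3 * w ^ C1 := by
      rw [hw, ← pow_mul, ← pow_mul, ← pow_add]
      congr 1
      ring
    rw [e, hNR]
    have h8 : (2 : ℝ) ^ 3 ≤ w ^ 3 := pow_le_pow_left₀ (by norm_num) hw2 3
    have h9 : 0 < w ^ C1 := by positivity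
    nlinarith
  have hd := rep_disc b hb _ s n _ N hrep' hMb
  have hdeg : (C ((b : ℤ) ^ s) * P).natDegree = P.natDegree := by
    apply Polynomial.natDegree_C_mul
    have : (b : ℤ) ≠ 0 := by exact_mod_cast (by omega : b ≠ 0)
    positivity
  have h3 := ha₀ a (h1.trans hwN) (h2.trans hwN) hne (C ((b : ℤ) ^ s) * P) (by rw [hdeg]; exact hP0)
    (by rw [hdeg]; exact hPd) (by
      intro i
      rw [coeff_C_mul]
      push_cast
      rw [abs_mul, abs_of_pos (by positivity : (0 : ℝ) < (b : ℝ) ^ s)]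
      refine le_trans ?_ hwN2
      apply mul_le_mul _ (hPc i) (abs_nonneg _) (by linarith)
      exact pow_le_pow_right₀ hb1 (by omega)) N le_rfl
  have e : (aeval (t + a * x)) (C ((b : ℤ) ^ s) * P) = aeval (t + a * x) P * (b : ℝ) ^ s := by
    rw [map_mul, aeval_C]
    simp
    ring
  rw [e] at h3
  have h4 := hd.trans h3
  have h5 : 2 * K * w < (N : ℝ) ^ κ := by
    refine lt_of_lt_of_le ?_ hNκ
    have h6 : (2 : ℝ) ^ E ≤ w ^ E := pow_le_pow_left₀ (by norm_num) hw2 E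
    calc 2 * K * w < w ^ E * w := by nlinarith
      _ = w ^ (1 + E) := by ring
      _ ≤ w ^ (2 + E) := pow_le_pow_right₀ (by linarith) (by omega)
  have hNpos : 0 < (N : ℝ) ^ κ := by
    have : (0 : ℝ) < N := by exact_mod_cast hN0
    positivity
  rw [Real.rpow_neg (by positivity), div_le_iff₀ (by positivity)] at h4
  have h7 : K * ((N : ℝ) ^ κ)⁻¹ * (2 * (b : ℝ) ^ n) < 1 := by
    rw [← div_eq_mul_inv, div_mul_eq_mul_div, div_lt_one hNpos]
    refine lt_of_le_of_lt ?_ h5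
    have h8 : (b : ℝ) ^ n ≤ w := pow_le_pow_right₀ hb1 (by omega)
    nlinarith
  linarith

end Pool.Agent.Q199.Dg
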