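import Pool.Agent.Q199.Dg.RatX
import Pool.Agent.Q158.EqD.MinPol
import Mathlib
set_option autoImplicit false

/-!
# Digits of the values of integer polynomials at a real number
-/

namespace Pool.Agent.Q199.Dg

open Real Polynomial Filter Pool.Agent.Q158.EqD

/-- nonconstant polynomials of degree at most `D` with coefficients at most `H` -/
def Pol (D : ℕ) (H : ℝ) (P : ℤ[X]) : Prop :=
  0 < P.natDegree ∧ P.natDegree ≤ D ∧ ∀ i, |(P.coeff i : ℝ)| ≤ H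

/-- the constant in the bound for the coefficients -/
noncomputable def C2 (θ : ℝ) (D : ℕ) : ℝ := 2 ^ D * ((D + 1) * (2 + (D + 1) * (1 + |θ|) ^ D))

theorem C2_one (θ : ℝ) (D : ℕ) : 1 ≤ C2 θ D := by
  unfold C2
  have h0 := abs_nonneg θ
  have e1 : (1 : ℝ) ≤ 2 ^ D := one_le_pow₀ (by norm_num)
  have e2 : (0 : ℝ) ≤ D := by positivity
  have e3 : (1 : ℝ) ≤ (1 + |θ|) ^ D := one_le_pow₀ (by linarith)
  have e5 : (0 : ℝ) ≤ (D + 1) * (1 + |θ|) ^ D := by positivity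
  have e4 : (1 : ℝ) ≤ (D + 1) * (2 + (D + 1) * (1 + |θ|) ^ D) :=
    one_le_mul_of_one_le_of_one_le (by linarith) (by linarith)
  exact one_le_mul_of_one_le_of_one_le e1 e4

theorem small_irr (θ : ℝ) (D : ℕ) (H N δ ε : ℝ) (hH : 1 ≤ H) (hN : 1 ≤ N) (hδ1 : δ ≤ 1)
    (hε0 : 0 < ε) (hε1 : ε ≤ 1) (hδ : δ < ε ^ D) (P : ℤ[X]) (hP : Pol D H P) (q p : ℤ)
    (hq : 0 < q) (hqN : (q : ℝ) ≤ N) (h : |aeval θ P * q - p| ≤ δ) :
    ∃ f : ℤ[X], Irreducible f ∧ 0 < f.natDegree ∧ f.natDegree ≤ D ∧ f ∣ C q * P - C p ∧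
      (∀ i, |(f.coeff i : ℝ)| ≤ C2 θ D * (N * H)) ∧ |aeval θ f| ≤ ε := by
  obtain ⟨hP0, hPd, hPc⟩ := hP
  have hqR : (0 : ℝ) < q := by exact_mod_cast hq
  set g : ℤ[X] := C q * P - C p with hg
  have hdeg : g.natDegree = P.natDegree := by
    rw [hg, natDegree_sub_C, natDegree_C_mul hq.ne']
  have hg0 : g ≠ 0 := by
    intro h0
    rw [h0, natDegree_zero] at hdeg
    omega
  have hval : aeval θ g = aeval θ P * q - p := by
    rw [hg, map_sub, map_mul, aeval_C, aeval_C]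
    simp only [eq_intCast]
    ring
  have hNH : 1 ≤ N * H := by nlinarith
  have hPb := aeval_bdX θ D P hPd H hPc
  have hT : (0 : ℝ) ≤ (D + 1) * (1 + |θ|) ^ D := by
    have := abs_nonneg θ
    positivity
  have hpb : |(p : ℝ)| ≤ (1 + (D + 1) * (1 + |θ|) ^ D) * (N * H) := by
    have e : (p : ℝ) = aeval θ P * q - (aeval θ P * q - p) := by ring
    rw [e]
    have e1 : |aeval θ P * (q : ℝ)| ≤ (D + 1) * (1 + |θ|) ^ D * H * N := by
      rw [abs_mul, abs_of_pos hqR]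
      exact mul_le_mul hPb hqN hqR.le (by positivity)
    have e2 := abs_sub (aeval θ P * (q : ℝ)) (aeval θ P * q - p)
    nlinarith
  have hcoef : ∀ i, |(g.coeff i : ℝ)| ≤ (2 + (D + 1) * (1 + |θ|) ^ D) * (N * H) := by
    intro i
    have e : (g.coeff i : ℝ) = q * P.coeff i - (if i = 0 then (p : ℝ) else 0) := by
      rw [hg, coeff_sub, coeff_C_mul, coeff_C]
      push_cast
      rfl
    rw [e]
    have e1 : |(q : ℝ) * P.coeff i| ≤ N * H := by
      rw [abs_mul, abs_of_pos hqR]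
      exact mul_le_mul hqN (hPc i) (abs_nonneg _) (by linarith)
    have e2 : |(if i = 0 then (p : ℝ) else 0)| ≤ (1 + (D + 1) * (1 + |θ|) ^ D) * (N * H) := by
      split_ifs
      · exact hpb
      · rw [abs_zero]; positivity
    have e3 := abs_sub ((q : ℝ) * P.coeff i) (if i = 0 then (p : ℝ) else 0)
    linarith
  obtain ⟨f, hf1, hf2, hf3, hf4⟩ : ∃ f : ℤ[X], Irreducible f ∧ 0 < f.natDegree ∧ f ∣ g ∧
      |aeval θ f| ≤ ε := by
    by_contra hcon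
    push Not at hcon
    have h1 := small_factor θ ε hε0 hε1 g hg0 (fun f a b c => hcon f a b c)
    rw [hval] at h1
    have h2 : ε ^ D ≤ ε ^ g.natDegree := by
      apply pow_le_pow_of_le_one hε0.le hε1
      rw [hdeg]; exact hPd
    linarith
  refine ⟨f, hf1, hf2, ?_, hf3, ?_, hf4⟩
  · calc f.natDegree ≤ g.natDegree := natDegree_le_of_dvd hf3 hg0
      _ ≤ D := by rw [hdeg]; exact hPd
  · intro i
    have := factor_height g f hg0 hf3 D (by rw [hdeg]; exact hPd) _ hcoef i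
    refine this.trans (le_of_eq ?_)
    unfold C2
    ring

/-- an irreducible polynomial which is small at the scale `n` -/
def Irr (θ : ℝ) (D : ℕ) (e m : ℝ) (b n : ℕ) (f : ℤ[X]) : Prop :=
  Irreducible f ∧ 0 < f.natDegree ∧ f.natDegree ≤ D ∧
    (∀ i, |(f.coeff i : ℝ)| ≤ C2 θ D * (b : ℝ) ^ ((1 + e) * n)) ∧ |aeval θ f| ≤ (b : ℝ) ^ (-(m * n))

/-- small irreducible polynomials of the same or of consecutive scales are associated -/
theorem irr_assoc (θ : ℝ) (D : ℕ) (e m : ℝ) (he : 0 ≤ e) (hm : 2 * D * (1 + e) < m) :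
    ∃ n₀ : ℕ, 1 ≤ n₀ ∧ ∀ n, n₀ ≤ n → ∀ b : ℕ, 2 ≤ b → ∀ n', n ≤ n' → n' ≤ n + 1 → ∀ f g : ℤ[X],
      Irr θ D e m b n f → Irr θ D e m b n' g → Associated f g := by
  set T : ℝ := max 1 |θ| with hT
  have hT1 : 1 ≤ T := le_max_left _ _
  set C3 : ℝ := (2 * D) * T ^ (2 * D) * ((2 * D).factorial * C2 θ D ^ (2 * D)) with hC3
  have hC20 : 0 < C2 θ D := lt_of_lt_of_le one_pos (C2_one θ D)
  have hC30 : 0 ≤ C3 := by positivity
  obtain ⟨E, hE⟩ := pow_unbounded_of_one_lt C3 (by norm_num : (1 : ℝ) < 2)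
  set γ : ℝ := m - 2 * D * (1 + e) with hγ
  have hγ0 : 0 < γ := by linarith
  obtain ⟨n₀, hn₀⟩ := exists_nat_gt ((2 * D * (1 + e) + E) / γ)
  refine ⟨max 1 n₀, le_max_left _ _, fun n hn b hb n' hn' hn'' f g hf hg => ?_⟩
  have hn1 : n₀ ≤ n := (le_max_right _ _).trans hn
  have hb2 : (2 : ℝ) ≤ b := by exact_mod_cast hb
  have hb1 : (1 : ℝ) ≤ b := by linarith
  have hb0 : (0 : ℝ) < b := by linarith
  have hnn' : (n : ℝ) ≤ n' := by exact_mod_cast hn'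
  have hnn'' : (n' : ℝ) ≤ n + 1 := by exact_mod_cast hn''
  have hn0 : (0 : ℝ) ≤ n := by positivity
  have hD0 : (0 : ℝ) ≤ 2 * D * (1 + e) := by positivity
  have hm0 : 0 < m := by linarith
  set B : ℝ := C2 θ D * (b : ℝ) ^ ((1 + e) * (n + 1)) with hB
  have hB1 : 1 ≤ B := by
    have e1 := C2_one θ D
    have e2 : (1 : ℝ) ≤ (b : ℝ) ^ ((1 + e) * (n + 1)) := Real.one_le_rpow hb1 (by positivity)
    nlinarith
  have hle : ∀ k : ℝ, k ≤ n + 1 → C2 θ D * (b : ℝ) ^ ((1 + e) * k) ≤ B := by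
    intro k hk
    apply mul_le_mul_of_nonneg_left _ hC20.le
    apply Real.rpow_le_rpow_of_exponent_le hb1
    nlinarith
  apply assoc_of_small θ T hT1 (le_max_right _ _) D B ((b : ℝ) ^ (-(m * n))) hB1 f g hf.1 hg.1
    hf.2.1 hg.2.1 hf.2.2.1 hg.2.2.1 (fun i => (hf.2.2.2.1 i).trans (hle n (by linarith)))
    (fun i => (hg.2.2.2.1 i).trans (hle n' hnn'')) hf.2.2.2.2 (hg.2.2.2.2.trans (by
      apply Real.rpow_le_rpow_of_exponent_le hb1
      nlinarith))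
  have e1 : B ^ (2 * D) = C2 θ D ^ (2 * D) * (b : ℝ) ^ (2 * D * (1 + e) * (n + 1)) := by
    rw [hB, mul_pow, ← Real.rpow_natCast ((b : ℝ) ^ ((1 + e) * ((n : ℝ) + 1))),
      ← Real.rpow_mul hb0.le]
    congr 2
    push_cast
    ring
  have e2 : (2 * D) * (T ^ (2 * D) * (b : ℝ) ^ (-(m * n))) * ((2 * D).factorial * B ^ (2 * D)) =
      C3 * (b : ℝ) ^ (2 * D * (1 + e) - γ * n) := by
    have e3 : (b : ℝ) ^ (2 * D * (1 + e) - γ * n) = (b : ℝ) ^ (-(m * n)) *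
        (b : ℝ) ^ (2 * D * (1 + e) * (n + 1)) := by
      rw [← Real.rpow_add hb0]
      congr 1
      rw [hγ]
      ring
    rw [e1, e3, hC3]
    ring
  rw [e2]
  have h8 : 2 * D * (1 + e) - γ * n ≤ -(E : ℝ) := by
    have k1 : 2 * D * (1 + e) + E < n₀ * γ := by rwa [div_lt_iff₀ hγ0] at hn₀
    have k2 : γ * n₀ ≤ γ * n := mul_le_mul_of_nonneg_left (by exact_mod_cast hn1) hγ0.le
    have k3 : (n₀ : ℝ) * γ = γ * n₀ := mul_comm _ _
    linarith only [k1, k2, k3]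
  have h7 : (b : ℝ) ^ (2 * D * (1 + e) - γ * n) ≤ (2 ^ E)⁻¹ := by
    calc (b : ℝ) ^ (2 * D * (1 + e) - γ * n) ≤ (b : ℝ) ^ (-(E : ℝ)) :=
          Real.rpow_le_rpow_of_exponent_le hb1 h8
      _ ≤ (2 : ℝ) ^ (-(E : ℝ)) := by
          apply Real.rpow_le_rpow_of_nonpos (by norm_num) hb2
          have : (0 : ℝ) ≤ E := by positivity
          linarith
      _ = (2 ^ E)⁻¹ := by rw [Real.rpow_neg (by norm_num), Real.rpow_natCast]
  calc C3 * (b : ℝ) ^ (2 * D * (1 + e) - γ * n) ≤ C3 * (2 ^ E)⁻¹ :=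
        mul_le_mul_of_nonneg_left h7 hC30
    _ < 1 := by
        rw [← div_eq_mul_inv, div_lt_one (by positivity)]
        exact hE

/-- the intermediate exponent -/
theorem exists_m (D : ℕ) (hD : 1 ≤ D) (e lam w : ℝ) (hw : 2 * D * (1 + e) ≤ w)
    (hl : 1 + D * w < lam) : ∃ m : ℝ, w < m ∧ 2 * D * (1 + e) < m ∧ m * D < lam - 1 := by
  have hDR : (1 : ℝ) ≤ D := by exact_mod_cast hD
  refine ⟨w + (lam - 1 - D * w) / (2 * D), ?_, ?_, ?_⟩
  · have : 0 < (lam - 1 - D * w) / (2 * D) := by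
      have : 0 < lam - 1 - D * w := by linarith
      positivity
    linarith
  · have : 0 < (lam - 1 - D * w) / (2 * D) := by
      have : 0 < lam - 1 - D * w := by linarith
      positivity
    linarith
  · have : (w + (lam - 1 - D * w) / (2 * D)) * D = D * w + (lam - 1 - D * w) / 2 := by
      field_simp
    rw [this]
    linarith

/-- a value with few blocks gives a small irreducible polynomial -/
theorem to_irr (θ : ℝ) (D : ℕ) (hD : 1 ≤ D) (e lam m : ℝ) (he : 0 ≤ e) (hm : 2 * D * (1 + e) < m)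
    (hml : m * D < lam - 1) (b : ℕ) (hb : 2 ≤ b) (n : ℕ) (hn : 1 ≤ n) (P : ℤ[X])
    (hP : Pol D ((b : ℝ) ^ (e * n)) P) (h : blocksAt b (aeval θ P) 0 n ⌈lam * n⌉₊ ≤ n) :
    ∃ (q p : ℤ) (f : ℤ[X]), 0 < q ∧ (q : ℝ) ≤ (b : ℝ) ^ n ∧
      |aeval θ P * q - p| ≤ (b : ℝ) ^ (-((lam - 1) * n)) ∧ Irr θ D e m b n f ∧
        f ∣ C q * P - C p := by
  have hb2 : (2 : ℝ) ≤ b := by exact_mod_cast hb
  have hb1 : (1 : ℝ) ≤ b := by linarith
  have hb0 : (0 : ℝ) < b := by linarith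
  have hDR : (1 : ℝ) ≤ D := by exact_mod_cast hD
  have hnR : (1 : ℝ) ≤ n := by exact_mod_cast hn
  have hm2 : 2 < m := by nlinarith
  have hlam : 2 ≤ lam := by nlinarith
  obtain ⟨q, p, h1, h2, h3⟩ := rep_real b hb (aeval θ P) lam hlam n h
  have hδ1 : (b : ℝ) ^ (-((lam - 1) * n)) ≤ 1 := by
    apply Real.rpow_le_one_of_one_le_of_nonpos hb1
    nlinarith
  have hε1 : (b : ℝ) ^ (-(m * n)) ≤ 1 := by
    apply Real.rpow_le_one_of_one_le_of_nonpos hb1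
    nlinarith
  have hδ : (b : ℝ) ^ (-((lam - 1) * n)) < ((b : ℝ) ^ (-(m * n))) ^ D := by
    rw [← Real.rpow_natCast, ← Real.rpow_mul hb0.le]
    apply Real.rpow_lt_rpow_of_exponent_lt (by linarith)
    nlinarith
  obtain ⟨f, f1, f2, f3, f4, f5, f6⟩ := small_irr θ D ((b : ℝ) ^ (e * n)) ((b : ℝ) ^ n) _ _
    (Real.one_le_rpow hb1 (by positivity)) (one_le_pow₀ hb1) hδ1 (by positivity) hε1 hδ P hP q p
    h1 h2 h3
  refine ⟨q, p, f, h1, h2, h3, ⟨f1, f2, f3, fun i => (f5 i).trans (le_of_eq ?_), f6⟩, f4⟩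
  rw [← Real.rpow_natCast (b : ℝ) n, ← Real.rpow_add hb0]
  congr 2
  ring

/-- **One irreducible polynomial for each scale.** -/
theorem gel_one (θ : ℝ) (D : ℕ) (hD : 1 ≤ D) (e lam w : ℝ) (he : 0 ≤ e) (hw : 2 * D * (1 + e) ≤ w)
    (hl : 1 + D * w < lam) : ∃ m : ℝ, w < m ∧ ∃ n₀ : ℕ, 1 ≤ n₀ ∧ ∀ n, n₀ ≤ n → ∀ b : ℕ, 2 ≤ b →
      (∀ P : ℤ[X], Pol D ((b : ℝ) ^ (e * n)) P → n < blocksAt b (aeval θ P) 0 n ⌈lam * n⌉₊) ∨
      ∃ f : ℤ[X], Irr θ D e m b n f ∧ ∀ P : ℤ[X], Pol D ((b : ℝ) ^ (e * n)) P →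
        blocksAt b (aeval θ P) 0 n ⌈lam * n⌉₊ ≤ n →
        ∃ q p : ℤ, 0 < q ∧ (q : ℝ) ≤ (b : ℝ) ^ n ∧
          |aeval θ P * q - p| ≤ (b : ℝ) ^ (-((lam - 1) * n)) ∧ f ∣ C q * P - C p := by
  obtain ⟨m, hm1, hm2, hm3⟩ := exists_m D hD e lam w hw hl
  obtain ⟨n₀, hn₀1, hn₀⟩ := irr_assoc θ D e m he hm2
  refine ⟨m, hm1, n₀, hn₀1, fun n hn b hb => ?_⟩
  by_cases hex : ∃ P : ℤ[X], Pol D ((b : ℝ) ^ (e * n)) P ∧
      blocksAt b (aeval θ P) 0 n ⌈lam * n⌉₊ ≤ n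
  swap
  · left
    push Not at hex
    exact fun P hP => hex P hP
  right
  obtain ⟨P, hP1, hP2⟩ := hex
  obtain ⟨q, p, f, h1, h2, h3, h4, h5⟩ := to_irr θ D hD e lam m he hm2 hm3 b hb n (by omega) P
    hP1 hP2
  refine ⟨f, h4, fun P' hP1' hP2' => ?_⟩
  obtain ⟨q', p', f', h1', h2', h3', h4', h5'⟩ := to_irr θ D hD e lam m he hm2 hm3 b hb n
    (by omega) P' hP1' hP2'
  refine ⟨q', p', h1', h2', h3', ?_⟩
  have := hn₀ n hn b hb n le_rfl (by omega) f f' h4 h4'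
  exact this.dvd.trans h5'

/-- **The criterion.** -/
theorem gel_criterion (θ : ℝ) (D : ℕ) (hD : 1 ≤ D) (e lam : ℝ) (he : 0 < e)
    (hl : 1 + 2 * D ^ 2 * (1 + e) < lam) (b : ℕ) (hb : 2 ≤ b) :
    (∃ P : ℤ[X], P ≠ 0 ∧ P.natDegree ≤ D ∧ aeval θ P = 0) ↔
      ∀ᶠ n : ℕ in atTop, ∃ P : ℤ[X], Pol D ((b : ℝ) ^ (e * n)) P ∧
        blocksAt b (aeval θ P) 0 n ⌈lam * n⌉₊ ≤ n := by
  set B : ℝ := (b : ℝ) with hB
  have hB1 : 1 < B := by rw [hB]; exact_mod_cast (by omega : 1 < b)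
  have hB0 : 0 < B := by linarith
  constructor
  · rintro ⟨P, hP, hPd, hP0⟩
    have hdeg : 0 < P.natDegree := by
      by_contra hcon
      have h1 : P.natDegree = 0 := by omega
      have h2 := eq_C_of_natDegree_eq_zero h1
      rw [h2, aeval_C] at hP0
      simp only [eq_intCast] at hP0
      have h3 : P.coeff 0 = 0 := by exact_mod_cast hP0
      rw [h3, C_0] at h2
      exact hP h2
    obtain ⟨b1, hb10, hb1⟩ := coeff_bd P
    have hlim : Tendsto (fun n : ℕ => B ^ (e * n)) atTop atTop := by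
      have e' : ∀ n : ℕ, B ^ (e * n) = (B ^ e) ^ n := by
        intro n
        rw [← Real.rpow_natCast, ← Real.rpow_mul hB0.le]
      simp_rw [e']
      exact tendsto_pow_atTop_atTop_of_one_lt (Real.one_lt_rpow hB1 he)
    filter_upwards [hlim.eventually_ge_atTop b1, eventually_ge_atTop 1] with n hn hn1
    refine ⟨P, ⟨hdeg, hPd, fun i => (hb1 i).trans hn⟩, ?_⟩
    rw [hP0]
    exact (blocks_zero b n _).trans hn1
  · intro h
    obtain ⟨m, -, hm2, hm3⟩ := exists_m D hD e lam (2 * D * (1 + e)) le_rfl (by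
      have : 1 + (D : ℝ) * (2 * D * (1 + e)) = 1 + 2 * D ^ 2 * (1 + e) := by ring
      rw [this]; exact hl)
    obtain ⟨n₀, hn₀1, hn₀⟩ := irr_assoc θ D e m he.le hm2
    obtain ⟨n₁, hn₁⟩ := eventually_atTop.1 (h.and (eventually_ge_atTop n₀))
    have hex : ∀ n, ∃ f : ℤ[X], n₁ ≤ n → Irr θ D e m b n f := by
      intro n
      by_cases hn : n₁ ≤ n
      · obtain ⟨⟨P, hP1, hP2⟩, hn0⟩ := hn₁ n hn
        obtain ⟨q, p, f, h1, h2, h3, h4, h5⟩ := to_irr θ D hD e lam m he.le hm2 hm3 b hb n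
          (by omega) P hP1 hP2
        exact ⟨f, fun _ => h4⟩
      · exact ⟨0, fun h => absurd h hn⟩
    choose f hf using hex
    have hass : ∀ n, n₁ ≤ n → Associated (f n₁) (f n) := by
      intro n hn
      induction n, hn using Nat.le_induction with
      | base => exact Associated.refl _
      | succ n hn ih =>
        exact ih.trans (hn₀ n (hn₁ n hn).2 b hb (n + 1) (by omega) le_rfl _ _ (hf n hn)
          (hf (n + 1) (by omega)))
    refine ⟨f n₁, (hf n₁ le_rfl).1.ne_zero, (hf n₁ le_rfl).2.2.1, ?_⟩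
    have hm0 : 0 < m := by
      have : (0 : ℝ) ≤ 2 * D * (1 + e) := by positivity
      linarith
    have hlim2 := lim B m 0 1 hB1 hm0
    have hle : ∀ᶠ n : ℕ in atTop, |aeval θ (f n₁)| ≤ (1 + 0 * (n : ℝ)) * B ^ (-(m * n)) := by
      filter_upwards [eventually_ge_atTop n₁] with n hn
      have h1 := (hf n hn).2.2.2.2
      obtain ⟨u, hu⟩ := hass n hn
      obtain ⟨r, hr, hr'⟩ := Polynomial.isUnit_iff.1 u.isUnit
      have h2 : |aeval θ (f n)| = |aeval θ (f n₁)| := by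
        rw [← hu, ← hr', map_mul, abs_mul, aeval_C]
        rcases Int.isUnit_iff.1 hr with h | h <;> simp [h]
      rw [zero_mul, add_zero, one_mul, ← h2]
      exact h1
    exact abs_eq_zero.1 (le_antisymm (ge_of_tendsto hlim2 hle) (abs_nonneg _))

end Pool.Agent.Q199.Dg
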