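import Pool.Agent.Q199.Dg.Gel
import Mathlib
set_option autoImplicit false

/-!
# Numbers with an irrationality measure; powers
-/

namespace Pool.Agent.Q199.Dg

open Real Polynomial Filter Pool.Agent.Q158.EqD

/-- The polynomial of a scale is not linear. -/
theorem deg_two (θ : ℝ) (c μ : ℝ) (hc : 0 < c) (hμ : 1 ≤ μ)
    (hθ : ∀ (p : ℤ) (q : ℕ), 1 ≤ q → c / (q : ℝ) ^ μ ≤ |θ - (p : ℝ) / q|) (D : ℕ) (e m : ℝ)
    (hm : (μ - 1) * (1 + e) < m) :
    ∃ n₀ : ℕ, ∀ n, n₀ ≤ n → ∀ b : ℕ, 2 ≤ b → ∀ f : ℤ[X], Irr θ D e m b n f → 2 ≤ f.natDegree := by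
  have hC20 : 0 < C2 θ D := lt_of_lt_of_le one_pos (C2_one θ D)
  obtain ⟨E, hE⟩ := pow_unbounded_of_one_lt (C2 θ D ^ (μ - 1) / c) (by norm_num : (1 : ℝ) < 2)
  set γ : ℝ := m - (μ - 1) * (1 + e) with hγ
  have hγ0 : 0 < γ := by linarith
  obtain ⟨n₀, hn₀⟩ := exists_nat_gt ((E : ℝ) / γ)
  refine ⟨n₀, fun n hn b hb f hf => ?_⟩
  obtain ⟨f1, f2, f3, f4, f5⟩ := hf
  by_contra hcon
  have hdeg : f.natDegree = 1 := by omega
  have hb2 : (2 : ℝ) ≤ b := by exact_mod_cast hb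
  have hb1 : (1 : ℝ) ≤ b := by linarith
  have hb0 : (0 : ℝ) < b := by linarith
  have hval : aeval θ f = f.coeff 1 * θ + f.coeff 0 := by
    rw [aeval_eq_sum_range, hdeg, Finset.sum_range_succ, Finset.sum_range_one]
    simp only [zsmul_eq_mul, pow_zero, pow_one, mul_one]
    ring
  have hu : f.coeff 1 ≠ 0 := by
    intro h0
    have : f.leadingCoeff = 0 := by
      unfold leadingCoeff; rw [hdeg, h0]
    rw [leadingCoeff_eq_zero] at this
    exact f1.ne_zero this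
  set u : ℤ := f.coeff 1 with hudef
  set v : ℤ := f.coeff 0
  have hq1 : 1 ≤ u.natAbs := Int.natAbs_pos.2 hu
  have huR : ((u.natAbs : ℕ) : ℝ) = |(u : ℝ)| := by
    rw [Nat.cast_natAbs, Int.cast_abs]
  have hu1 : (1 : ℝ) ≤ |(u : ℝ)| := by
    rw [← huR]; exact_mod_cast hq1
  -- the measure
  have key : c / |(u : ℝ)| ^ μ * |(u : ℝ)| ≤ |u * θ + v| := by
    rcases lt_or_gt_of_ne hu with h | h
    · have h1 := hθ v u.natAbs hq1
      rw [huR] at h1
      have h2 : |(u : ℝ)| = -u := abs_of_neg (by exact_mod_cast h)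
      have h3 := mul_le_mul_of_nonneg_right h1 (abs_nonneg (u : ℝ))
      refine h3.trans (le_of_eq ?_)
      have hne : (u : ℝ) ≠ 0 := by exact_mod_cast hu
      have h4 : (θ - (v : ℝ) / -u) * u = u * θ + v := by
        field_simp
        ring
      rw [← abs_mul, h2, h4]
    · have h1 := hθ (-v) u.natAbs hq1
      rw [huR] at h1
      have h2 : |(u : ℝ)| = u := abs_of_pos (by exact_mod_cast h)
      have h3 := mul_le_mul_of_nonneg_right h1 (abs_nonneg (u : ℝ))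
      refine h3.trans (le_of_eq ?_)
      have hne : (u : ℝ) ≠ 0 := by exact_mod_cast hu
      have h4 : (θ - ((-v : ℤ) : ℝ) / u) * u = u * θ + v := by
        push_cast
        field_simp
        ring
      rw [← abs_mul, h2, h4]
  have hup : 0 < |(u : ℝ)| := by linarith
  have e1 : c / |(u : ℝ)| ^ μ * |(u : ℝ)| = c * |(u : ℝ)| ^ (-(μ - 1)) := by
    have : |(u : ℝ)| ^ (-(μ - 1)) = |(u : ℝ)| ^ (-μ) * |(u : ℝ)| ^ (1 : ℝ) := by
      rw [← Real.rpow_add hup]; congr 1; ring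
    rw [this, Real.rpow_one, Real.rpow_neg hup.le]
    ring
  rw [e1] at key
  have hG : |(u : ℝ)| ≤ C2 θ D * (b : ℝ) ^ ((1 + e) * n) := f4 1
  have e2 : (C2 θ D * (b : ℝ) ^ ((1 + e) * n)) ^ (-(μ - 1)) ≤ |(u : ℝ)| ^ (-(μ - 1)) :=
    Real.rpow_le_rpow_of_nonpos hup hG (by linarith)
  have e3 : (C2 θ D * (b : ℝ) ^ ((1 + e) * n)) ^ (-(μ - 1)) =
      (C2 θ D ^ (μ - 1))⁻¹ * (b : ℝ) ^ (-((μ - 1) * (1 + e) * n)) := by
    rw [Real.mul_rpow hC20.le (by positivity), Real.rpow_neg hC20.le, ← Real.rpow_mul hb0.le]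
    congr 2
    ring
  rw [hval] at f5
  have h6 : c * ((C2 θ D ^ (μ - 1))⁻¹ * (b : ℝ) ^ (-((μ - 1) * (1 + e) * n))) ≤
      (b : ℝ) ^ (-(m * n)) := by
    rw [← e3]
    exact (mul_le_mul_of_nonneg_left e2 hc.le).trans (key.trans f5)
  have hCp : 0 < C2 θ D ^ (μ - 1) := by positivity
  have h7 : (b : ℝ) ^ (γ * n) ≤ C2 θ D ^ (μ - 1) / c := by
    rw [le_div_iff₀ hc]
    have h8 := mul_le_mul_of_nonneg_right h6 (by positivity :
      0 ≤ C2 θ D ^ (μ - 1) * (b : ℝ) ^ (m * n))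
    have e4 : c * ((C2 θ D ^ (μ - 1))⁻¹ * (b : ℝ) ^ (-((μ - 1) * (1 + e) * n))) *
        (C2 θ D ^ (μ - 1) * (b : ℝ) ^ (m * n)) = (b : ℝ) ^ (γ * n) * c := by
      have : (b : ℝ) ^ (γ * n) = (b : ℝ) ^ (-((μ - 1) * (1 + e) * n)) * (b : ℝ) ^ (m * n) := by
        rw [← Real.rpow_add hb0]; congr 1; rw [hγ]; ring
      rw [this]
      field_simp
    have e5 : (b : ℝ) ^ (-(m * n)) * (C2 θ D ^ (μ - 1) * (b : ℝ) ^ (m * n)) = C2 θ D ^ (μ - 1) := by
      have : (b : ℝ) ^ (-(m * n)) * (b : ℝ) ^ (m * n) = 1 := by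
        rw [← Real.rpow_add hb0, neg_add_cancel, Real.rpow_zero]
      linear_combination (C2 θ D ^ (μ - 1)) * this
    rw [e4, e5] at h8
    exact h8
  have h9 : (2 : ℝ) ^ E ≤ (b : ℝ) ^ (γ * n) := by
    calc (2 : ℝ) ^ E ≤ (b : ℝ) ^ E := pow_le_pow_left₀ (by norm_num) hb2 E
      _ = (b : ℝ) ^ (E : ℝ) := (Real.rpow_natCast _ _).symm
      _ ≤ _ := by
        apply Real.rpow_le_rpow_of_exponent_le hb1
        have k1 : (E : ℝ) < n₀ * γ := by rwa [div_lt_iff₀ hγ0] at hn₀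
        have k2 : γ * n₀ ≤ γ * n := mul_le_mul_of_nonneg_left (by exact_mod_cast hn) hγ0.le
        have k3 : (n₀ : ℝ) * γ = γ * n₀ := mul_comm _ _
        linarith only [k1, k2, k3]
  linarith

/-- A polynomial which divides `q X^k - p` for exponents `k` in a set `S` with `gcd 1` is
linear. -/
theorem powers (f : ℤ[X]) (hf : Irreducible f) (hf2 : 2 ≤ f.natDegree) :
    ∃ m : ℕ, 2 ≤ m ∧ ∀ k : ℕ, ∀ q p : ℤ, 0 < q → f ∣ C q * X ^ k - C p → m ∣ k ∨ k = 0 := by
  -- a root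
  have hdeg : 0 < (f.map (algebraMap ℤ ℂ)).degree := by
    rw [degree_map_eq_of_injective (RingHom.injective_int _)]
    rw [← natDegree_pos_iff_degree_pos]
    omega
  obtain ⟨α, hα⟩ := Complex.exists_root hdeg
  have hα0 : aeval α f = 0 := by
    rw [IsRoot.def, eval_map_algebraMap] at hα
    exact hα
  -- `α` is not rational
  have hprim : f.IsPrimitive := hf.isPrimitive (by omega)
  have hrat : ∀ r : ℚ, α ≠ r := by
    intro r hr
    have h1 : (f.map (Int.castRingHom ℚ)).eval r = 0 := by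
      have h2 : aeval (r : ℂ) f = 0 := by rw [← hr]; exact hα0
      have h3 : aeval (r : ℂ) f = (((f.map (Int.castRingHom ℚ)).eval r : ℚ) : ℂ) := by
        rw [eval_map, ← algebraMap_int_eq, ← aeval_def]
        have : (r : ℂ) = algebraMap ℚ ℂ r := by simp
        rw [this, aeval_algebraMap_apply]
        simp
      rw [h3] at h2
      exact_mod_cast h2
    have hirr : Irreducible (f.map (Int.castRingHom ℚ)) :=
      (IsPrimitive.Int.irreducible_iff_irreducible_map_cast hprim).1 hf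
    have h5 := Polynomial.degree_eq_one_of_irreducible_of_root hirr h1
    have h4 : (f.map (Int.castRingHom ℚ)).natDegree = 1 :=
      Polynomial.natDegree_eq_of_degree_eq_some (by rw [h5]; rfl)
    rw [natDegree_map_eq_of_injective (RingHom.injective_int _)] at h4
    omega
  -- the subgroup of the exponents
  by_cases hα00 : α = 0
  · exact absurd (by rw [hα00]; simp) (hrat 0)
  let G : AddSubgroup ℤ :=
    { carrier := {k | ∃ r : ℚ, r ≠ 0 ∧ α ^ k = r}
      zero_mem' := ⟨1, one_ne_zero, by simp⟩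
      add_mem' := by
        rintro a b ⟨r, hr0, hr⟩ ⟨s, hs0, hs⟩
        exact ⟨r * s, mul_ne_zero hr0 hs0, by rw [zpow_add₀ hα00, hr, hs]; push_cast; rfl⟩
      neg_mem' := by
        rintro a ⟨r, hr0, hr⟩
        exact ⟨r⁻¹, inv_ne_zero hr0, by rw [zpow_neg, hr]; push_cast; rfl⟩ }
  obtain ⟨g, hg⟩ := Int.subgroup_cyclic G
  have hmem : ∀ k : ℤ, k ∈ G → g ∣ k := by
    intro k hk
    rw [hg, AddSubgroup.mem_closure_singleton] at hk
    obtain ⟨z, hz⟩ := hk
    exact ⟨z, by rw [← hz, zsmul_eq_mul]; push_cast; ring⟩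
  have hg1 : g.natAbs ≠ 1 := by
    intro h1
    have h2 : g ∈ G := by
      rw [hg]; exact AddSubgroup.subset_closure (Set.mem_singleton g)
    have h3 : (1 : ℤ) ∈ G := by
      rcases Int.natAbs_eq_iff.1 h1 with h | h
      · rw [h] at h2; simpa using h2
      · rw [h] at h2
        have := G.neg_mem h2
        simpa using this
    obtain ⟨r, -, hr⟩ := h3
    rw [zpow_one] at hr
    exact hrat r hr
  have hG : ∀ k : ℕ, ∀ q p : ℤ, 0 < q → f ∣ C q * X ^ k - C p → (k : ℤ) ∈ G := by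
    intro k q p hq hdvd
    obtain ⟨h, hh⟩ := hdvd
    have h1 := congrArg (aeval α) hh
    rw [map_mul, hα0, zero_mul] at h1
    simp only [map_sub, map_mul, map_pow, aeval_X, aeval_C] at h1
    simp only [eq_intCast] at h1
    have hqC : (q : ℂ) ≠ 0 := by exact_mod_cast hq.ne'
    have h2 : α ^ k = ((p / q : ℚ) : ℂ) := by
      push_cast
      rw [eq_div_iff hqC]
      linear_combination h1
    refine ⟨p / q, ?_, by rw [zpow_natCast]; exact h2⟩
    intro h3
    rw [h3, Rat.cast_zero] at h2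
    exact pow_ne_zero _ hα00 h2
  by_cases hg0 : g = 0
  · refine ⟨2, le_rfl, fun k q p hq hdvd => Or.inr ?_⟩
    have := hmem k (hG k q p hq hdvd)
    rw [hg0, zero_dvd_iff] at this
    exact_mod_cast this
  · refine ⟨g.natAbs, ?_, fun k q p hq hdvd => Or.inl ?_⟩
    · have : g.natAbs ≠ 0 := Int.natAbs_ne_zero.2 hg0
      omega
    · have h1 := hmem k (hG k q p hq hdvd)
      exact Int.natAbs_dvd_natAbs.2 h1

end Pool.Agent.Q199.Dg
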