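import Pool.Agent.Q199.Dg.Basic
import Pool.Agent.H43R2.Cplx.EMeas
import Mathlib
set_option autoImplicit false

/-!
# Equal blocks of digits of two numbers `u`, `v` with `A u + B v = K e + l`
-/

namespace Pool.Agent.Q199.Dg

open Real

theorem e_low_nat (q : ℕ) (hq : 1 ≤ q) (p : ℤ) :
    1 ≤ (120 + 47 * log q) * q * |q * exp 1 - p| := by
  obtain ⟨n, hn, h⟩ := Pool.Agent.H43R2.Cplx.EMeas.lower q hq p
  have hqR : (1 : ℝ) ≤ q := by exact_mod_cast hq
  have hlq : 0 ≤ log (q : ℝ) := log_nonneg hqR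
  have hl2 := Real.log_two_gt_d9
  have h1 : (n : ℝ) * log 2 ≤ 3 * log 2 + log q := by
    have h2 : ((2 : ℝ)) ^ n ≤ 8 * q := by
      have : (2 : ℝ) ^ n < 8 * q := by exact_mod_cast hn
      exact this.le
    have h3 := Real.log_le_log (by positivity) h2
    rw [Real.log_pow, Real.log_mul (by norm_num) (by positivity),
      show (8 : ℝ) = 2 ^ 3 by norm_num, Real.log_pow] at h3
    push_cast at h3
    exact h3
  have h2 : (n : ℝ) ≤ 3 + 1.46 * log q := by nlinarith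
  have h3 : (8 * (4 * n + 3) * q : ℝ) ≤ (120 + 47 * log q) * q := by
    apply mul_le_mul_of_nonneg_right _ (by linarith)
    linarith
  have hpos : (0 : ℝ) < 8 * (4 * n + 3) * q := by positivity
  calc (1 : ℝ) = (8 * (4 * n + 3) * q : ℝ) * (1 / (8 * (4 * n + 3) * q)) := by
        field_simp
    _ ≤ (120 + 47 * log q) * q * |q * exp 1 - p| := by
        apply mul_le_mul h3 h (by positivity) (by positivity)

theorem e_low (q : ℤ) (hq : q ≠ 0) (p : ℤ) :
    1 ≤ (120 + 47 * log |(q : ℝ)|) * |(q : ℝ)| * |q * exp 1 - p| := by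
  have h1 : 1 ≤ q.natAbs := Int.natAbs_pos.2 hq
  have h2 : ((q.natAbs : ℕ) : ℝ) = |(q : ℝ)| := by
    rw [Nat.cast_natAbs]
    push_cast
    rfl
  rcases lt_or_gt_of_ne hq with h | h
  · have h3 := e_low_nat q.natAbs h1 (-p)
    rw [h2] at h3
    have h4 : |(q : ℝ)| = - q := abs_of_neg (by exact_mod_cast h)
    have h5 : |(|(q : ℝ)| * exp 1 - ((-p : ℤ) : ℝ))| = |q * exp 1 - p| := by
      rw [h4, ← abs_neg]
      congr 1
      push_cast
      ring
    rw [h5] at h3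
    exact h3
  · have h3 := e_low_nat q.natAbs h1 p
    rw [h2] at h3
    have h4 : |(q : ℝ)| = q := abs_of_pos (by exact_mod_cast h)
    rw [show (|(|(q : ℝ)| * exp 1 - (p : ℝ))|) = |q * exp 1 - p| by rw [h4]] at h3
    exact h3

/-- If `D u` and `D' v` are close to integers then `K D D' e` is close to an integer. -/
theorem lin_core (u v : ℝ) (A B K l : ℤ) (hK : K ≠ 0)
    (huv : A * u + B * v = K * exp 1 + l) (D D' : ℤ) (hD : 0 < D) (hD' : 0 < D') (m m' : ℤ)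
    (Q : ℝ) (hQ : |(K : ℝ)| * D * D' ≤ Q) :
    1 ≤ (120 + 47 * log Q) * Q * (|(A : ℝ)| * D' * |u * D - m| + |(B : ℝ)| * D * |v * D' - m'|) := by
  have hDR : (0 : ℝ) < D := by exact_mod_cast hD
  have hDR' : (0 : ℝ) < D' := by exact_mod_cast hD'
  have hq0 : K * D * D' ≠ 0 := by positivity
  have hq1 : |((K * D * D' : ℤ) : ℝ)| = |(K : ℝ)| * D * D' := by
    push_cast
    rw [abs_mul, abs_mul, abs_of_pos hDR, abs_of_pos hDR']
  have hq2 : (1 : ℝ) ≤ |((K * D * D' : ℤ) : ℝ)| := by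
    have : (1 : ℤ) ≤ |K * D * D'| := Int.one_le_abs hq0
    exact_mod_cast this
  have h1 := e_low (K * D * D') hq0 (A * m * D' + B * m' * D - l * D * D')
  have hpos : 0 ≤ log |((K * D * D' : ℤ) : ℝ)| := log_nonneg hq2
  have hlog : log |((K * D * D' : ℤ) : ℝ)| ≤ log Q := by
    apply Real.log_le_log (by linarith)
    rw [hq1]; exact hQ
  have h2 : (120 + 47 * log |((K * D * D' : ℤ) : ℝ)|) * |((K * D * D' : ℤ) : ℝ)| ≤
      (120 + 47 * log Q) * Q := by
    apply mul_le_mul (by linarith) (by rw [hq1]; exact hQ) (abs_nonneg _) (by linarith)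
  have h3 : |((K * D * D' : ℤ) : ℝ) * exp 1 - ((A * m * D' + B * m' * D - l * D * D' : ℤ) : ℝ)| ≤
      |(A : ℝ)| * D' * |u * D - m| + |(B : ℝ)| * D * |v * D' - m'| := by
    have e : ((K * D * D' : ℤ) : ℝ) * exp 1 - ((A * m * D' + B * m' * D - l * D * D' : ℤ) : ℝ) =
        A * D' * (u * D - m) + B * D * (v * D' - m') := by
      push_cast
      linear_combination (-(D : ℝ) * D') * huv
    rw [e]
    refine (abs_add_le _ _).trans ?_
    rw [abs_mul, abs_mul, abs_mul, abs_mul, abs_of_pos hDR, abs_of_pos hDR']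
  have h4 : (0 : ℝ) ≤ (120 + 47 * log Q) * Q := by
    have : 0 ≤ Q := le_trans (by positivity) hQ
    apply mul_nonneg (by linarith) this
  calc (1 : ℝ) ≤ _ := h1
    _ ≤ (120 + 47 * log Q) * Q * (|(A : ℝ)| * D' * |u * D - m| + |(B : ℝ)| * D * |v * D' - m'|) := by
      apply mul_le_mul h2 h3 (abs_nonneg _) h4

/-- among the `n + 1` blocks of `l` digits of `x` which begin at the places `a, …, a + n` two
coincide (the places are counted from zero) -/
def Rep (b : ℕ) (x : ℝ) (a n l : ℕ) : Prop :=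
  ∃ i j, i < j ∧ j ≤ n ∧ ∀ s < l, digit b x (a + i + s) = digit b x (a + j + s)

theorem digit_shift (b : ℕ) (x : ℝ) (a i : ℕ) : digit b (x * (b : ℝ) ^ a) i = digit b x (a + i) := by
  unfold digit
  rw [mul_assoc, ← pow_add, ← add_assoc]

/-- the form of `close` which is used: a denominator `D ≤ b ^ n` with `b ^ a D x` close to an
integer -/
theorem Rep.close {b : ℕ} (hb : 2 ≤ b) {x : ℝ} {a n l : ℕ} (h : Rep b x a n l) :
    ∃ D m : ℤ, 0 < D ∧ (D : ℝ) ≤ (b : ℝ) ^ n ∧ |x * (b : ℝ) ^ a * D - m| * (b : ℝ) ^ l < 1 := by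
  obtain ⟨i, j, hij, hj, h1⟩ := h
  obtain ⟨m, hm⟩ := Pool.Agent.Q199.Dg.close b (by omega) (x * (b : ℝ) ^ a) i j l (by
    intro s hs
    rw [digit_shift, digit_shift, ← add_assoc, ← add_assoc]
    exact h1 s hs)
  refine ⟨(b : ℤ) ^ j - (b : ℤ) ^ i, m, ?_, ?_, ?_⟩
  · have : (b : ℤ) ^ i < (b : ℤ) ^ j := pow_lt_pow_right₀ (by exact_mod_cast hb) hij
    linarith
  · push_cast
    have h2 : (b : ℝ) ^ j ≤ (b : ℝ) ^ n := pow_le_pow_right₀ (by exact_mod_cast (by omega : 1 ≤ b)) hj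
    have h3 : (0 : ℝ) ≤ (b : ℝ) ^ i := by positivity
    linarith
  · push_cast
    exact hm

/-- **Two numbers, two bases.** -/
theorem two (u v : ℝ) (A B K l : ℤ) (hK : K ≠ 0) (huv : A * u + B * v = K * exp 1 + l)
    (b c : ℕ) (hb : 2 ≤ b) (hc : 2 ≤ c) (a n L a' n' L' : ℕ) (h : Rep b u a n L)
    (h' : Rep c v a' n' L') (Q : ℝ) (hQ : |(K : ℝ)| * (b : ℝ) ^ (a + n) * (c : ℝ) ^ (a' + n') ≤ Q) :
    1 ≤ (120 + 47 * log Q) * Q *
      (|(A : ℝ)| * (c : ℝ) ^ (a' + n') / (b : ℝ) ^ L + |(B : ℝ)| * (b : ℝ) ^ (a + n) / (c : ℝ) ^ L') := by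
  obtain ⟨D, m, hD, hD1, hm⟩ := h.close hb
  obtain ⟨D', m', hD', hD1', hm'⟩ := h'.close hc
  have hb0 : (0 : ℝ) < b := by exact_mod_cast (by omega : 0 < b)
  have hc0 : (0 : ℝ) < c := by exact_mod_cast (by omega : 0 < c)
  have hDR : (0 : ℝ) < D := by exact_mod_cast hD
  have hDR' : (0 : ℝ) < D' := by exact_mod_cast hD'
  have h1 := lin_core u v A B K l hK huv ((b : ℤ) ^ a * D) ((c : ℤ) ^ a' * D')
    (by positivity) (by positivity) m m' Q (by
      refine le_trans ?_ hQ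
      push_cast
      rw [pow_add, pow_add]
      gcongr)
  have hQ0 : 1 ≤ Q := by
    refine le_trans ?_ hQ
    have e1 : (1 : ℝ) ≤ |(K : ℝ)| := by
      have : (1 : ℤ) ≤ |K| := Int.one_le_abs hK
      exact_mod_cast this
    have e2 : (1 : ℝ) ≤ (b : ℝ) ^ (a + n) := one_le_pow₀ (by exact_mod_cast (by omega : 1 ≤ b))
    have e3 : (1 : ℝ) ≤ (c : ℝ) ^ (a' + n') := one_le_pow₀ (by exact_mod_cast (by omega : 1 ≤ c))
    calc (1 : ℝ) = 1 * 1 * 1 := by norm_num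
      _ ≤ _ := by gcongr
  have hlog : 0 ≤ log Q := log_nonneg hQ0
  refine h1.trans ?_
  apply mul_le_mul_of_nonneg_left _ (by positivity)
  push_cast
  have e1 : |u * ((b : ℝ) ^ a * D) - m| ≤ 1 / (b : ℝ) ^ L := by
    rw [le_div_iff₀ (by positivity), ← mul_assoc]
    exact hm.le
  have e2 : |v * ((c : ℝ) ^ a' * D') - m'| ≤ 1 / (c : ℝ) ^ L' := by
    rw [le_div_iff₀ (by positivity), ← mul_assoc]
    exact hm'.le
  have e3 : (c : ℝ) ^ a' * D' ≤ (c : ℝ) ^ (a' + n') := by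
    rw [pow_add]; gcongr
  have e4 : (b : ℝ) ^ a * D ≤ (b : ℝ) ^ (a + n) := by
    rw [pow_add]; gcongr
  have hA := abs_nonneg (A : ℝ)
  have hB := abs_nonneg (B : ℝ)
  calc |(A : ℝ)| * ((c : ℝ) ^ a' * D') * |u * ((b : ℝ) ^ a * D) - m| +
        |(B : ℝ)| * ((b : ℝ) ^ a * D) * |v * ((c : ℝ) ^ a' * D') - m'| ≤
        |(A : ℝ)| * (c : ℝ) ^ (a' + n') * (1 / (b : ℝ) ^ L) +
        |(B : ℝ)| * (b : ℝ) ^ (a + n) * (1 / (c : ℝ) ^ L') := by gcongr
    _ = _ := by ring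

/-- **Two numbers, one base, the same places.** -/
theorem one_base (u v : ℝ) (A B K l : ℤ) (hK : K ≠ 0) (huv : A * u + B * v = K * exp 1 + l)
    (b : ℕ) (hb : 2 ≤ b) (a n L : ℕ) (h : Rep b u a n L)
    (h' : Rep b v a n L) (Q : ℝ) (hQ : |(K : ℝ)| * (b : ℝ) ^ (a + 2 * n) ≤ Q) :
    (b : ℝ) ^ L ≤ (120 + 47 * log Q) * Q * ((|(A : ℝ)| + |(B : ℝ)|) * (b : ℝ) ^ n) := by
  obtain ⟨D, m, hD, hD1, hm⟩ := h.close hb
  obtain ⟨D', m', hD', hD1', hm'⟩ := h'.close hb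
  have hb0 : (0 : ℝ) < b := by exact_mod_cast (by omega : 0 < b)
  have hDR : (0 : ℝ) < D := by exact_mod_cast hD
  have hDR' : (0 : ℝ) < D' := by exact_mod_cast hD'
  have hbZ : (b : ℤ) ≠ 0 := by exact_mod_cast (by omega : b ≠ 0)
  have h1 := lin_core (u * (b : ℝ) ^ a) (v * (b : ℝ) ^ a) A B (K * (b : ℤ) ^ a) (l * (b : ℤ) ^ a)
    (mul_ne_zero hK (pow_ne_zero _ hbZ)) (by
      push_cast
      linear_combination ((b : ℝ) ^ a) * huv) D D' hD hD' m m' Q (by
      refine le_trans ?_ hQ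
      push_cast
      rw [abs_mul, abs_of_pos (by positivity : (0 : ℝ) < (b : ℝ) ^ a),
        show a + 2 * n = a + n + n by ring, pow_add, pow_add]
      have := abs_nonneg (K : ℝ)
      calc |(K : ℝ)| * (b : ℝ) ^ a * D * D' ≤ |(K : ℝ)| * (b : ℝ) ^ a * (b : ℝ) ^ n * (b : ℝ) ^ n := by
            gcongr
        _ = _ := by ring)
  have hQ0 : 1 ≤ Q := by
    refine le_trans ?_ hQ
    have e1 : (1 : ℝ) ≤ |(K : ℝ)| := by
      have : (1 : ℤ) ≤ |K| := Int.one_le_abs hK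
      exact_mod_cast this
    have e2 : (1 : ℝ) ≤ (b : ℝ) ^ (a + 2 * n) := one_le_pow₀ (by exact_mod_cast (by omega : 1 ≤ b))
    calc (1 : ℝ) = 1 * 1 := by norm_num
      _ ≤ _ := by gcongr
  have hlog : 0 ≤ log Q := log_nonneg hQ0
  have e1 : |u * (b : ℝ) ^ a * D - m| ≤ 1 / (b : ℝ) ^ L := by
    rw [le_div_iff₀ (by positivity)]
    exact hm.le
  have e2 : |v * (b : ℝ) ^ a * D' - m'| ≤ 1 / (b : ℝ) ^ L := by
    rw [le_div_iff₀ (by positivity)]
    exact hm'.le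
  have hA := abs_nonneg (A : ℝ)
  have hB := abs_nonneg (B : ℝ)
  have h2 : 1 ≤ (120 + 47 * log Q) * Q * ((|(A : ℝ)| + |(B : ℝ)|) * (b : ℝ) ^ n) /
      (b : ℝ) ^ L := by
    refine h1.trans ?_
    rw [mul_div_assoc]
    apply mul_le_mul_of_nonneg_left _ (by positivity)
    calc |(A : ℝ)| * D' * |u * (b : ℝ) ^ a * D - m| + |(B : ℝ)| * D * |v * (b : ℝ) ^ a * D' - m'| ≤
        |(A : ℝ)| * (b : ℝ) ^ n * (1 / (b : ℝ) ^ L) + |(B : ℝ)| * (b : ℝ) ^ n * (1 / (b : ℝ) ^ L) := by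
          gcongr
      _ = _ := by ring
  rw [le_div_iff₀ (by positivity)] at h2
  linarith

/-- the number of different blocks of `n` digits among the `L` digits of `x` of the places
`a, …, a + L - 1` in the base `b` -/
noncomputable def blocksAt (b : ℕ) (x : ℝ) (a n L : ℕ) : ℕ :=
  ((Finset.range (L + 1 - n)).image fun i => fun t : Fin n => digit b x (a + i + t)).card

/-- **Few blocks give a long repetition.** -/
theorem rep_of_few (b : ℕ) (x : ℝ) (a n L : ℕ) (hL : 2 * n ≤ L) (h : blocksAt b x a n L ≤ n) :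
    Rep b x a n (L - n) := by
  have h1 : blocks b (x * (b : ℝ) ^ a) n L ≤ n := by
    refine le_trans (le_of_eq ?_) h
    unfold blocks blocksAt
    congr 1
    apply Finset.image_congr
    intro i _
    funext t
    show digit b (x * (b : ℝ) ^ a) (i + t) = digit b x (a + i + t)
    rw [digit_shift, add_assoc]
  obtain ⟨i, j, hij, hj, h2⟩ := few_blocks b _ n L hL h1
  refine ⟨i, j, hij, hj, fun s hs => ?_⟩
  have h3 := h2 s hs
  rw [digit_shift, digit_shift, ← add_assoc, ← add_assoc] at h3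
  exact h3

end Pool.Agent.Q199.Dg
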