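import Pool.Agent.Q199.Dg.Dir
import Pool.Agent.Q95.NR3
import Mathlib
set_option autoImplicit false

/-!
# Linear forms in `1, x, y` with few blocks of digits
-/

namespace Pool.Agent.Q199.Dg

open Real Filter Pool.Agent.Q252.EN Pool.Agent.Q95.NR

theorem ht_le_real {v : Fin 3 → ℤ} {G : ℝ} (h : ∀ i, |(v i : ℝ)| ≤ G) : (ht v : ℝ) ≤ G := by
  have h1 : ∀ i, ((v i).natAbs : ℝ) ≤ G := by
    intro i
    rw [Nat.cast_natAbs, Int.cast_abs]
    exact h i
  unfold ht
  rw [Nat.cast_max, Nat.cast_max]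
  exact max_le (h1 0) (max_le (h1 1) (h1 2))

/-- the value of the form -/
noncomputable def fw (x y : ℝ) (a b g d : ℤ) : ℝ := (a * x + b * y + g) / d

/-- forms of height at most `β^(ε n)` with at most `n` blocks of length `n` among the first
`λ n` digits -/
def Simple2 (β : ℕ) (x y ε lam : ℝ) (n : ℕ) (a b g d : ℤ) : Prop :=
  (a ≠ 0 ∨ b ≠ 0) ∧ d ≠ 0 ∧ |(a : ℝ)| ≤ (β : ℝ) ^ (ε * n) ∧ |(b : ℝ)| ≤ (β : ℝ) ^ (ε * n) ∧
    |(d : ℝ)| ≤ (β : ℝ) ^ (ε * n) ∧ blocksAt β (fw x y a b g d) 0 n ⌈lam * n⌉₊ ≤ n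

/-- the vectors which come from simple forms -/
def V (β : ℕ) (x y ε lam T : ℝ) (n : ℕ) (v : Fin 3 → ℤ) : Prop :=
  v ≠ 0 ∧ (ht v : ℝ) ≤ (2 * T + 1) * (β : ℝ) ^ ((1 + ε) * n) ∧
    |LL x y v| ≤ (β : ℝ) ^ (-((lam - 1 - ε) * n))

theorem Simple2.vec {β : ℕ} (hβ : 2 ≤ β) {x y ε lam T : ℝ} (hT0 : 0 ≤ T) (hx : |x| ≤ T)
    (hy : |y| ≤ T) (hε : 0 ≤ ε) (hl : 2 + ε ≤ lam) {n : ℕ} {a b g d : ℤ}
    (h : Simple2 β x y ε lam n a b g d) :
    ∃ v D, 0 < D ∧ v 1 = D * a ∧ v 2 = D * b ∧ V β x y ε lam T n v := by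
  obtain ⟨hab, hd, ha, hb, hdH, h⟩ := h
  have hn0 : (0 : ℝ) ≤ n := by positivity
  have hL : lam * n ≤ ⌈lam * n⌉₊ := Nat.le_ceil _
  have h2n : 2 * n ≤ ⌈lam * n⌉₊ := by
    have : ((2 * n : ℕ) : ℝ) ≤ ⌈lam * n⌉₊ := by
      push_cast
      nlinarith
    exact_mod_cast this
  obtain ⟨D, m, h1, h2, h3⟩ := (rep_of_few β _ 0 n _ h2n h).close hβ
  have hb0 : (0 : ℝ) < β := by exact_mod_cast (by omega : 0 < β)
  have hb1 : (1 : ℝ) ≤ β := by exact_mod_cast (by omega : 1 ≤ β)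
  have hDR : (0 : ℝ) < D := by exact_mod_cast h1
  have hdR : (d : ℝ) ≠ 0 := by exact_mod_cast hd
  have h4 : |fw x y a b g d * D - m| ≤ (β : ℝ) ^ (-((lam - 1) * n)) := by
    rw [pow_zero, mul_one] at h3
    rw [Real.rpow_neg hb0.le, ← one_div, le_div_iff₀ (by positivity)]
    refine le_trans ?_ h3.le
    apply mul_le_mul_of_nonneg_left _ (abs_nonneg _)
    rw [← Real.rpow_natCast]
    apply Real.rpow_le_rpow_of_exponent_le hb1
    rw [Nat.cast_sub (by omega)]
    linarith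
  set H : ℝ := (β : ℝ) ^ (ε * n) with hH
  set N : ℝ := (β : ℝ) ^ n with hN
  have hH1 : 1 ≤ H := Real.one_le_rpow hb1 (by positivity)
  have hN1 : 1 ≤ N := one_le_pow₀ hb1
  have hHN : (β : ℝ) ^ ((1 + ε) * n) = N * H := by
    rw [hN, hH, ← Real.rpow_natCast, ← Real.rpow_add hb0]
    congr 1; ring
  have hLL : LL x y ![D * g - d * m, D * a, D * b] = d * (fw x y a b g d * D - m) := by
    unfold LL fw
    simp only [Matrix.cons_val_zero, Matrix.cons_val_one, Matrix.cons_val]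
    push_cast
    field_simp
    ring
  have hLLb : |LL x y ![D * g - d * m, D * a, D * b]| ≤ (β : ℝ) ^ (-((lam - 1 - ε) * n)) := by
    rw [hLL, abs_mul]
    calc |(d : ℝ)| * |fw x y a b g d * D - m| ≤ H * (β : ℝ) ^ (-((lam - 1) * n)) :=
          mul_le_mul hdH h4 (abs_nonneg _) (by positivity)
      _ = _ := by
          rw [hH, ← Real.rpow_add hb0]
          congr 1; ring
  have hsmall : (β : ℝ) ^ (-((lam - 1 - ε) * n)) ≤ 1 := by
    apply Real.rpow_le_one_of_one_le_of_nonpos hb1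
    nlinarith
  have hDa : |(D : ℝ) * a| ≤ N * H := by
    rw [abs_mul, abs_of_pos hDR]
    exact mul_le_mul h2 ha (abs_nonneg _) (by positivity)
  have hDb : |(D : ℝ) * b| ≤ N * H := by
    rw [abs_mul, abs_of_pos hDR]
    exact mul_le_mul h2 hb (abs_nonneg _) (by positivity)
  have hNH : 1 ≤ N * H := by nlinarith
  refine ⟨![D * g - d * m, D * a, D * b], D, h1, by simp, by simp, ?_, ?_, hLLb⟩
  · intro h0
    have e1 := congrFun h0 1
    have e2 := congrFun h0 2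
    simp only [Matrix.cons_val_one, Matrix.cons_val_zero, Pi.zero_apply, Matrix.cons_val,
      mul_eq_zero] at e1 e2
    rcases hab with hab | hab
    · exact hab (e1.resolve_left h1.ne')
    · exact hab (e2.resolve_left h1.ne')
  · rw [hHN]
    apply ht_le_real
    intro i
    fin_cases i
    · simp only [Fin.zero_eta, Matrix.cons_val_zero]
      have e : ((D * g - d * m : ℤ) : ℝ) = LL x y ![D * g - d * m, D * a, D * b] -
          D * a * x - D * b * y := by
        unfold LL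
        simp only [Matrix.cons_val_zero, Matrix.cons_val_one, Matrix.cons_val]
        push_cast
        ring
      rw [e]
      have e1 := abs_sub (LL x y ![D * g - d * m, D * a, D * b] - D * a * x) (D * b * y)
      have e2 := abs_sub (LL x y ![D * g - d * m, D * a, D * b]) (D * a * x)
      have e3 : |(D : ℝ) * a * x| ≤ N * H * T := by
        rw [abs_mul]; exact mul_le_mul hDa hx (abs_nonneg _) (by positivity)
      have e4 : |(D : ℝ) * b * y| ≤ N * H * T := by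
        rw [abs_mul]; exact mul_le_mul hDb hy (abs_nonneg _) (by positivity)
      nlinarith
    · simp only [Fin.mk_one, Matrix.cons_val_one, Matrix.cons_val_zero]
      push_cast
      nlinarith
    · simp only [Fin.reduceFinMk, Matrix.cons_val]
      push_cast
      nlinarith

theorem par_of_nr {u v : Fin 3 → ℤ} (h : nr u v = 0) : Par u v := by
  have h0 := congrFun h 0
  have h1 := congrFun h 1
  have h2 := congrFun h 2
  simp only [nr, Matrix.cons_val_zero, Matrix.cons_val_one, Matrix.cons_val, Pi.zero_apply]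
    at h0 h1 h2
  intro i j
  fin_cases i <;> fin_cases j <;>
    simp only [Fin.zero_eta, Fin.mk_one, Fin.reduceFinMk] <;> linarith

/-- **Vectors of the same or of consecutive scales are parallel.** -/
theorem pair_next (w c T ε lam : ℝ) (hw : 0 ≤ w) (hc : 0 < c) (hT0 : 0 ≤ T) (hε : 0 ≤ ε)
    (hl : (1 + ε) * (2 * w + 2) < lam) : ∃ n₀ : ℕ, ∀ n, n₀ ≤ n → ∀ β : ℕ, 2 ≤ β → ∀ x y : ℝ,
      MM w c x y → ∀ n', n ≤ n' → n' ≤ n + 1 → ∀ u v : Fin 3 → ℤ, V β x y ε lam T n u →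
        V β x y ε lam T n' v → Par u v := by
  set γ : ℝ := lam - (1 + ε) * (2 * w + 2) with hγ
  have hγ0 : 0 < γ := by linarith
  set A : ℝ := (1 + ε) * (2 * w + 1) with hA
  have hA0 : 0 < A := by positivity
  set Z : ℝ := 4 * (2 * T + 1) ^ (2 * w + 1) * 2 ^ w / c with hZ
  obtain ⟨E, hE⟩ := pow_unbounded_of_one_lt Z (by norm_num : (1 : ℝ) < 2)
  obtain ⟨n₀, hn₀⟩ := exists_nat_gt ((A + E) / γ)
  refine ⟨n₀, fun n hn β hβ x y hm n' hn' hn'' u v hu hv => par_of_nr ?_⟩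
  by_contra hnr
  have hβ2 : (2 : ℝ) ≤ β := by exact_mod_cast hβ
  have hβ1 : (1 : ℝ) ≤ β := by linarith
  have hβ0 : (0 : ℝ) < β := by linarith
  have h1 := core hm u v hnr
  obtain ⟨hu0, hu1, hu2⟩ := hu
  obtain ⟨hv0, hv1, hv2⟩ := hv
  have hn0 : (0 : ℝ) ≤ n := by positivity
  have hnn' : (n : ℝ) ≤ n' := by exact_mod_cast hn'
  have hnn'' : (n' : ℝ) ≤ n + 1 := by exact_mod_cast hn''
  set G : ℝ := (2 * T + 1) * (β : ℝ) ^ ((1 + ε) * (n + 1)) with hG
  set δ : ℝ := (β : ℝ) ^ (-((lam - 1 - ε) * n)) with hδ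
  have hG0 : 0 < G := by positivity
  have hδ0 : 0 < δ := by positivity
  have hl1 : 0 ≤ lam - 1 - ε := by nlinarith
  have hu1' : (ht u : ℝ) ≤ G := by
    refine hu1.trans ?_
    apply mul_le_mul_of_nonneg_left _ (by positivity)
    apply Real.rpow_le_rpow_of_exponent_le hβ1
    nlinarith
  have hv1' : (ht v : ℝ) ≤ G := by
    refine hv1.trans ?_
    apply mul_le_mul_of_nonneg_left _ (by positivity)
    apply Real.rpow_le_rpow_of_exponent_le hβ1
    nlinarith
  have hv2' : |LL x y v| ≤ δ := by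
    refine hv2.trans ?_
    apply Real.rpow_le_rpow_of_exponent_le hβ1
    nlinarith
  have hpu : (1 : ℝ) ≤ ht u := by exact_mod_cast ht_pos hu0
  have hpv : (1 : ℝ) ≤ ht v := by exact_mod_cast ht_pos hv0
  have h2 : 2 * (ht v * |LL x y u| + ht u * |LL x y v|) ≤ 4 * G * δ := by
    have e1 : (ht v : ℝ) * |LL x y u| ≤ G * δ := mul_le_mul hv1' hu2 (abs_nonneg _) hG0.le
    have e2 : (ht u : ℝ) * |LL x y v| ≤ G * δ := mul_le_mul hu1' hv2' (abs_nonneg _) hG0.le
    linarith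
  have h3 : (2 * (G * G)) ^ (-w) ≤ (2 * (ht u * ht v : ℝ)) ^ (-w) := by
    apply Real.rpow_le_rpow_of_nonpos (by positivity) _ (by linarith)
    have : (ht u : ℝ) * ht v ≤ G * G := mul_le_mul hu1' hv1' (by positivity) hG0.le
    linarith
  have h4 : c * (2 * (G * G)) ^ (-w) ≤ 4 * G * δ :=
    (mul_le_mul_of_nonneg_left h3 hc.le).trans (h1.trans h2)
  have e1 : (2 * (G * G)) ^ (-w) = (2 ^ w)⁻¹ * (G ^ (2 * w))⁻¹ := by
    rw [Real.mul_rpow (by norm_num) (by positivity), Real.rpow_neg (by norm_num),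
      ← sq, ← Real.rpow_natCast G 2, ← Real.rpow_mul hG0.le, ← Real.rpow_neg hG0.le]
    congr 2
    push_cast
    ring
  rw [e1] at h4
  have h5 : c ≤ 4 * 2 ^ w * (G ^ (2 * w + 1) * δ) := by
    have hGw : 0 < G ^ (2 * w) := by positivity
    have h2w : (0 : ℝ) < 2 ^ w := by positivity
    have h6 := mul_le_mul_of_nonneg_right h4 (by positivity : 0 ≤ 2 ^ w * G ^ (2 * w))
    have e2 : c * ((2 ^ w)⁻¹ * (G ^ (2 * w))⁻¹) * (2 ^ w * G ^ (2 * w)) = c := by field_simp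
    rw [e2] at h6
    refine h6.trans (le_of_eq ?_)
    rw [Real.rpow_add hG0, Real.rpow_one]
    ring
  have e3 : G ^ (2 * w + 1) * δ = (2 * T + 1) ^ (2 * w + 1) * (β : ℝ) ^ (A - γ * n) := by
    rw [hG, Real.mul_rpow (by positivity) (by positivity), ← Real.rpow_mul hβ0.le, hδ, mul_assoc,
      ← Real.rpow_add hβ0]
    congr 2
    rw [hA, hγ]
    ring
  rw [e3] at h5
  have h7 : (β : ℝ) ^ (A - γ * n) ≤ (2 ^ E)⁻¹ := by
    have h8 : A - γ * n ≤ -(E : ℝ) := by
      have k1 : A + E < n₀ * γ := by rwa [div_lt_iff₀ hγ0] at hn₀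
      have k2 : γ * n₀ ≤ γ * n := mul_le_mul_of_nonneg_left (by exact_mod_cast hn) hγ0.le
      have k3 : (n₀ : ℝ) * γ = γ * n₀ := mul_comm _ _
      linarith only [k1, k2, k3]
    calc (β : ℝ) ^ (A - γ * n) ≤ (β : ℝ) ^ (-(E : ℝ)) :=
          Real.rpow_le_rpow_of_exponent_le hβ1 h8
      _ ≤ (2 : ℝ) ^ (-(E : ℝ)) := by
          apply Real.rpow_le_rpow_of_nonpos (by norm_num) hβ2
          have : (0 : ℝ) ≤ E := by positivity
          linarith
      _ = (2 ^ E)⁻¹ := by rw [Real.rpow_neg (by norm_num), Real.rpow_natCast]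
  have h9 : c ≤ 4 * 2 ^ w * ((2 * T + 1) ^ (2 * w + 1) * (2 ^ E)⁻¹) := by
    refine h5.trans ?_
    gcongr
  rw [hZ, div_lt_iff₀ hc] at hE
  have h10 : c * 2 ^ E ≤ 4 * 2 ^ w * (2 * T + 1) ^ (2 * w + 1) := by
    have h11 : (0 : ℝ) < 2 ^ E := by positivity
    calc c * 2 ^ E ≤ 4 * 2 ^ w * ((2 * T + 1) ^ (2 * w + 1) * (2 ^ E)⁻¹) * 2 ^ E :=
          mul_le_mul_of_nonneg_right h9 h11.le
      _ = _ := by field_simp
  linarith

/-- simple forms of one scale have proportional coefficients -/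
theorem pair_unique (w c T ε lam : ℝ) (hw : 0 ≤ w) (hc : 0 < c) (hT0 : 0 ≤ T) (hε : 0 ≤ ε)
    (hl : (1 + ε) * (2 * w + 2) < lam) : ∃ n₀ : ℕ, ∀ n, n₀ ≤ n → ∀ β : ℕ, 2 ≤ β → ∀ x y : ℝ,
      |x| ≤ T → |y| ≤ T → MM w c x y → ∀ a b g d a' b' g' d' : ℤ, Simple2 β x y ε lam n a b g d →
        Simple2 β x y ε lam n a' b' g' d' → a * b' = a' * b := by
  obtain ⟨n₀, h⟩ := pair_next w c T ε lam hw hc hT0 hε hl
  refine ⟨n₀, fun n hn β hβ x y hx hy hm a b g d a' b' g' d' h1 h2 => ?_⟩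
  have hl2 : 2 + ε ≤ lam := by nlinarith
  obtain ⟨u, D, hD, hu1, hu2, hu⟩ := h1.vec hβ hT0 hx hy hε hl2
  obtain ⟨v, D', hD', hv1, hv2, hv⟩ := h2.vec hβ hT0 hx hy hε hl2
  have hp := h n hn β hβ x y hm n le_rfl (by omega) u v hu hv 1 2
  rw [hu1, hu2, hv1, hv2] at hp
  have : D * D' * (a * b' - a' * b) = 0 := by linear_combination hp
  rcases mul_eq_zero.1 this with h3 | h3
  · exact absurd h3 (mul_ne_zero hD.ne' hD'.ne')
  · linarith

/-- **The criterion.** -/
theorem pair_criterion (w c ε lam : ℝ) (hw : 0 ≤ w) (hc : 0 < c) (hε : 0 < ε)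
    (hl : (1 + ε) * (2 * w + 2) < lam) (β : ℕ) (hβ : 2 ≤ β) (x y : ℝ) (hm : MM w c x y) :
    (∃ a b g : ℤ, (a ≠ 0 ∨ b ≠ 0) ∧ a * x + b * y + g = 0) ↔
      ∀ᶠ n : ℕ in atTop, ∃ a b g d : ℤ, Simple2 β x y ε lam n a b g d := by
  set B : ℝ := (β : ℝ) with hB
  have hB1 : 1 < B := by rw [hB]; exact_mod_cast (by omega : 1 < β)
  have hB0 : 0 < B := by linarith
  constructor
  · rintro ⟨a, b, g, hab, h0⟩
    have hlim : Tendsto (fun n : ℕ => B ^ (ε * n)) atTop atTop := by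
      have e : ∀ n : ℕ, B ^ (ε * n) = (B ^ ε) ^ n := by
        intro n
        rw [← Real.rpow_natCast, ← Real.rpow_mul hB0.le]
      simp_rw [e]
      exact tendsto_pow_atTop_atTop_of_one_lt (Real.one_lt_rpow hB1 hε)
    filter_upwards [hlim.eventually_ge_atTop (max (max |(a : ℝ)| |(b : ℝ)|) 1),
      eventually_ge_atTop 1] with n hn hn1
    refine ⟨a, b, g, 1, hab, one_ne_zero, ?_, ?_, ?_, ?_⟩
    · exact le_trans (le_trans (le_max_left _ _) (le_max_left _ _)) hn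
    · exact le_trans (le_trans (le_max_right _ _) (le_max_left _ _)) hn
    · rw [Int.cast_one, abs_one]
      exact le_trans (le_max_right _ _) hn
    · have e : fw x y a b g 1 = 0 := by
        unfold fw
        rw [h0, zero_div]
      rw [e]
      unfold blocksAt
      refine le_trans ?_ hn1
      rw [Finset.card_le_one]
      intro f hf g hg
      rw [Finset.mem_image] at hf hg
      obtain ⟨i, _, rfl⟩ := hf
      obtain ⟨j, _, rfl⟩ := hg
      funext k
      simp [digit]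
  · intro h
    set T : ℝ := max |x| |y| with hT
    have hT0 : 0 ≤ T := le_trans (abs_nonneg x) (le_max_left _ _)
    have hl2 : 2 + ε ≤ lam := by nlinarith
    obtain ⟨n₀, hn₀⟩ := pair_next w c T ε lam hw hc hT0 hε.le hl
    obtain ⟨n₁, hn₁⟩ := eventually_atTop.1 (h.and (eventually_ge_atTop n₀))
    have hex : ∀ n, ∃ v : Fin 3 → ℤ, n₁ ≤ n → V β x y ε lam T n v ∧ (v 1 ≠ 0 ∨ v 2 ≠ 0) := by
      intro n
      by_cases hn : n₁ ≤ n
      · obtain ⟨a, b, g, d, hs⟩ := (hn₁ n hn).1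
        obtain ⟨v, D, hD, h1, h2, hv⟩ := hs.vec hβ hT0 (le_max_left _ _) (le_max_right _ _) hε.le hl2
        refine ⟨v, fun _ => ⟨hv, ?_⟩⟩
        rw [h1, h2]
        rcases hs.1 with h3 | h3
        · exact Or.inl (mul_ne_zero hD.ne' h3)
        · exact Or.inr (mul_ne_zero hD.ne' h3)
      · exact ⟨0, fun h => absurd h hn⟩
    choose v hv using hex
    have hpar : ∀ n, n₁ ≤ n → Par (v n₁) (v n) := by
      intro n hn
      induction n, hn using Nat.le_induction with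
      | base => exact Par.refl _
      | succ n hn ih =>
        refine ih.trans ?_ (hv n hn).1.1
        exact hn₀ n (hn₁ n hn).2 β hβ x y hm (n + 1) (by omega) le_rfl _ _ (hv n hn).1
          (hv (n + 1) (by omega)).1
    have hzero : LL x y (v n₁) = 0 := by
      have hlim2 := (lim B (lam - 1 - ε) 0 1 hB1 (by linarith)).const_mul (ht (v n₁) : ℝ)
      rw [mul_zero] at hlim2
      have hle : ∀ᶠ n : ℕ in atTop, |LL x y (v n₁)| ≤
          ht (v n₁) * ((1 + 0 * (n : ℝ)) * B ^ (-((lam - 1 - ε) * n))) := by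
        filter_upwards [eventually_ge_atTop n₁] with n hn
        obtain ⟨⟨hv0, -, hvL⟩, -⟩ := hv n hn
        have hp := hpar n hn
        obtain ⟨i, hi⟩ : ∃ i, v n i ≠ 0 := by
          by_contra hcon
          push Not at hcon
          exact hv0 (funext hcon)
        have e : (v n i : ℝ) * LL x y (v n₁) = v n₁ i * LL x y (v n) := by
          have q0 : (v n₁ 0 : ℝ) * v n i = v n₁ i * v n 0 := by exact_mod_cast hp 0 i
          have q1 : (v n₁ 1 : ℝ) * v n i = v n₁ i * v n 1 := by exact_mod_cast hp 1 i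
          have q2 : (v n₁ 2 : ℝ) * v n i = v n₁ i * v n 2 := by exact_mod_cast hp 2 i
          unfold LL
          linear_combination q0 + x * q1 + y * q2
        have h1 : (1 : ℝ) ≤ |(v n i : ℝ)| := by
          have : (1 : ℤ) ≤ |v n i| := Int.one_le_abs hi
          exact_mod_cast this
        have h2 : |(v n i : ℝ)| * |LL x y (v n₁)| = |(v n₁ i : ℝ)| * |LL x y (v n)| := by
          rw [← abs_mul, ← abs_mul, e]
        have h3 : |LL x y (v n₁)| ≤ |(v n i : ℝ)| * |LL x y (v n₁)| := by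
          have := abs_nonneg (LL x y (v n₁))
          nlinarith
        rw [h2] at h3
        refine h3.trans ?_
        rw [zero_mul, add_zero, one_mul]
        exact mul_le_mul (abs_le_ht _ _) hvL (abs_nonneg _) (by positivity)
      have h1 := ge_of_tendsto hlim2 hle
      exact abs_eq_zero.1 (le_antisymm h1 (abs_nonneg _))
    refine ⟨v n₁ 1, v n₁ 2, v n₁ 0, (hv n₁ le_rfl).2, ?_⟩
    unfold LL at hzero
    linarith

end Pool.Agent.Q199.Dg
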