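import Pool.Agent.Q199.Dg.Sim
import Pool.Agent.Q199.Dg.Dir
import Mathlib
set_option autoImplicit false

/-!
# Blocks of digits of the numbers `(P(e) t + Q(e)) / R(e)`
-/

namespace Pool.Agent.Q199.Dg

open Real Polynomial Filter

/-- the value -/
noncomputable def mv (t : ℝ) (P Q R : ℤ[X]) : ℝ :=
  (aeval (exp 1) P * t + aeval (exp 1) Q) / aeval (exp 1) R

/-- the family of triples -/
def Fam (d : ℕ) (H t : ℝ) (P Q R : ℤ[X]) : Prop :=
  P ≠ 0 ∧ R ≠ 0 ∧ P.natDegree ≤ d ∧ Q.natDegree ≤ d ∧ R.natDegree ≤ d ∧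
    (∀ i, |(P.coeff i : ℝ)| ≤ H) ∧ (∀ i, |(Q.coeff i : ℝ)| ≤ H) ∧ (∀ i, |(R.coeff i : ℝ)| ≤ H) ∧
    |mv t P Q R| ≤ H

theorem coeff_mul_bd (d : ℕ) (A B : ℤ[X]) (hA : A.natDegree ≤ d) (H H' : ℝ) (hH : 0 ≤ H)
    (hH' : 0 ≤ H') (a : ∀ i, |(A.coeff i : ℝ)| ≤ H) (b : ∀ i, |(B.coeff i : ℝ)| ≤ H') (i : ℕ) :
    |((A * B).coeff i : ℝ)| ≤ (d + 1) * (H * H') := by
  have e : ((A * B).coeff i : ℝ) = ∑ j ∈ Finset.range (d + 1), (A.coeff j : ℝ) *
      (if j ≤ i then (B.coeff (i - j) : ℝ) else 0) := by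
    nth_rw 1 [A.as_sum_range' (d + 1) (by omega)]
    rw [Finset.sum_mul, finsetSum_coeff]
    push_cast
    refine Finset.sum_congr rfl fun j _ => ?_
    rw [← C_mul_X_pow_eq_monomial, mul_assoc, coeff_C_mul, coeff_X_pow_mul']
    split_ifs with h
    · push_cast; rfl
    · push_cast; rfl
  rw [e]
  calc |∑ j ∈ Finset.range (d + 1), (A.coeff j : ℝ) * (if j ≤ i then (B.coeff (i - j) : ℝ) else 0)|
      ≤ ∑ j ∈ Finset.range (d + 1), |(A.coeff j : ℝ) * (if j ≤ i then (B.coeff (i - j) : ℝ) else 0)| :=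
        Finset.abs_sum_le_sum_abs _ _
    _ ≤ ∑ _j ∈ Finset.range (d + 1), H * H' := Finset.sum_le_sum fun j _ => by
        rw [abs_mul]
        apply mul_le_mul (a j) _ (abs_nonneg _) hH
        split_ifs
        · exact b _
        · rw [abs_zero]; exact hH'
    _ = _ := by
        rw [Finset.sum_const, Finset.card_range, nsmul_eq_mul]
        push_cast
        ring

theorem aeval_bd (d : ℕ) (R : ℤ[X]) (hR : R.natDegree ≤ d) (H : ℝ)
    (h : ∀ i, |(R.coeff i : ℝ)| ≤ H) : |aeval (exp 1) R| ≤ (d + 1) * 3 ^ d * H := by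
  have hH : 0 ≤ H := (abs_nonneg _).trans (h 0)
  have he0 := Real.exp_pos 1
  have he3 : exp 1 ≤ 3 := by linarith [Real.exp_one_lt_d9]
  rw [aeval_eq_sum_range' (show R.natDegree < d + 1 by omega)]
  calc |∑ i ∈ Finset.range (d + 1), R.coeff i • exp 1 ^ i| ≤
        ∑ i ∈ Finset.range (d + 1), |R.coeff i • exp 1 ^ i| := Finset.abs_sum_le_sum_abs _ _
    _ ≤ ∑ _i ∈ Finset.range (d + 1), H * 3 ^ d := Finset.sum_le_sum fun i hi => by
        rw [zsmul_eq_mul, abs_mul, abs_of_pos (by positivity : 0 < exp 1 ^ i)]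
        apply mul_le_mul (h i) _ (by positivity) hH
        calc exp 1 ^ i ≤ 3 ^ i := pow_le_pow_left₀ he0.le he3 i
          _ ≤ 3 ^ d := pow_le_pow_right₀ (by norm_num) (by
              rw [Finset.mem_range] at hi; omega)
    _ = _ := by
        rw [Finset.sum_const, Finset.card_range, nsmul_eq_mul]
        push_cast
        ring

/-- the auxiliary polynomial -/
noncomputable def FF (P Q R P' Q' R' : ℤ[X]) (B D m D' m' : ℤ) : ℤ[X] :=
  C (D' * m) * (P' * R) - C (D * m') * (P * R') + C (B * D * D') * (P * Q' - P' * Q)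

theorem aeval_ne (R : ℤ[X]) (hR : R ≠ 0) : aeval (exp 1) R ≠ 0 := by
  obtain ⟨c, hc, h⟩ := Pool.Agent.W472.AC.e_measP R.natDegree 1 one_pos
  obtain ⟨B, hB0, hB⟩ := coeff_bd R
  intro h0
  have h1 := h R hR le_rfl (B + 1) (by linarith) (fun j => (hB j).trans (by linarith))
  rw [h0, abs_zero, mul_zero] at h1
  linarith

theorem rat_core (d : ℕ) (η : ℝ) (hη : 0 < η) : ∃ c : ℝ, 0 < c ∧ ∀ (t H N δ : ℝ) (B : ℤ),
    1 ≤ H → 0 < B → 1 ≤ N → δ ≤ 1 → ∀ P Q R P' Q' R' : ℤ[X], Fam d H t P Q R →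
      Fam d H t P' Q' R' → ∀ D m D' m' : ℤ, 0 < D → 0 < D' → (D : ℝ) ≤ N → (D' : ℝ) ≤ N →
      |mv t P Q R * B * D - m| ≤ δ → |mv t P' Q' R' * B * D' - m'| ≤ δ →
      FF P Q R P' Q' R' B D m D' m' ≠ 0 →
      c ≤ (B * N ^ 2 * H ^ 3) ^ (2 * d + η) * (N * H ^ 2 * δ) := by
  obtain ⟨c0, hc0, hmeas⟩ := Pool.Agent.W472.AC.e_measP (2 * d) η hη
  set K1 : ℝ := (6 * (d + 1)) with hK1
  have hK10 : 0 < K1 := by positivity
  have hK11 : 1 ≤ K1 := by
    have : (0 : ℝ) ≤ d := by positivity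
    rw [hK1]; linarith
  set K2 : ℝ := (d + 1) * 3 ^ d with hK2
  have hK20 : 0 < K2 := by positivity
  have hd0 : (0 : ℝ) ≤ d := by positivity
  refine ⟨c0 / (K1 ^ (2 * (d : ℝ) + η) * (2 * K2 ^ 2)), by positivity, ?_⟩
  intro t H N δ B hH hB hN hδ1 P Q R P' Q' R' hP hP' D m D' m' hD hD' hDN hDN' hm hm' hF
  obtain ⟨a1, a2, a3, a4, a5, a6, a7, a8, a9⟩ := hP
  obtain ⟨b1, b2, b3, b4, b5, b6, b7, b8, b9⟩ := hP'
  have hδ0 : 0 ≤ δ := (abs_nonneg _).trans hm
  have hBR : (1 : ℝ) ≤ B := by exact_mod_cast hB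
  have hDR : (0 : ℝ) < D := by exact_mod_cast hD
  have hDR' : (0 : ℝ) < D' := by exact_mod_cast hD'
  have hBNH : 1 ≤ (B : ℝ) * N * H := by
    have : 1 ≤ (B : ℝ) * N := by nlinarith
    nlinarith
  have hmb : |(m : ℝ)| ≤ 2 * (B * N * H) := by
    have e : (m : ℝ) = mv t P Q R * B * D - (mv t P Q R * B * D - m) := by ring
    rw [e]
    have e1 : |mv t P Q R * B * D| ≤ H * B * N := by
      rw [abs_mul, abs_mul, abs_of_pos hDR, abs_of_pos (by linarith : (0 : ℝ) < B)]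
      gcongr
    have e2 := abs_sub (mv t P Q R * B * D) (mv t P Q R * B * D - m)
    nlinarith
  have hmb' : |(m' : ℝ)| ≤ 2 * (B * N * H) := by
    have e : (m' : ℝ) = mv t P' Q' R' * B * D' - (mv t P' Q' R' * B * D' - m') := by ring
    rw [e]
    have e1 : |mv t P' Q' R' * B * D'| ≤ H * B * N := by
      rw [abs_mul, abs_mul, abs_of_pos hDR', abs_of_pos (by linarith : (0 : ℝ) < B)]
      gcongr
    have e2 := abs_sub (mv t P' Q' R' * B * D') (mv t P' Q' R' * B * D' - m')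
    nlinarith
  set F := FF P Q R P' Q' R' B D m D' m' with hFdef
  have hdeg : F.natDegree ≤ 2 * d := by
    rw [hFdef]
    unfold FF
    have l1 : (P' * R).natDegree ≤ 2 * d := natDegree_mul_le.trans (by omega)
    have l2 : (P * R').natDegree ≤ 2 * d := natDegree_mul_le.trans (by omega)
    have l3 : (P * Q' - P' * Q).natDegree ≤ 2 * d :=
      (natDegree_sub_le _ _).trans (max_le (natDegree_mul_le.trans (by omega))
        (natDegree_mul_le.trans (by omega)))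
    refine (natDegree_add_le _ _).trans (max_le ((natDegree_sub_le _ _).trans (max_le ?_ ?_)) ?_)
    · exact (natDegree_C_mul_le _ _).trans l1
    · exact (natDegree_C_mul_le _ _).trans l2
    · exact (natDegree_C_mul_le _ _).trans l3
  have hH0 : 0 ≤ H := by linarith
  have hcoef : ∀ j, |(F.coeff j : ℝ)| ≤ K1 * (B * N ^ 2 * H ^ 3) := by
    intro j
    have k1 := coeff_mul_bd d P' R b3 H H hH0 hH0 b6 a8 j
    have k2 := coeff_mul_bd d P R' a3 H H hH0 hH0 a6 b8 j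
    have k3 := coeff_mul_bd d P Q' a3 H H hH0 hH0 a6 b7 j
    have k4 := coeff_mul_bd d P' Q b3 H H hH0 hH0 b6 a7 j
    have e : (F.coeff j : ℝ) = D' * m * ((P' * R).coeff j : ℝ) - D * m' * ((P * R').coeff j : ℝ) +
        B * D * D' * (((P * Q').coeff j : ℝ) - ((P' * Q).coeff j : ℝ)) := by
      rw [hFdef]
      unfold FF
      rw [coeff_add, coeff_sub, coeff_C_mul, coeff_C_mul, coeff_C_mul, coeff_sub]
      push_cast
      ring
    rw [e]
    have hDm : |(D' : ℝ) * m| ≤ N * (2 * (B * N * H)) := by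
      rw [abs_mul, abs_of_pos hDR']
      exact mul_le_mul hDN' hmb (abs_nonneg _) (by linarith)
    have hDm' : |(D : ℝ) * m'| ≤ N * (2 * (B * N * H)) := by
      rw [abs_mul, abs_of_pos hDR]
      exact mul_le_mul hDN hmb' (abs_nonneg _) (by linarith)
    have hDD : |(B : ℝ) * D * D'| ≤ B * N * N := by
      rw [abs_of_pos (by positivity)]
      gcongr
    have t1 : |(D' : ℝ) * m * ((P' * R).coeff j : ℝ)| ≤
        N * (2 * (B * N * H)) * ((d + 1) * (H * H)) := by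
      rw [abs_mul]
      exact mul_le_mul hDm k1 (abs_nonneg _) (by positivity)
    have t2 : |(D : ℝ) * m' * ((P * R').coeff j : ℝ)| ≤
        N * (2 * (B * N * H)) * ((d + 1) * (H * H)) := by
      rw [abs_mul]
      exact mul_le_mul hDm' k2 (abs_nonneg _) (by positivity)
    have t3 : |(B : ℝ) * D * D' * (((P * Q').coeff j : ℝ) - ((P' * Q).coeff j : ℝ))| ≤
        B * N * N * (2 * ((d + 1) * (H * H))) := by
      rw [abs_mul]
      apply mul_le_mul hDD _ (abs_nonneg _) (by positivity)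
      have := abs_sub ((P * Q').coeff j : ℝ) ((P' * Q).coeff j : ℝ)
      linarith
    have t4 := abs_add_le ((D' : ℝ) * m * ((P' * R).coeff j : ℝ) - D * m' * ((P * R').coeff j : ℝ))
      (B * D * D' * (((P * Q').coeff j : ℝ) - ((P' * Q).coeff j : ℝ)))
    have t5 := abs_sub ((D' : ℝ) * m * ((P' * R).coeff j : ℝ)) (D * m' * ((P * R').coeff j : ℝ))
    have t6 : B * N * N * (2 * ((d + 1) * (H * H))) ≤ B * N * N * (2 * ((d + 1) * (H * H))) * H := by
      apply le_mul_of_one_le_right (by positivity) hH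
    calc _ ≤ N * (2 * (B * N * H)) * ((d + 1) * (H * H)) + N * (2 * (B * N * H)) *
          ((d + 1) * (H * H)) + B * N * N * (2 * ((d + 1) * (H * H))) * H := by linarith
      _ = K1 * (B * N ^ 2 * H ^ 3) := by rw [hK1]; ring
  have hX1 : 1 ≤ (B : ℝ) * N ^ 2 * H ^ 3 := by
    have u1 : (1 : ℝ) ≤ N ^ 2 := one_le_pow₀ hN
    have u2 : (1 : ℝ) ≤ H ^ 3 := one_le_pow₀ hH
    have u3 : 1 ≤ (B : ℝ) * N ^ 2 := by nlinarith
    nlinarith
  set X := (B : ℝ) * N ^ 2 * H ^ 3 with hX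
  have key := hmeas F hF hdeg (K1 * X) (by nlinarith) hcoef
  have hR0 := aeval_ne R a2
  have hR0' := aeval_ne R' b2
  have hval : aeval (exp 1) R * mv t P Q R = aeval (exp 1) P * t + aeval (exp 1) Q := by
    unfold mv; field_simp
  have hval' : aeval (exp 1) R' * mv t P' Q' R' = aeval (exp 1) P' * t + aeval (exp 1) Q' := by
    unfold mv; field_simp
  have hFe : aeval (exp 1) F = -(D' * (aeval (exp 1) P' * aeval (exp 1) R) *
      (mv t P Q R * B * D - m)) + D * (aeval (exp 1) P * aeval (exp 1) R') *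
      (mv t P' Q' R' * B * D' - m') := by
    rw [hFdef]
    unfold FF
    simp only [map_add, map_sub, map_mul, aeval_C]
    simp only [eq_intCast]
    linear_combination (-(B : ℝ) * D * D' * aeval (exp 1) P) * hval' +
      (B * D * D' * aeval (exp 1) P') * hval
  have hFb : |aeval (exp 1) F| ≤ 2 * K2 ^ 2 * (N * H ^ 2 * δ) := by
    rw [hFe]
    have p1 := aeval_bd d P' b3 H b6
    have p2 := aeval_bd d R a5 H a8
    have p3 := aeval_bd d P a3 H a6
    have p4 := aeval_bd d R' b5 H b8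
    rw [← hK2] at p1 p2 p3 p4
    have q1 : |D' * (aeval (exp 1) P' * aeval (exp 1) R) * (mv t P Q R * B * D - m)| ≤
        N * ((K2 * H) * (K2 * H)) * δ := by
      rw [abs_mul, abs_mul, abs_mul, abs_of_pos hDR']
      gcongr
    have q2 : |D * (aeval (exp 1) P * aeval (exp 1) R') * (mv t P' Q' R' * B * D' - m')| ≤
        N * ((K2 * H) * (K2 * H)) * δ := by
      rw [abs_mul, abs_mul, abs_mul, abs_of_pos hDR]
      gcongr
    refine (abs_add_le _ _).trans ?_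
    rw [abs_neg]
    calc _ ≤ N * ((K2 * H) * (K2 * H)) * δ + N * ((K2 * H) * (K2 * H)) * δ := add_le_add q1 q2
      _ = _ := by ring
  have hcast : ((2 * d : ℕ) : ℝ) + η = 2 * d + η := by push_cast; ring
  rw [hcast, Real.mul_rpow hK10.le (by linarith)] at key
  rw [div_le_iff₀ (by positivity)]
  calc c0 ≤ K1 ^ (2 * (d : ℝ) + η) * X ^ (2 * (d : ℝ) + η) * |aeval (exp 1) F| := key
    _ ≤ K1 ^ (2 * (d : ℝ) + η) * X ^ (2 * (d : ℝ) + η) * (2 * K2 ^ 2 * (N * H ^ 2 * δ)) := by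
        apply mul_le_mul_of_nonneg_left hFb (by positivity)
    _ = _ := by ring

/-- the relation between two triples with rational values -/
theorem FF_zero_rel (P Q R P' Q' R' : ℤ[X]) (B D m D' m' : ℤ)
    (h : FF P Q R P' Q' R' B D m D' m' = 0) :
    C (B * D') * (P' * (C m * R - C (B * D) * Q) + Q' * (C (B * D) * P)) =
      C m' * (R' * (C (B * D) * P)) := by
  unfold FF at h
  simp only [C_mul] at h ⊢
  linear_combination (C B) * h

/-- **One rational function for each scale.** -/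
theorem rat_one (d : ℕ) (η : ℝ) (hη : 0 < η) : ∃ K : ℝ, 1 ≤ K ∧ ∀ (t H : ℝ), 1 ≤ H →
    ∀ b : ℕ, 2 ≤ b → ∀ s n l : ℕ,
      K * (H ^ (6 * (d : ℝ) + 2 + 3 * η) * (b : ℝ) ^ ((4 * (d : ℝ) + 1 + 2 * η) * n +
        (2 * d + η) * s)) ≤ (b : ℝ) ^ l →
      ∃ U S : ℤ[X], S ≠ 0 ∧ ∀ P Q R : ℤ[X], Fam d H t P Q R → Rep b (mv t P Q R) s n l →
        ∃ p q : ℤ, 0 < q ∧ (q : ℝ) ≤ (b : ℝ) ^ (s + n) ∧
          |mv t P Q R * q - p| * (b : ℝ) ^ l < 1 ∧ C q * (P * U + Q * S) = C p * (R * S) := by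
  obtain ⟨c, hc, hcore⟩ := rat_core d η hη
  refine ⟨max 1 (2 / c), le_max_left _ _, ?_⟩
  intro t H hH b hb s n l hl
  have hb1 : (1 : ℝ) ≤ b := by exact_mod_cast (by omega : 1 ≤ b)
  have hb0 : (0 : ℝ) < b := by linarith
  have hbs : (0 : ℤ) < (b : ℤ) ^ s := by positivity
  have happ : ∀ P Q R : ℤ[X], Rep b (mv t P Q R) s n l → ∃ D m : ℤ, 0 < D ∧ (D : ℝ) ≤ (b : ℝ) ^ n ∧
      |mv t P Q R * ((b : ℤ) ^ s : ℤ) * D - m| * (b : ℝ) ^ l < 1 := by
    intro P Q R h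
    obtain ⟨D, m, h1, h2, h3⟩ := h.close hb
    refine ⟨D, m, h1, h2, ?_⟩
    push_cast
    exact h3
  by_cases hex : ∃ P Q R : ℤ[X], Fam d H t P Q R ∧ Rep b (mv t P Q R) s n l
  swap
  · push Not at hex
    exact ⟨0, 1, one_ne_zero, fun P Q R h1 h2 => absurd h2 (hex P Q R h1)⟩
  obtain ⟨P, Q, R, hF, hR⟩ := hex
  obtain ⟨D, m, hD, hDn, hm⟩ := happ P Q R hR
  refine ⟨C m * R - C ((b : ℤ) ^ s * D) * Q, C ((b : ℤ) ^ s * D) * P, ?_, ?_⟩
  · apply mul_ne_zero _ hF.1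
    rw [Ne, C_eq_zero]
    positivity
  · intro P' Q' R' hF' hR'
    obtain ⟨D', m', hD', hDn', hm'⟩ := happ P' Q' R' hR'
    have hzero : FF P Q R P' Q' R' ((b : ℤ) ^ s) D m D' m' = 0 := by
      by_contra hne
      have hbl : (0 : ℝ) < (b : ℝ) ^ l := by positivity
      have e1 : |mv t P Q R * ((b : ℤ) ^ s : ℤ) * D - m| ≤ 1 / (b : ℝ) ^ l := by
        rw [le_div_iff₀ hbl]; exact hm.le
      have e2 : |mv t P' Q' R' * ((b : ℤ) ^ s : ℤ) * D' - m'| ≤ 1 / (b : ℝ) ^ l := by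
        rw [le_div_iff₀ hbl]; exact hm'.le
      have key := hcore t H ((b : ℝ) ^ n) (1 / (b : ℝ) ^ l) ((b : ℤ) ^ s) hH hbs (one_le_pow₀ hb1)
        (by rw [div_le_one hbl]; exact one_le_pow₀ hb1) P Q R P' Q' R' hF hF' D m D' m' hD hD'
        hDn hDn' e1 e2 hne
      have hH0 : 0 < H := by linarith
      have e3 : ((((b : ℤ) ^ s : ℤ) : ℝ) * ((b : ℝ) ^ n) ^ 2 * H ^ 3) ^ (2 * (d : ℝ) + η) *
          ((b : ℝ) ^ n * H ^ 2 * (1 / (b : ℝ) ^ l)) =
          (H ^ (6 * (d : ℝ) + 2 + 3 * η) * (b : ℝ) ^ ((4 * (d : ℝ) + 1 + 2 * η) * n +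
            (2 * d + η) * s)) / (b : ℝ) ^ l := by
        have f1 : (((b : ℤ) ^ s : ℤ) : ℝ) * ((b : ℝ) ^ n) ^ 2 = (b : ℝ) ^ ((s : ℝ) + 2 * n) := by
          rw [Real.rpow_add hb0, Real.rpow_natCast, mul_comm (2 : ℝ), Real.rpow_mul hb0.le,
            Real.rpow_natCast]
          push_cast
          norm_num
        rw [f1, Real.mul_rpow (by positivity) (by positivity), ← Real.rpow_mul hb0.le,
          ← Real.rpow_natCast H 3, ← Real.rpow_mul hH0.le, ← Real.rpow_natCast (b : ℝ) n,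
          ← Real.rpow_natCast H 2]
        have f2 : H ^ (6 * (d : ℝ) + 2 + 3 * η) = H ^ (((3 : ℕ) : ℝ) * (2 * (d : ℝ) + η)) *
            H ^ ((2 : ℕ) : ℝ) := by
          rw [← Real.rpow_add hH0]; congr 1; push_cast; ring
        have f3 : (b : ℝ) ^ ((4 * (d : ℝ) + 1 + 2 * η) * n + (2 * d + η) * s) =
            (b : ℝ) ^ (((s : ℝ) + 2 * n) * (2 * (d : ℝ) + η)) * (b : ℝ) ^ (n : ℝ) := by
          rw [← Real.rpow_add hb0]; congr 1; ring
        rw [f2, f3]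
        ring
      rw [e3, le_div_iff₀ hbl] at key
      have h1 : 2 / c * (H ^ (6 * (d : ℝ) + 2 + 3 * η) * (b : ℝ) ^ ((4 * (d : ℝ) + 1 + 2 * η) * n +
            (2 * d + η) * s)) ≤ (b : ℝ) ^ l := by
        refine le_trans ?_ hl
        apply mul_le_mul_of_nonneg_right (le_max_right _ _) (by positivity)
      have h2 : 2 / c * (c * (b : ℝ) ^ l) ≤ (b : ℝ) ^ l :=
        (mul_le_mul_of_nonneg_left key (by positivity)).trans h1
      have h3 : 2 / c * (c * (b : ℝ) ^ l) = 2 * (b : ℝ) ^ l := by field_simp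
      rw [h3] at h2
      linarith
    refine ⟨m', (b : ℤ) ^ s * D', by positivity, ?_, ?_, FF_zero_rel _ _ _ _ _ _ _ _ _ _ _ hzero⟩
    · push_cast
      rw [pow_add]
      exact mul_le_mul_of_nonneg_left hDn' (by positivity)
    · push_cast at hm' ⊢
      rw [← mul_assoc]
      exact hm'

end Pool.Agent.Q199.Dg
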