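import Pool.Agent.Q199.Dg.Rat
import Mathlib
set_option autoImplicit false

/-!
# A criterion for `P(e) t + Q(e) = r R(e)`
-/

namespace Pool.Agent.Q199.Dg

open Real Polynomial Filter

theorem Fam.mono {d : ℕ} {H H' t : ℝ} {P Q R : ℤ[X]} (h : Fam d H t P Q R) (hH : H ≤ H') :
    Fam d H' t P Q R := by
  obtain ⟨a1, a2, a3, a4, a5, a6, a7, a8, a9⟩ := h
  exact ⟨a1, a2, a3, a4, a5, fun i => (a6 i).trans hH, fun i => (a7 i).trans hH,
    fun i => (a8 i).trans hH, a9.trans hH⟩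

theorem rep_real (b : ℕ) (hb : 2 ≤ b) (u lam : ℝ) (hl : 2 ≤ lam) (n : ℕ)
    (h : blocksAt b u 0 n ⌈lam * n⌉₊ ≤ n) : ∃ D m : ℤ, 0 < D ∧ (D : ℝ) ≤ (b : ℝ) ^ n ∧
      |u * D - m| ≤ (b : ℝ) ^ (-((lam - 1) * n)) := by
  have hn0 : (0 : ℝ) ≤ n := by positivity
  have hL : lam * n ≤ ⌈lam * n⌉₊ := Nat.le_ceil _
  have h2n : 2 * n ≤ ⌈lam * n⌉₊ := by
    have : ((2 * n : ℕ) : ℝ) ≤ ⌈lam * n⌉₊ := by
      push_cast
      nlinarith
    exact_mod_cast this
  obtain ⟨D, m, h1, h2, h3⟩ := (rep_of_few b _ 0 n _ h2n h).close hb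
  refine ⟨D, m, h1, h2, ?_⟩
  have hb0 : (0 : ℝ) < b := by exact_mod_cast (by omega : 0 < b)
  have hb1 : (1 : ℝ) ≤ b := by exact_mod_cast (by omega : 1 ≤ b)
  rw [pow_zero, mul_one] at h3
  rw [Real.rpow_neg hb0.le, ← one_div, le_div_iff₀ (by positivity)]
  refine le_trans ?_ h3.le
  apply mul_le_mul_of_nonneg_left _ (abs_nonneg _)
  rw [← Real.rpow_natCast]
  apply Real.rpow_le_rpow_of_exponent_le hb1
  rw [Nat.cast_sub (by omega)]
  linarith

theorem FF_eq (P Q R P' Q' R' : ℤ[X]) (D m D' m' : ℤ) :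
    FF P Q R P' Q' R' 1 D m D' m' = (C m * R - C D * Q) * (C D' * P') -
      (C m' * R' - C D' * Q') * (C D * P) := by
  unfold FF
  simp only [C_mul, one_mul]
  ring

theorem blocks_zero (b : ℕ) (n L : ℕ) : blocksAt b 0 0 n L ≤ 1 := by
  unfold blocksAt
  rw [Finset.card_le_one]
  intro f hf g hg
  rw [Finset.mem_image] at hf hg
  obtain ⟨i, _, rfl⟩ := hf
  obtain ⟨j, _, rfl⟩ := hg
  funext k
  simp [digit]

theorem rat_criterion (d : ℕ) (ε lam : ℝ) (hε : 0 < ε)
    (hl : 4 * (d : ℝ) + 2 + (6 * d + 2) * ε < lam) (b : ℕ) (hb : 2 ≤ b) (t : ℝ) :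
    (∃ P Q R : ℤ[X], P ≠ 0 ∧ R ≠ 0 ∧ P.natDegree ≤ d ∧ Q.natDegree ≤ d ∧ R.natDegree ≤ d ∧
      ∃ r : ℚ, mv t P Q R = r) ↔
      ∀ᶠ n : ℕ in atTop, ∃ P Q R : ℤ[X], Fam d ((b : ℝ) ^ (ε * n)) t P Q R ∧
        blocksAt b (mv t P Q R) 0 n ⌈lam * n⌉₊ ≤ n := by
  set B : ℝ := (b : ℝ) with hB
  have hB1 : 1 < B := by rw [hB]; exact_mod_cast (by omega : 1 < b)
  have hB0 : 0 < B := by linarith
  have hd0 : (0 : ℝ) ≤ d := by positivity
  have hlam2 : 2 ≤ lam := by nlinarith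
  constructor
  · rintro ⟨P, Q, R, hP, hR, h1, h2, h3, r, hr⟩
    have hrR : (r : ℝ) = r.num / r.den := by exact_mod_cast (Rat.num_div_den r).symm
    have hden : (r.den : ℤ) ≠ 0 := by exact_mod_cast r.den_pos.ne'
    have hdenR : (r.den : ℝ) ≠ 0 := by exact_mod_cast r.den_pos.ne'
    have hR0 := aeval_ne R hR
    have hval0 : mv t (C (r.den : ℤ) * P) (C (r.den : ℤ) * Q - C r.num * R) R = 0 := by
      have h5 : aeval (exp 1) P * t + aeval (exp 1) Q = r * aeval (exp 1) R := by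
        have : mv t P Q R * aeval (exp 1) R = r * aeval (exp 1) R := by rw [hr]
        unfold mv at this
        rwa [div_mul_cancel₀ _ hR0] at this
      have h6 : (r.den : ℝ) * r = r.num := by
        rw [hrR]; field_simp
      unfold mv
      have h7 : aeval (exp 1) (C (r.den : ℤ) * P) * t +
          aeval (exp 1) (C (r.den : ℤ) * Q - C r.num * R) = 0 := by
        simp only [map_sub, map_mul, aeval_C]
        simp only [eq_intCast, Int.cast_natCast]
        linear_combination (r.den : ℝ) * h5 + aeval (exp 1) R * h6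
      rw [h7, zero_div]
    obtain ⟨b1, hb10, hb1⟩ := coeff_bd (C (r.den : ℤ) * P)
    obtain ⟨b2, hb20, hb2⟩ := coeff_bd (C (r.den : ℤ) * Q - C r.num * R)
    obtain ⟨b3, hb30, hb3⟩ := coeff_bd R
    have hlim : Tendsto (fun n : ℕ => B ^ (ε * n)) atTop atTop := by
      have e : ∀ n : ℕ, B ^ (ε * n) = (B ^ ε) ^ n := by
        intro n
        rw [← Real.rpow_natCast, ← Real.rpow_mul hB0.le]
      simp_rw [e]
      exact tendsto_pow_atTop_atTop_of_one_lt (Real.one_lt_rpow hB1 hε)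
    filter_upwards [hlim.eventually_ge_atTop (b1 + b2 + b3), eventually_ge_atTop 1] with n hn hn1
    refine ⟨_, _, _, ⟨mul_ne_zero (by rwa [Ne, C_eq_zero]) hP, hR,
      (natDegree_C_mul_le _ _).trans h1, ?_, h3, fun i => (hb1 i).trans (by linarith),
      fun i => (hb2 i).trans (by linarith), fun i => (hb3 i).trans (by linarith), ?_⟩, ?_⟩
    · exact (natDegree_sub_le _ _).trans (max_le ((natDegree_C_mul_le _ _).trans h2)
        ((natDegree_C_mul_le _ _).trans h3))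
    · rw [hval0, abs_zero]; positivity
    · rw [hval0]
      exact (blocks_zero b n _).trans hn1
  · intro h
    -- the exponent
    set gap : ℝ := lam - (4 * (d : ℝ) + 2 + (6 * d + 2) * ε) with hgap
    have hgap0 : 0 < gap := by linarith
    obtain ⟨η, hη0, hη⟩ : ∃ η : ℝ, 0 < η ∧ (2 + 3 * ε) * η = gap / 2 :=
      ⟨gap / (2 * (2 + 3 * ε)), by positivity, by field_simp⟩
    obtain ⟨c, hc, hcore⟩ := rat_core d η hη0
    obtain ⟨c1, hc1, hmeas1⟩ := Pool.Agent.W472.AC.e_measP d 1 one_pos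
    set E1 : ℝ := (2 + 3 * ε) * (2 * d + η) + (1 + 2 * ε) with hE1
    have hγ : 0 < lam - 1 - E1 := by
      have : lam - 1 - E1 = gap / 2 := by
        rw [hE1, ← sub_eq_zero]
        have e : (2 + 3 * ε) * (2 * d + η) = 4 * d + 6 * d * ε + (2 + 3 * ε) * η := by ring
        rw [e, hη, hgap]
        ring
      linarith
    have hlim := (lim B (lam - 1 - E1) 0 1 hB1 hγ).const_mul (B ^ E1)
    rw [mul_zero] at hlim
    obtain ⟨n₁, hn₁⟩ := eventually_atTop.1 (h.and (hlim.eventually_lt_const hc))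
    have hex : ∀ n, ∃ (P Q R : ℤ[X]) (D m : ℤ), n₁ ≤ n → Fam d (B ^ (ε * n)) t P Q R ∧ 0 < D ∧
        (D : ℝ) ≤ B ^ n ∧ |mv t P Q R * D - m| ≤ B ^ (-((lam - 1) * n)) := by
      intro n
      by_cases hn : n₁ ≤ n
      · obtain ⟨P, Q, R, h1, h2⟩ := (hn₁ n hn).1
        obtain ⟨D, m, h3, h4, h5⟩ := rep_real b hb _ lam hlam2 n h2
        exact ⟨P, Q, R, D, m, fun _ => ⟨h1, h3, h4, h5⟩⟩
      · exact ⟨0, 0, 0, 0, 0, fun h => absurd h hn⟩
    choose P Q R D m hS using hex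
    set U : ℕ → ℤ[X] := fun n => C (m n) * R n - C (D n) * Q n with hU
    set S : ℕ → ℤ[X] := fun n => C (D n) * P n with hSdef
    have hS0 : ∀ n, n₁ ≤ n → S n ≠ 0 := by
      intro n hn
      obtain ⟨h1, h2, -, -⟩ := hS n hn
      exact mul_ne_zero (by rw [Ne, C_eq_zero]; exact h2.ne') h1.1
    have hstep : ∀ n, n₁ ≤ n → U n * S (n + 1) = U (n + 1) * S n := by
      intro n hn
      obtain ⟨h1, h2, h3, h4⟩ := hS n hn
      obtain ⟨g1, g2, g3, g4⟩ := hS (n + 1) (by omega)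
      have hn0 : (0 : ℝ) ≤ n := by positivity
      by_contra hne
      have hF : FF (P n) (Q n) (R n) (P (n + 1)) (Q (n + 1)) (R (n + 1)) 1 (D n) (m n) (D (n + 1))
          (m (n + 1)) ≠ 0 := by
        rw [FF_eq]
        exact sub_ne_zero.2 hne
      have hcast : ((n + 1 : ℕ) : ℝ) = n + 1 := by push_cast; rfl
      rw [hcast] at g1 g4
      have hmono : B ^ (ε * n) ≤ B ^ (ε * (n + 1)) := by
        apply Real.rpow_le_rpow_of_exponent_le hB1.le
        nlinarith
      have hδ1 : B ^ (-((lam - 1) * (n : ℝ))) ≤ 1 := by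
        apply Real.rpow_le_one_of_one_le_of_nonpos hB1.le
        nlinarith
      have hδ' : B ^ (-((lam - 1) * ((n : ℝ) + 1))) ≤ B ^ (-((lam - 1) * n)) := by
        apply Real.rpow_le_rpow_of_exponent_le hB1.le
        nlinarith
      have key := hcore t (B ^ (ε * ((n : ℝ) + 1))) (B ^ (n + 1)) (B ^ (-((lam - 1) * n))) 1
        (Real.one_le_rpow hB1.le (by positivity)) one_pos (one_le_pow₀ hB1.le) hδ1
        (P n) (Q n) (R n) (P (n + 1)) (Q (n + 1)) (R (n + 1)) (h1.mono hmono) g1 (D n) (m n)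
        (D (n + 1)) (m (n + 1)) h2 g2 (h3.trans (pow_le_pow_right₀ hB1.le (by omega))) g3
        (by rw [Int.cast_one, mul_one]; exact h4) (by
          rw [Int.cast_one, mul_one]; exact g4.trans hδ') hF
      have e1 : (((1 : ℤ) : ℝ) * (B ^ (n + 1)) ^ 2 * (B ^ (ε * ((n : ℝ) + 1))) ^ 3) ^
          (2 * (d : ℝ) + η) * (B ^ (n + 1) * (B ^ (ε * ((n : ℝ) + 1))) ^ 2 *
            B ^ (-((lam - 1) * (n : ℝ)))) = B ^ E1 * ((1 + 0 * (n : ℝ)) *
              B ^ (-((lam - 1 - E1) * n))) := by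
        have f1 : (B ^ (n + 1)) = B ^ ((n : ℝ) + 1) := by
          rw [← Real.rpow_natCast]; push_cast; rfl
        have f2 : ∀ z : ℝ, ∀ k : ℕ, (B ^ z) ^ k = B ^ (z * k) := by
          intro z k
          rw [← Real.rpow_natCast, ← Real.rpow_mul hB0.le]
        rw [f1, f2, f2, f2, Int.cast_one, one_mul, ← Real.rpow_add hB0, ← Real.rpow_mul hB0.le,
          ← Real.rpow_add hB0, ← Real.rpow_add hB0, ← Real.rpow_add hB0, zero_mul, add_zero,
          one_mul, ← Real.rpow_add hB0]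
        congr 1
        rw [hE1]
        push_cast
        ring
      rw [e1] at key
      have := (hn₁ n hn).2
      linarith
    have hconst : ∀ n, n₁ ≤ n → U n * S n₁ = U n₁ * S n := by
      intro n hn
      induction n, hn using Nat.le_induction with
      | base => rfl
      | succ n hn ih =>
        apply mul_left_cancel₀ (hS0 n hn)
        linear_combination (S (n + 1)) * ih - (S n₁) * hstep n hn
    -- the real values
    set K2 : ℝ := (d + 1) * 3 ^ d with hK2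
    have hK20 : 0 < K2 := by positivity
    have hs1 : aeval (exp 1) (S n₁) ≠ 0 := aeval_ne _ (hS0 n₁ le_rfl)
    have hts : ∀ n, n₁ ≤ n → t * aeval (exp 1) (S n) - aeval (exp 1) (U n) =
        aeval (exp 1) (R n) * (mv t (P n) (Q n) (R n) * D n - m n) := by
      intro n hn
      have hR0 := aeval_ne _ (hS n hn).1.2.1
      have hval : aeval (exp 1) (R n) * mv t (P n) (Q n) (R n) =
          aeval (exp 1) (P n) * t + aeval (exp 1) (Q n) := by
        unfold mv; field_simp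
      rw [hU, hSdef]
      simp only [map_sub, map_mul, aeval_C]
      simp only [eq_intCast]
      linear_combination (-(D n : ℝ)) * hval
    have hlim2 := (lim B (lam - 1 - ε * (d + 2)) 0 1 hB1 (by nlinarith)).const_mul
      (|aeval (exp 1) (S n₁)| * K2 / c1)
    rw [mul_zero] at hlim2
    have hle : ∀ᶠ n : ℕ in atTop, |t * aeval (exp 1) (S n₁) - aeval (exp 1) (U n₁)| ≤
        |aeval (exp 1) (S n₁)| * K2 / c1 * ((1 + 0 * (n : ℝ)) *
          B ^ (-((lam - 1 - ε * (d + 2)) * n))) := by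
      filter_upwards [eventually_ge_atTop n₁] with n hn
      obtain ⟨h1, h2, h3, h4⟩ := hS n hn
      have hc2 := hconst n hn
      have hc3 : aeval (exp 1) (U n) * aeval (exp 1) (S n₁) =
          aeval (exp 1) (U n₁) * aeval (exp 1) (S n) := by
        rw [← map_mul, ← map_mul, hc2]
      have e1 : aeval (exp 1) (S n) * (t * aeval (exp 1) (S n₁) - aeval (exp 1) (U n₁)) =
          aeval (exp 1) (S n₁) * (aeval (exp 1) (R n) * (mv t (P n) (Q n) (R n) * D n - m n)) := by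
        rw [← hts n hn]
        linear_combination hc3
      have hn0 : (0 : ℝ) ≤ n := by positivity
      have hH1 : 1 ≤ B ^ (ε * (n : ℝ)) := Real.one_le_rpow hB1.le (by positivity)
      have e2 : c1 ≤ (B ^ (ε * (n : ℝ))) ^ ((d : ℝ) + 1) * |aeval (exp 1) (S n)| := by
        have := hmeas1 (P n) h1.1 h1.2.2.1 _ hH1 h1.2.2.2.2.2.1
        refine this.trans ?_
        apply mul_le_mul_of_nonneg_left _ (by positivity)
        rw [hSdef]
        simp only [map_mul, aeval_C]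
        simp only [eq_intCast]
        rw [abs_mul]
        have hD1 : (1 : ℝ) ≤ |(D n : ℝ)| := by
          have : (1 : ℤ) ≤ |D n| := Int.one_le_abs h2.ne'
          exact_mod_cast this
        have := abs_nonneg (aeval (exp 1) (P n))
        nlinarith
      have e3 : |aeval (exp 1) (R n)| ≤ K2 * B ^ (ε * (n : ℝ)) :=
        aeval_bd d (R n) h1.2.2.2.2.1 _ h1.2.2.2.2.2.2.2.1
      have e4 := congrArg abs e1
      rw [abs_mul, abs_mul, abs_mul] at e4
      set W := |t * aeval (exp 1) (S n₁) - aeval (exp 1) (U n₁)| with hW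
      have hW0 : 0 ≤ W := abs_nonneg _
      have e5 : c1 * W ≤ (B ^ (ε * (n : ℝ))) ^ ((d : ℝ) + 1) * (|aeval (exp 1) (S n₁)| *
          ((K2 * B ^ (ε * (n : ℝ))) * B ^ (-((lam - 1) * (n : ℝ))))) := by
        calc c1 * W ≤ ((B ^ (ε * (n : ℝ))) ^ ((d : ℝ) + 1) * |aeval (exp 1) (S n)|) * W :=
              mul_le_mul_of_nonneg_right e2 hW0
          _ = (B ^ (ε * (n : ℝ))) ^ ((d : ℝ) + 1) * (|aeval (exp 1) (S n)| * W) := by ring
          _ = (B ^ (ε * (n : ℝ))) ^ ((d : ℝ) + 1) * (|aeval (exp 1) (S n₁)| *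
              (|aeval (exp 1) (R n)| * |mv t (P n) (Q n) (R n) * D n - m n|)) := by rw [e4]
          _ ≤ _ := by gcongr
      have e6 : (B ^ (ε * (n : ℝ))) ^ ((d : ℝ) + 1) * (|aeval (exp 1) (S n₁)| *
          ((K2 * B ^ (ε * (n : ℝ))) * B ^ (-((lam - 1) * (n : ℝ))))) =
          |aeval (exp 1) (S n₁)| * K2 * B ^ (-((lam - 1 - ε * (d + 2)) * n)) := by
        have f : B ^ (-((lam - 1 - ε * (d + 2)) * (n : ℝ))) =
            (B ^ (ε * (n : ℝ))) ^ ((d : ℝ) + 1) * B ^ (ε * (n : ℝ)) *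
              B ^ (-((lam - 1) * (n : ℝ))) := by
          rw [← Real.rpow_mul hB0.le, ← Real.rpow_add hB0, ← Real.rpow_add hB0]
          congr 1
          ring
        rw [f]
        ring
      rw [e6] at e5
      rw [zero_mul, add_zero, one_mul, div_mul_eq_mul_div, le_div_iff₀ hc1]
      linarith
    have hzero : t * aeval (exp 1) (S n₁) - aeval (exp 1) (U n₁) = 0 :=
      abs_eq_zero.1 (le_antisymm (ge_of_tendsto hlim2 hle) (abs_nonneg _))
    obtain ⟨h1, h2, h3, h4⟩ := hS n₁ le_rfl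
    refine ⟨P n₁, Q n₁, R n₁, h1.1, h1.2.1, h1.2.2.1, h1.2.2.2.1, h1.2.2.2.2.1,
      (m n₁ : ℚ) / (D n₁ : ℚ), ?_⟩
    rw [hts n₁ le_rfl] at hzero
    have h5 := (mul_eq_zero.1 hzero).resolve_left (aeval_ne _ h1.2.1)
    have hDR : (D n₁ : ℝ) ≠ 0 := by exact_mod_cast h2.ne'
    push_cast
    rw [eq_div_iff hDR]
    linarith

end Pool.Agent.Q199.Dg
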