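import Pool.Agent.Q199.Dg.Rat2
import Pool.Agent.Q199.Dg.Disc
import Mathlib
set_option autoImplicit false

/-!
# Blocks of digits of the numbers `(P(x) t + Q(x)) / R(x)` for a number `x` with transcendence
measures of polynomial type
-/

namespace Pool.Agent.Q199.Dg

open Real Polynomial Filter Pool.Agent.Q158.EqD

/-- the value -/
noncomputable def vx (x t : ℝ) (P Q R : ℤ[X]) : ℝ :=
  (aeval x P * t + aeval x Q) / aeval x R

/-- the family of triples -/
def FamX (x : ℝ) (d : ℕ) (H t : ℝ) (P Q R : ℤ[X]) : Prop :=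
  P ≠ 0 ∧ R ≠ 0 ∧ P.natDegree ≤ d ∧ Q.natDegree ≤ d ∧ R.natDegree ≤ d ∧
    (∀ i, |(P.coeff i : ℝ)| ≤ H) ∧ (∀ i, |(Q.coeff i : ℝ)| ≤ H) ∧ (∀ i, |(R.coeff i : ℝ)| ≤ H) ∧
    |vx x t P Q R| ≤ H

theorem FamX.mono {x : ℝ} {d : ℕ} {H H' t : ℝ} {P Q R : ℤ[X]} (h : FamX x d H t P Q R)
    (hH : H ≤ H') : FamX x d H' t P Q R := by
  obtain ⟨a1, a2, a3, a4, a5, a6, a7, a8, a9⟩ := h
  exact ⟨a1, a2, a3, a4, a5, fun i => (a6 i).trans hH, fun i => (a7 i).trans hH,
    fun i => (a8 i).trans hH, a9.trans hH⟩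

theorem aeval_bdX (x : ℝ) (d : ℕ) (R : ℤ[X]) (hR : R.natDegree ≤ d) (H : ℝ)
    (h : ∀ i, |(R.coeff i : ℝ)| ≤ H) : |aeval x R| ≤ (d + 1) * (1 + |x|) ^ d * H := by
  have hH : 0 ≤ H := (abs_nonneg _).trans (h 0)
  have hx0 := abs_nonneg x
  rw [aeval_eq_sum_range' (show R.natDegree < d + 1 by omega)]
  calc |∑ i ∈ Finset.range (d + 1), R.coeff i • x ^ i| ≤
        ∑ i ∈ Finset.range (d + 1), |R.coeff i • x ^ i| := Finset.abs_sum_le_sum_abs _ _
    _ ≤ ∑ _i ∈ Finset.range (d + 1), H * (1 + |x|) ^ d := Finset.sum_le_sum fun i hi => by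
        rw [zsmul_eq_mul, abs_mul, abs_pow]
        apply mul_le_mul (h i) _ (by positivity) hH
        calc |x| ^ i ≤ (1 + |x|) ^ i := pow_le_pow_left₀ hx0 (by linarith) i
          _ ≤ (1 + |x|) ^ d := pow_le_pow_right₀ (by linarith) (by
              rw [Finset.mem_range] at hi; omega)
    _ = _ := by
        rw [Finset.sum_const, Finset.card_range, nsmul_eq_mul]
        push_cast
        ring

theorem aeval_neX {x : ℝ} (hx : MeasR x) (R : ℤ[X]) (hR : R ≠ 0) : aeval x R ≠ 0 := by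
  obtain ⟨w, c, hw, hc, h⟩ := hx R.natDegree
  obtain ⟨B, hB0, hB⟩ := coeff_bd R
  intro h0
  have h1 := h R hR le_rfl (B + 1) (by linarith) (fun j => (hB j).trans (by linarith))
  rw [h0, abs_zero, mul_zero] at h1
  linarith

theorem ratx_core {x : ℝ} (hx : MeasR x) (d : ℕ) : ∃ w c : ℝ, 0 < w ∧ 0 < c ∧
    ∀ (t H N δ : ℝ) (B : ℤ),
    1 ≤ H → 0 < B → 1 ≤ N → δ ≤ 1 → ∀ P Q R P' Q' R' : ℤ[X], FamX x d H t P Q R →
      FamX x d H t P' Q' R' → ∀ D m D' m' : ℤ, 0 < D → 0 < D' → (D : ℝ) ≤ N → (D' : ℝ) ≤ N →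
      |vx x t P Q R * B * D - m| ≤ δ → |vx x t P' Q' R' * B * D' - m'| ≤ δ →
      FF P Q R P' Q' R' B D m D' m' ≠ 0 →
      c ≤ (B * N ^ 2 * H ^ 3) ^ w * (N * H ^ 2 * δ) := by
  obtain ⟨w, c0, hw, hc0, hmeas⟩ := hx (2 * d)
  set K1 : ℝ := (6 * (d + 1)) with hK1
  have hK10 : 0 < K1 := by positivity
  have hK11 : 1 ≤ K1 := by
    have : (0 : ℝ) ≤ d := by positivity
    rw [hK1]; linarith
  set K2 : ℝ := (d + 1) * (1 + |x|) ^ d with hK2
  have hK20 : 0 < K2 := by positivity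
  have hd0 : (0 : ℝ) ≤ d := by positivity
  refine ⟨w, c0 / (K1 ^ w * (2 * K2 ^ 2)), hw, by positivity, ?_⟩
  intro t H N δ B hH hB hN hδ1 P Q R P' Q' R' hP hP' D m D' m' hD hD' hDN hDN' hm hm' hF
  obtain ⟨a1, a2, a3, a4, a5, a6, a7, a8, a9⟩ := hP
  obtain ⟨b1, b2, b3, b4, b5, b6, b7, b8, b9⟩ := hP'
  have hδ0 : 0 ≤ δ := (abs_nonneg _).trans hm
  have hBR : (1 : ℝ) ≤ B := by exact_mod_cast hB
  have hDR : (0 : ℝ) < D := by exact_mod_cast hD
  have hDR' : (0 : ℝ) < D' := by exact_mod_cast hD'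
  have hBNH : 1 ≤ (B : ℝ) * N * H := by
    have : 1 ≤ (B : ℝ) * N := by nlinarith
    nlinarith
  have hmb : |(m : ℝ)| ≤ 2 * (B * N * H) := by
    have e : (m : ℝ) = vx x t P Q R * B * D - (vx x t P Q R * B * D - m) := by ring
    rw [e]
    have e1 : |vx x t P Q R * B * D| ≤ H * B * N := by
      rw [abs_mul, abs_mul, abs_of_pos hDR, abs_of_pos (by linarith : (0 : ℝ) < B)]
      gcongr
    have e2 := abs_sub (vx x t P Q R * B * D) (vx x t P Q R * B * D - m)
    nlinarith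
  have hmb' : |(m' : ℝ)| ≤ 2 * (B * N * H) := by
    have e : (m' : ℝ) = vx x t P' Q' R' * B * D' - (vx x t P' Q' R' * B * D' - m') := by ring
    rw [e]
    have e1 : |vx x t P' Q' R' * B * D'| ≤ H * B * N := by
      rw [abs_mul, abs_mul, abs_of_pos hDR', abs_of_pos (by linarith : (0 : ℝ) < B)]
      gcongr
    have e2 := abs_sub (vx x t P' Q' R' * B * D') (vx x t P' Q' R' * B * D' - m')
    nlinarith
  set F := FF P Q R P' Q' R' B D m D' m' with hFdef
  have hdeg : F.natDegree ≤ 2 * d := by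
    rw [hFdef]
    unfold FF
    have l1 : (P' * R).natDegree ≤ 2 * d := natDegree_mul_le.trans (by omega)
    have l2 : (P * R').natDegree ≤ 2 * d := natDegree_mul_le.trans (by omega)
    have l3 : (P * Q' - P' * Q).natDegree ≤ 2 * d :=
      (natDegree_sub_le _ _).trans (max_le (natDegree_mul_le.trans (by omega))
        (natDegree_mul_le.trans (by omega)))
    refine (natDegree_add_le _ _).trans (max_le ((natDegree_sub_le _ _).trans (max_le ?_ ?_)) ?_)
    · exact (natDegree_C_mul_le _ _).trans l1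
    · exact (natDegree_C_mul_le _ _).trans l2
    · exact (natDegree_C_mul_le _ _).trans l3
  have hH0 : 0 ≤ H := by linarith
  have hcoef : ∀ j, |(F.coeff j : ℝ)| ≤ K1 * (B * N ^ 2 * H ^ 3) := by
    intro j
    have k1 := coeff_mul_bd d P' R b3 H H hH0 hH0 b6 a8 j
    have k2 := coeff_mul_bd d P R' a3 H H hH0 hH0 a6 b8 j
    have k3 := coeff_mul_bd d P Q' a3 H H hH0 hH0 a6 b7 j
    have k4 := coeff_mul_bd d P' Q b3 H H hH0 hH0 b6 a7 j
    have e : (F.coeff j : ℝ) = D' * m * ((P' * R).coeff j : ℝ) - D * m' * ((P * R').coeff j : ℝ) +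
        B * D * D' * (((P * Q').coeff j : ℝ) - ((P' * Q).coeff j : ℝ)) := by
      rw [hFdef]
      unfold FF
      rw [coeff_add, coeff_sub, coeff_C_mul, coeff_C_mul, coeff_C_mul, coeff_sub]
      push_cast
      ring
    rw [e]
    have hDm : |(D' : ℝ) * m| ≤ N * (2 * (B * N * H)) := by
      rw [abs_mul, abs_of_pos hDR']
      exact mul_le_mul hDN' hmb (abs_nonneg _) (by linarith)
    have hDm' : |(D : ℝ) * m'| ≤ N * (2 * (B * N * H)) := by
      rw [abs_mul, abs_of_pos hDR]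
      exact mul_le_mul hDN hmb' (abs_nonneg _) (by linarith)
    have hDD : |(B : ℝ) * D * D'| ≤ B * N * N := by
      rw [abs_of_pos (by positivity)]
      gcongr
    have t1 : |(D' : ℝ) * m * ((P' * R).coeff j : ℝ)| ≤
        N * (2 * (B * N * H)) * ((d + 1) * (H * H)) := by
      rw [abs_mul]
      exact mul_le_mul hDm k1 (abs_nonneg _) (by positivity)
    have t2 : |(D : ℝ) * m' * ((P * R').coeff j : ℝ)| ≤
        N * (2 * (B * N * H)) * ((d + 1) * (H * H)) := by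
      rw [abs_mul]
      exact mul_le_mul hDm' k2 (abs_nonneg _) (by positivity)
    have t3 : |(B : ℝ) * D * D' * (((P * Q').coeff j : ℝ) - ((P' * Q).coeff j : ℝ))| ≤
        B * N * N * (2 * ((d + 1) * (H * H))) := by
      rw [abs_mul]
      apply mul_le_mul hDD _ (abs_nonneg _) (by positivity)
      have := abs_sub ((P * Q').coeff j : ℝ) ((P' * Q).coeff j : ℝ)
      linarith
    have t4 := abs_add_le ((D' : ℝ) * m * ((P' * R).coeff j : ℝ) - D * m' * ((P * R').coeff j : ℝ))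
      (B * D * D' * (((P * Q').coeff j : ℝ) - ((P' * Q).coeff j : ℝ)))
    have t5 := abs_sub ((D' : ℝ) * m * ((P' * R).coeff j : ℝ)) (D * m' * ((P * R').coeff j : ℝ))
    have t6 : B * N * N * (2 * ((d + 1) * (H * H))) ≤ B * N * N * (2 * ((d + 1) * (H * H))) * H := by
      apply le_mul_of_one_le_right (by positivity) hH
    calc _ ≤ N * (2 * (B * N * H)) * ((d + 1) * (H * H)) + N * (2 * (B * N * H)) *
          ((d + 1) * (H * H)) + B * N * N * (2 * ((d + 1) * (H * H))) * H := by linarith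
      _ = K1 * (B * N ^ 2 * H ^ 3) := by rw [hK1]; ring
  have hX1 : 1 ≤ (B : ℝ) * N ^ 2 * H ^ 3 := by
    have u1 : (1 : ℝ) ≤ N ^ 2 := one_le_pow₀ hN
    have u2 : (1 : ℝ) ≤ H ^ 3 := one_le_pow₀ hH
    have u3 : 1 ≤ (B : ℝ) * N ^ 2 := by nlinarith
    nlinarith
  set X := (B : ℝ) * N ^ 2 * H ^ 3 with hX
  have key := hmeas F hF hdeg (K1 * X) (by nlinarith) hcoef
  have hR0 := aeval_neX hx R a2
  have hR0' := aeval_neX hx R' b2
  have hval : aeval x R * vx x t P Q R = aeval x P * t + aeval x Q := by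
    unfold vx; field_simp
  have hval' : aeval x R' * vx x t P' Q' R' = aeval x P' * t + aeval x Q' := by
    unfold vx; field_simp
  have hFe : aeval x F = -(D' * (aeval x P' * aeval x R) *
      (vx x t P Q R * B * D - m)) + D * (aeval x P * aeval x R') *
      (vx x t P' Q' R' * B * D' - m') := by
    rw [hFdef]
    unfold FF
    simp only [map_add, map_sub, map_mul, aeval_C]
    simp only [eq_intCast]
    linear_combination (-(B : ℝ) * D * D' * aeval x P) * hval' +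
      (B * D * D' * aeval x P') * hval
  have hFb : |aeval x F| ≤ 2 * K2 ^ 2 * (N * H ^ 2 * δ) := by
    rw [hFe]
    have p1 := aeval_bdX x d P' b3 H b6
    have p2 := aeval_bdX x d R a5 H a8
    have p3 := aeval_bdX x d P a3 H a6
    have p4 := aeval_bdX x d R' b5 H b8
    rw [← hK2] at p1 p2 p3 p4
    have q1 : |D' * (aeval x P' * aeval x R) * (vx x t P Q R * B * D - m)| ≤
        N * ((K2 * H) * (K2 * H)) * δ := by
      rw [abs_mul, abs_mul, abs_mul, abs_of_pos hDR']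
      gcongr
    have q2 : |D * (aeval x P * aeval x R') * (vx x t P' Q' R' * B * D' - m')| ≤
        N * ((K2 * H) * (K2 * H)) * δ := by
      rw [abs_mul, abs_mul, abs_mul, abs_of_pos hDR]
      gcongr
    refine (abs_add_le _ _).trans ?_
    rw [abs_neg]
    calc _ ≤ N * ((K2 * H) * (K2 * H)) * δ + N * ((K2 * H) * (K2 * H)) * δ := add_le_add q1 q2
      _ = _ := by ring
  rw [Real.mul_rpow hK10.le (by linarith)] at key
  rw [div_le_iff₀ (by positivity)]
  calc c0 ≤ K1 ^ w * X ^ w * |aeval x F| := key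
    _ ≤ K1 ^ w * X ^ w * (2 * K2 ^ 2 * (N * H ^ 2 * δ)) := by
        apply mul_le_mul_of_nonneg_left hFb (by positivity)
    _ = _ := by ring

/-- **One rational function for each scale.** -/
theorem ratx_one {x : ℝ} (hx : MeasR x) (d : ℕ) : ∃ C₀ : ℕ, 2 ≤ C₀ ∧ ∀ l : ℕ, C₀ ≤ l → ∀ t : ℝ,
    ∀ b : ℕ, 2 ≤ b → ∀ s n : ℕ, 0 < n →
      ∃ U S : ℤ[X], S ≠ 0 ∧ ∀ P Q R : ℤ[X], FamX x d ((b : ℝ) ^ (s + n)) t P Q R →
        Rep b (vx x t P Q R) s n (l * (s + n)) →
        ∃ p q : ℤ, 0 < q ∧ (q : ℝ) ≤ (b : ℝ) ^ (s + n) ∧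
          |vx x t P Q R * q - p| * (b : ℝ) ^ (l * (s + n)) < 1 ∧
            C q * (P * U + Q * S) = C p * (R * S) := by
  obtain ⟨w, c, hw, hc, hcore⟩ := ratx_core hx d
  obtain ⟨E, hE⟩ := pow_unbounded_of_one_lt (1 / c) (by norm_num : (1 : ℝ) < 2)
  obtain ⟨C1, hC1⟩ := exists_nat_ge (6 * w + 3 + E)
  refine ⟨C1 + 2, by omega, ?_⟩
  intro l hl t b hb s n hn
  have hb1 : (1 : ℝ) ≤ b := by exact_mod_cast (by omega : 1 ≤ b)
  have hb2 : (2 : ℝ) ≤ b := by exact_mod_cast hb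
  have hb0 : (0 : ℝ) < b := by linarith
  have hbs : (0 : ℤ) < (b : ℤ) ^ s := by positivity
  have happ : ∀ P Q R : ℤ[X], Rep b (vx x t P Q R) s n (l * (s + n)) → ∃ D m : ℤ, 0 < D ∧
      (D : ℝ) ≤ (b : ℝ) ^ n ∧
      |vx x t P Q R * ((b : ℤ) ^ s : ℤ) * D - m| * (b : ℝ) ^ (l * (s + n)) < 1 := by
    intro P Q R h
    obtain ⟨D, m, h1, h2, h3⟩ := h.close hb
    refine ⟨D, m, h1, h2, ?_⟩
    push_cast
    exact h3
  by_cases hex : ∃ P Q R : ℤ[X], FamX x d ((b : ℝ) ^ (s + n)) t P Q R ∧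
      Rep b (vx x t P Q R) s n (l * (s + n))
  swap
  · push Not at hex
    exact ⟨0, 1, one_ne_zero, fun P Q R h1 h2 => absurd h2 (hex P Q R h1)⟩
  obtain ⟨P, Q, R, hF, hR⟩ := hex
  obtain ⟨D, m, hD, hDn, hm⟩ := happ P Q R hR
  refine ⟨C m * R - C ((b : ℤ) ^ s * D) * Q, C ((b : ℤ) ^ s * D) * P, ?_, ?_⟩
  · apply mul_ne_zero _ hF.1
    rw [Ne, C_eq_zero]
    positivity
  · intro P' Q' R' hF' hR'
    obtain ⟨D', m', hD', hDn', hm'⟩ := happ P' Q' R' hR'
    have hzero : FF P Q R P' Q' R' ((b : ℤ) ^ s) D m D' m' = 0 := by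
      by_contra hne
      have hbl : (0 : ℝ) < (b : ℝ) ^ (l * (s + n)) := by positivity
      have e1 : |vx x t P Q R * ((b : ℤ) ^ s : ℤ) * D - m| ≤ 1 / (b : ℝ) ^ (l * (s + n)) := by
        rw [le_div_iff₀ hbl]; exact hm.le
      have e2 : |vx x t P' Q' R' * ((b : ℤ) ^ s : ℤ) * D' - m'| ≤ 1 / (b : ℝ) ^ (l * (s + n)) := by
        rw [le_div_iff₀ hbl]; exact hm'.le
      have key := hcore t ((b : ℝ) ^ (s + n)) ((b : ℝ) ^ n) (1 / (b : ℝ) ^ (l * (s + n)))
        ((b : ℤ) ^ s) (one_le_pow₀ hb1) hbs (one_le_pow₀ hb1)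
        (by rw [div_le_one hbl]; exact one_le_pow₀ hb1) P Q R P' Q' R' hF hF' D m D' m' hD hD'
        hDn hDn' e1 e2 hne
      set W : ℝ := (b : ℝ) ^ (s + n) with hW
      have hW1 : 1 ≤ W := one_le_pow₀ hb1
      have hW2 : 2 ≤ W := by
        calc (2 : ℝ) ≤ b := hb2
          _ = (b : ℝ) ^ 1 := (pow_one _).symm
          _ ≤ W := pow_le_pow_right₀ hb1 (by omega)
      have hsW : (b : ℝ) ^ s ≤ W := pow_le_pow_right₀ hb1 (by omega)
      have hnW : (b : ℝ) ^ n ≤ W := pow_le_pow_right₀ hb1 (by omega)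
      have f1 : (((b : ℤ) ^ s : ℤ) : ℝ) * ((b : ℝ) ^ n) ^ 2 * W ^ 3 ≤ W ^ 6 := by
        push_cast
        calc (b : ℝ) ^ s * ((b : ℝ) ^ n) ^ 2 * W ^ 3 ≤ W * W ^ 2 * W ^ 3 := by gcongr
          _ = _ := by ring
      have f2 : (((((b : ℤ) ^ s : ℤ) : ℝ) * ((b : ℝ) ^ n) ^ 2 * W ^ 3) ^ w) ≤ W ^ (6 * w) := by
        calc _ ≤ (W ^ 6) ^ w := Real.rpow_le_rpow (by positivity) f1 hw.le
          _ = _ := by
            rw [← Real.rpow_natCast, ← Real.rpow_mul (by linarith)]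
            push_cast
            rfl
      have f3 : (b : ℝ) ^ n * W ^ 2 * (1 / (b : ℝ) ^ (l * (s + n))) ≤ W ^ 3 * (W ^ l)⁻¹ := by
        have : (b : ℝ) ^ (l * (s + n)) = W ^ l := by
          rw [hW, ← pow_mul]; congr 1; ring
        rw [this, one_div]
        calc (b : ℝ) ^ n * W ^ 2 * (W ^ l)⁻¹ ≤ W * W ^ 2 * (W ^ l)⁻¹ := by gcongr
          _ = _ := by ring
      have f4 : c ≤ W ^ (6 * w) * (W ^ 3 * (W ^ l)⁻¹) := by
        refine key.trans ?_
        apply mul_le_mul f2 f3 (by positivity) (by positivity)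
      have f5 : c * W ^ l ≤ W ^ (6 * w + 3) := by
        have hWl : 0 < W ^ l := by positivity
        have := mul_le_mul_of_nonneg_right f4 hWl.le
        have e : W ^ (6 * w) * (W ^ 3 * (W ^ l)⁻¹) * W ^ l = W ^ (6 * w + 3) := by
          rw [Real.rpow_add (by linarith)]
          have : W ^ (3 : ℝ) = W ^ 3 := by
            rw [← Real.rpow_natCast]; norm_num
          rw [this]
          field_simp
        rwa [e] at this
      have f6 : W ^ (6 * w + 3) * 2 ^ E ≤ W ^ l := by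
        calc W ^ (6 * w + 3) * 2 ^ E ≤ W ^ (6 * w + 3) * W ^ (E : ℝ) := by
              rw [Real.rpow_natCast]
              gcongr
          _ = W ^ (6 * w + 3 + E) := by rw [← Real.rpow_add (by linarith)]
          _ ≤ W ^ (l : ℝ) := by
              apply Real.rpow_le_rpow_of_exponent_le hW1
              have : ((C1 + 2 : ℕ) : ℝ) ≤ l := by exact_mod_cast hl
              push_cast at this
              linarith
          _ = W ^ l := Real.rpow_natCast _ _
      rw [div_lt_iff₀ hc] at hE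
      have hWp : 0 < W ^ (6 * w + 3) := by positivity
      have k1 : c * (W ^ (6 * w + 3) * 2 ^ E) ≤ c * W ^ l := mul_le_mul_of_nonneg_left f6 hc.le
      have k2 : W ^ (6 * w + 3) * 1 < W ^ (6 * w + 3) * (2 ^ E * c) :=
        mul_lt_mul_of_pos_left hE hWp
      have k3 : c * (W ^ (6 * w + 3) * 2 ^ E) = W ^ (6 * w + 3) * (2 ^ E * c) := by ring
      linarith only [f5, k1, k2, k3]
    refine ⟨m', (b : ℤ) ^ s * D', by positivity, ?_, ?_, FF_zero_rel _ _ _ _ _ _ _ _ _ _ _ hzero⟩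
    · push_cast
      rw [pow_add]
      exact mul_le_mul_of_nonneg_left hDn' (by positivity)
    · push_cast at hm' ⊢
      rw [← mul_assoc]
      exact hm'

/-- **The criterion.** -/
theorem ratx_criterion {x : ℝ} (hx : MeasR x) (d : ℕ) : ∃ C₀ : ℕ, 2 ≤ C₀ ∧ ∀ b : ℕ, 2 ≤ b → ∀ t : ℝ,
    ((∃ P Q R : ℤ[X], P ≠ 0 ∧ R ≠ 0 ∧ P.natDegree ≤ d ∧ Q.natDegree ≤ d ∧ R.natDegree ≤ d ∧
      ∃ r : ℚ, vx x t P Q R = r) ↔
      ∀ᶠ n : ℕ in atTop, ∃ P Q R : ℤ[X], FamX x d ((b : ℝ) ^ n) t P Q R ∧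
        blocksAt b (vx x t P Q R) 0 n (C₀ * n) ≤ n) := by
  obtain ⟨w, c, hw, hc, hcore⟩ := ratx_core hx d
  obtain ⟨w1, c1, hw1, hc1, hmeas1⟩ := hx d
  obtain ⟨C1, hC1⟩ := exists_nat_ge (5 * w + 3 + (w1 + 1))
  have hC1' : (4 : ℝ) ≤ C1 := by linarith
  have hC1'' : 4 ≤ C1 := by exact_mod_cast hC1'
  refine ⟨C1 + 2, by omega, fun b hb t => ?_⟩
  set B : ℝ := (b : ℝ) with hB
  have hB1 : 1 < B := by rw [hB]; exact_mod_cast (by omega : 1 < b)
  have hB0 : 0 < B := by linarith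
  constructor
  · rintro ⟨P, Q, R, hP, hR, h1, h2, h3, r, hr⟩
    have hrR : (r : ℝ) = r.num / r.den := by exact_mod_cast (Rat.num_div_den r).symm
    have hden : (r.den : ℤ) ≠ 0 := by exact_mod_cast r.den_pos.ne'
    have hdenR : (r.den : ℝ) ≠ 0 := by exact_mod_cast r.den_pos.ne'
    have hR0 := aeval_neX hx R hR
    have hval0 : vx x t (C (r.den : ℤ) * P) (C (r.den : ℤ) * Q - C r.num * R) R = 0 := by
      have h5 : aeval x P * t + aeval x Q = r * aeval x R := by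
        have : vx x t P Q R * aeval x R = r * aeval x R := by rw [hr]
        unfold vx at this
        rwa [div_mul_cancel₀ _ hR0] at this
      have h6 : (r.den : ℝ) * r = r.num := by
        rw [hrR]; field_simp
      unfold vx
      have h7 : aeval x (C (r.den : ℤ) * P) * t +
          aeval x (C (r.den : ℤ) * Q - C r.num * R) = 0 := by
        simp only [map_sub, map_mul, aeval_C]
        simp only [eq_intCast, Int.cast_natCast]
        linear_combination (r.den : ℝ) * h5 + aeval x R * h6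
      rw [h7, zero_div]
    obtain ⟨b1, hb10, hb1⟩ := coeff_bd (C (r.den : ℤ) * P)
    obtain ⟨b2, hb20, hb2⟩ := coeff_bd (C (r.den : ℤ) * Q - C r.num * R)
    obtain ⟨b3, hb30, hb3⟩ := coeff_bd R
    have hlim : Tendsto (fun n : ℕ => B ^ n) atTop atTop := tendsto_pow_atTop_atTop_of_one_lt hB1
    filter_upwards [hlim.eventually_ge_atTop (b1 + b2 + b3), eventually_ge_atTop 1] with n hn hn1
    refine ⟨_, _, _, ⟨mul_ne_zero (by rwa [Ne, C_eq_zero]) hP, hR,
      (natDegree_C_mul_le _ _).trans h1, ?_, h3, fun i => (hb1 i).trans (by linarith),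
      fun i => (hb2 i).trans (by linarith), fun i => (hb3 i).trans (by linarith), ?_⟩, ?_⟩
    · exact (natDegree_sub_le _ _).trans (max_le ((natDegree_C_mul_le _ _).trans h2)
        ((natDegree_C_mul_le _ _).trans h3))
    · rw [hval0, abs_zero]; positivity
    · rw [hval0]
      exact (blocks_zero b n _).trans hn1
  · intro h
    have hlim := (lim B ((C1 : ℝ) + 1 - (5 * w + 3)) 0 1 hB1 (by linarith)).const_mul
      (B ^ (5 * w + 3))
    rw [mul_zero] at hlim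
    obtain ⟨n₁, hn₁⟩ := eventually_atTop.1 (h.and (hlim.eventually_lt_const hc))
    have hex : ∀ n, ∃ (P Q R : ℤ[X]) (D m : ℤ), n₁ ≤ n → FamX x d (B ^ n) t P Q R ∧ 0 < D ∧
        (D : ℝ) ≤ B ^ n ∧ |vx x t P Q R * D - m| ≤ B ^ (-(((C1 : ℝ) + 1) * n)) := by
      intro n
      by_cases hn : n₁ ≤ n
      · obtain ⟨P, Q, R, h1, h2⟩ := (hn₁ n hn).1
        obtain ⟨D, m, h3, h4, h5⟩ := rep_real b hb (vx x t P Q R) ((C1 : ℝ) + 2) (by linarith) n (by
          have : ⌈((C1 : ℝ) + 2) * n⌉₊ = (C1 + 2) * n := by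
            have : ((C1 : ℝ) + 2) * n = (((C1 + 2) * n : ℕ) : ℝ) := by push_cast; rfl
            rw [this, Nat.ceil_natCast]
          rw [this]; exact h2)
        refine ⟨P, Q, R, D, m, fun _ => ⟨h1, h3, h4, ?_⟩⟩
        have e : (C1 : ℝ) + 2 - 1 = C1 + 1 := by ring
        rw [e] at h5
        exact h5
      · exact ⟨0, 0, 0, 0, 0, fun h => absurd h hn⟩
    choose P Q R D m hS using hex
    set U : ℕ → ℤ[X] := fun n => C (m n) * R n - C (D n) * Q n with hU
    set S : ℕ → ℤ[X] := fun n => C (D n) * P n with hSdef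
    have hS0 : ∀ n, n₁ ≤ n → S n ≠ 0 := by
      intro n hn
      obtain ⟨h1, h2, -, -⟩ := hS n hn
      exact mul_ne_zero (by rw [Ne, C_eq_zero]; exact h2.ne') h1.1
    have hstep : ∀ n, n₁ ≤ n → U n * S (n + 1) = U (n + 1) * S n := by
      intro n hn
      obtain ⟨h1, h2, h3, h4⟩ := hS n hn
      obtain ⟨g1, g2, g3, g4⟩ := hS (n + 1) (by omega)
      have hn0 : (0 : ℝ) ≤ n := by positivity
      by_contra hne
      have hF : FF (P n) (Q n) (R n) (P (n + 1)) (Q (n + 1)) (R (n + 1)) 1 (D n) (m n) (D (n + 1))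
          (m (n + 1)) ≠ 0 := by
        rw [FF_eq]
        exact sub_ne_zero.2 hne
      have hcast : ((n + 1 : ℕ) : ℝ) = n + 1 := by push_cast; rfl
      rw [hcast] at g4
      have hmono : B ^ n ≤ B ^ (n + 1) := pow_le_pow_right₀ hB1.le (by omega)
      have hδ1 : B ^ (-(((C1 : ℝ) + 1) * (n : ℝ))) ≤ 1 := by
        apply Real.rpow_le_one_of_one_le_of_nonpos hB1.le
        nlinarith
      have hδ' : B ^ (-(((C1 : ℝ) + 1) * ((n : ℝ) + 1))) ≤ B ^ (-(((C1 : ℝ) + 1) * n)) := by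
        apply Real.rpow_le_rpow_of_exponent_le hB1.le
        nlinarith
      have key := hcore t (B ^ (n + 1)) (B ^ (n + 1)) (B ^ (-(((C1 : ℝ) + 1) * n))) 1
        (one_le_pow₀ hB1.le) one_pos (one_le_pow₀ hB1.le) hδ1
        (P n) (Q n) (R n) (P (n + 1)) (Q (n + 1)) (R (n + 1)) (h1.mono hmono) g1 (D n) (m n)
        (D (n + 1)) (m (n + 1)) h2 g2 (h3.trans hmono) g3
        (by rw [Int.cast_one, mul_one]; exact h4) (by
          rw [Int.cast_one, mul_one]; exact g4.trans hδ') hF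
      have e1 : (((1 : ℤ) : ℝ) * (B ^ (n + 1)) ^ 2 * (B ^ (n + 1)) ^ 3) ^ w *
          (B ^ (n + 1) * (B ^ (n + 1)) ^ 2 * B ^ (-(((C1 : ℝ) + 1) * (n : ℝ)))) =
          B ^ (5 * w + 3) * ((1 + 0 * (n : ℝ)) * B ^ (-(((C1 : ℝ) + 1 - (5 * w + 3)) * n))) := by
        have f1 : (B ^ (n + 1)) = B ^ ((n : ℝ) + 1) := by
          rw [← Real.rpow_natCast]; push_cast; rfl
        have f2 : ∀ z : ℝ, ∀ k : ℕ, (B ^ z) ^ k = B ^ (z * k) := by
          intro z k
          rw [← Real.rpow_natCast, ← Real.rpow_mul hB0.le]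
        rw [f1, f2, f2, Int.cast_one, one_mul, ← Real.rpow_add hB0, ← Real.rpow_mul hB0.le,
          ← Real.rpow_add hB0, ← Real.rpow_add hB0, ← Real.rpow_add hB0, zero_mul, add_zero,
          one_mul, ← Real.rpow_add hB0]
        congr 1
        push_cast
        ring
      rw [e1] at key
      have := (hn₁ n hn).2
      linarith
    have hconst : ∀ n, n₁ ≤ n → U n * S n₁ = U n₁ * S n := by
      intro n hn
      induction n, hn using Nat.le_induction with
      | base => rfl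
      | succ n hn ih =>
        apply mul_left_cancel₀ (hS0 n hn)
        linear_combination (S (n + 1)) * ih - (S n₁) * hstep n hn
    -- the real values
    set K2 : ℝ := (d + 1) * (1 + |x|) ^ d with hK2
    have hK20 : 0 < K2 := by positivity
    have hs1 : aeval x (S n₁) ≠ 0 := aeval_neX hx _ (hS0 n₁ le_rfl)
    have hts : ∀ n, n₁ ≤ n → t * aeval x (S n) - aeval x (U n) =
        aeval x (R n) * (vx x t (P n) (Q n) (R n) * D n - m n) := by
      intro n hn
      have hR0 := aeval_neX hx _ (hS n hn).1.2.1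
      have hval : aeval x (R n) * vx x t (P n) (Q n) (R n) =
          aeval x (P n) * t + aeval x (Q n) := by
        unfold vx; field_simp
      rw [hU, hSdef]
      simp only [map_sub, map_mul, aeval_C]
      simp only [eq_intCast]
      linear_combination (-(D n : ℝ)) * hval
    have hlim2 := (lim B ((C1 : ℝ) + 1 - (w1 + 1)) 0 1 hB1 (by linarith)).const_mul
      (|aeval x (S n₁)| * K2 / c1)
    rw [mul_zero] at hlim2
    have hle : ∀ᶠ n : ℕ in atTop, |t * aeval x (S n₁) - aeval x (U n₁)| ≤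
        |aeval x (S n₁)| * K2 / c1 * ((1 + 0 * (n : ℝ)) *
          B ^ (-(((C1 : ℝ) + 1 - (w1 + 1)) * n))) := by
      filter_upwards [eventually_ge_atTop n₁] with n hn
      obtain ⟨h1, h2, h3, h4⟩ := hS n hn
      have hc2 := hconst n hn
      have hc3 : aeval x (U n) * aeval x (S n₁) = aeval x (U n₁) * aeval x (S n) := by
        rw [← map_mul, ← map_mul, hc2]
      have e1 : aeval x (S n) * (t * aeval x (S n₁) - aeval x (U n₁)) =
          aeval x (S n₁) * (aeval x (R n) * (vx x t (P n) (Q n) (R n) * D n - m n)) := by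
        rw [← hts n hn]
        linear_combination hc3
      have hn0 : (0 : ℝ) ≤ n := by positivity
      have hH1 : 1 ≤ B ^ n := one_le_pow₀ hB1.le
      have e2 : c1 ≤ (B ^ n) ^ w1 * |aeval x (S n)| := by
        have := hmeas1 (P n) h1.1 h1.2.2.1 _ hH1 h1.2.2.2.2.2.1
        refine this.trans ?_
        apply mul_le_mul_of_nonneg_left _ (by positivity)
        rw [hSdef]
        simp only [map_mul, aeval_C]
        simp only [eq_intCast]
        rw [abs_mul]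
        have hD1 : (1 : ℝ) ≤ |(D n : ℝ)| := by
          have : (1 : ℤ) ≤ |D n| := Int.one_le_abs h2.ne'
          exact_mod_cast this
        have := abs_nonneg (aeval x (P n))
        nlinarith
      have e3 : |aeval x (R n)| ≤ K2 * B ^ n :=
        aeval_bdX x d (R n) h1.2.2.2.2.1 _ h1.2.2.2.2.2.2.2.1
      have e4 := congrArg abs e1
      rw [abs_mul, abs_mul, abs_mul] at e4
      set W := |t * aeval x (S n₁) - aeval x (U n₁)| with hW
      have hW0 : 0 ≤ W := abs_nonneg _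
      have e5 : c1 * W ≤ (B ^ n) ^ w1 * (|aeval x (S n₁)| *
          ((K2 * B ^ n) * B ^ (-(((C1 : ℝ) + 1) * (n : ℝ))))) := by
        calc c1 * W ≤ ((B ^ n) ^ w1 * |aeval x (S n)|) * W :=
              mul_le_mul_of_nonneg_right e2 hW0
          _ = (B ^ n) ^ w1 * (|aeval x (S n)| * W) := by ring
          _ = (B ^ n) ^ w1 * (|aeval x (S n₁)| *
              (|aeval x (R n)| * |vx x t (P n) (Q n) (R n) * D n - m n|)) := by rw [e4]
          _ ≤ _ := by gcongr
      have e6 : (B ^ n) ^ w1 * (|aeval x (S n₁)| *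
          ((K2 * B ^ n) * B ^ (-(((C1 : ℝ) + 1) * (n : ℝ))))) =
          |aeval x (S n₁)| * K2 * B ^ (-(((C1 : ℝ) + 1 - (w1 + 1)) * n)) := by
        have f : B ^ (-(((C1 : ℝ) + 1 - (w1 + 1)) * (n : ℝ))) =
            (B ^ n) ^ w1 * B ^ n * B ^ (-(((C1 : ℝ) + 1) * (n : ℝ))) := by
          rw [← Real.rpow_natCast B n, ← Real.rpow_mul hB0.le, ← Real.rpow_add hB0,
            ← Real.rpow_add hB0]
          congr 1
          ring
        rw [f]
        ring
      rw [e6] at e5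
      rw [zero_mul, add_zero, one_mul, div_mul_eq_mul_div, le_div_iff₀ hc1]
      linarith
    have hzero : t * aeval x (S n₁) - aeval x (U n₁) = 0 :=
      abs_eq_zero.1 (le_antisymm (ge_of_tendsto hlim2 hle) (abs_nonneg _))
    obtain ⟨h1, h2, h3, h4⟩ := hS n₁ le_rfl
    refine ⟨P n₁, Q n₁, R n₁, h1.1, h1.2.1, h1.2.2.1, h1.2.2.2.1, h1.2.2.2.2.1,
      (m n₁ : ℚ) / (D n₁ : ℚ), ?_⟩
    rw [hts n₁ le_rfl] at hzero
    have h5 := (mul_eq_zero.1 hzero).resolve_left (aeval_neX hx _ h1.2.1)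
    have hDR : (D n₁ : ℝ) ≠ 0 := by exact_mod_cast h2.ne'
    push_cast
    rw [eq_div_iff hDR]
    linarith

/-- **From discrepancies to blocks of digits.** -/
theorem blocks_of_disc (κ K : ℝ) (hκ : 0 < κ) (hK : 0 < K) : ∃ C1 C2 : ℕ, ∀ b : ℕ, 2 ≤ b →
    ∀ s n : ℕ, 0 < n → 0 < (b ^ (s + n)) ^ C1 ∧
      (b : ℝ) ^ (s + n) ≤ (((b ^ (s + n)) ^ C1 : ℕ) : ℝ) ^ κ ∧
      ∀ (y : ℝ) (d : ℕ), (∀ P : ℤ[X], 0 < P.natDegree → P.natDegree ≤ d →
        (∀ i, |(P.coeff i : ℝ)| ≤ (((b ^ (s + n)) ^ C1 : ℕ) : ℝ) ^ κ) →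
          ∀ M : ℕ, (b ^ (s + n)) ^ C1 ≤ M → disc (aeval y P) M ≤
            K * (((b ^ (s + n)) ^ C1 : ℕ) : ℝ) ^ (-κ)) →
        ∀ P : ℤ[X], 0 < P.natDegree → P.natDegree ≤ d → (∀ i, |(P.coeff i : ℝ)| ≤ (b : ℝ) ^ (s + n)) →
          n < blocksAt b (aeval y P) s n (C2 * (s + n)) := by
  obtain ⟨E, hE⟩ := pow_unbounded_of_one_lt (2 * K) (by norm_num : (1 : ℝ) < 2)
  obtain ⟨C1, hC1⟩ := exists_nat_gt ((2 + E) / κ)
  have hC1' : 2 + (E : ℝ) ≤ C1 * κ := by
    rw [div_lt_iff₀ hκ] at hC1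
    exact hC1.le
  refine ⟨C1, C1 + 4, fun b hb s n hn => ?_⟩
  set w : ℝ := (b : ℝ) ^ (s + n) with hw
  have hbR : (2 : ℝ) ≤ b := by exact_mod_cast hb
  have hb1 : (1 : ℝ) ≤ b := by linarith
  have hw2 : 2 ≤ w := by
    calc (2 : ℝ) ≤ b := hbR
      _ = (b : ℝ) ^ 1 := (pow_one _).symm
      _ ≤ w := pow_le_pow_right₀ hb1 (by omega)
  set N : ℕ := (b ^ (s + n)) ^ C1 with hN
  have hN0 : 0 < N := by positivity
  have hNR : (N : ℝ) = w ^ C1 := by rw [hN, hw]; push_cast; ring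
  have hNκ : w ^ (2 + E) ≤ (N : ℝ) ^ κ := by
    rw [hNR, ← Real.rpow_natCast w C1, ← Real.rpow_mul (by linarith), ← Real.rpow_natCast]
    apply Real.rpow_le_rpow_of_exponent_le (by linarith)
    push_cast
    exact hC1'
  have hwN : w ≤ (N : ℝ) ^ κ := by
    refine le_trans ?_ hNκ
    calc w = w ^ 1 := (pow_one _).symm
      _ ≤ w ^ (2 + E) := pow_le_pow_right₀ (by linarith) (by omega)
  have hwN2 : w * w ≤ (N : ℝ) ^ κ := by
    refine le_trans ?_ hNκ
    calc w * w = w ^ 2 := by ring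
      _ ≤ w ^ (2 + E) := pow_le_pow_right₀ (by linarith) (by omega)
  refine ⟨hN0, hwN, fun y d hy P hP0 hPd hPc => ?_⟩
  by_contra hcon
  push Not at hcon
  have hrep := rep_of_few b (aeval y P) s n ((C1 + 4) * (s + n)) (by nlinarith) hcon
  have hrep' := hrep.mono (l' := (C1 + 3) * (s + n)) (by
    have : (C1 + 4) * (s + n) = (C1 + 3) * (s + n) + (s + n) := by ring
    omega)
  have hMb : 4 * (N : ℝ) < (b : ℝ) ^ ((C1 + 3) * (s + n)) := by
    have e : (b : ℝ) ^ ((C1 + 3) * (s + n)) = w ^ 3 * w ^ C1 := by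
      rw [hw, ← pow_mul, ← pow_mul, ← pow_add]
      congr 1
      ring
    rw [e, hNR]
    have h8 : (2 : ℝ) ^ 3 ≤ w ^ 3 := pow_le_pow_left₀ (by norm_num) hw2 3
    have h9 : 0 < w ^ C1 := by positivity
    nlinarith
  have hd := rep_disc b hb _ s n _ N hrep' hMb
  have hdeg : (C ((b : ℤ) ^ s) * P).natDegree = P.natDegree := by
    apply Polynomial.natDegree_C_mul
    have : (b : ℤ) ≠ 0 := by exact_mod_cast (by omega : b ≠ 0)
    positivity
  have h3 := hy (C ((b : ℤ) ^ s) * P) (by rw [hdeg]; exact hP0)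
    (by rw [hdeg]; exact hPd) (by
      intro i
      rw [coeff_C_mul]
      push_cast
      rw [abs_mul, abs_of_pos (by positivity : (0 : ℝ) < (b : ℝ) ^ s)]
      refine le_trans ?_ hwN2
      apply mul_le_mul _ (hPc i) (abs_nonneg _) (by linarith)
      exact pow_le_pow_right₀ hb1 (by omega)) N le_rfl
  have e : (aeval y) (C ((b : ℤ) ^ s) * P) = aeval y P * (b : ℝ) ^ s := by
    rw [map_mul, aeval_C]
    simp
    ring
  rw [e] at h3
  have h4 := hd.trans h3
  have h5 : 2 * K * w < (N : ℝ) ^ κ := by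
    refine lt_of_lt_of_le ?_ hNκ
    have h6 : (2 : ℝ) ^ E ≤ w ^ E := pow_le_pow_left₀ (by norm_num) hw2 E
    calc 2 * K * w < w ^ E * w := by nlinarith
      _ = w ^ (1 + E) := by ring
      _ ≤ w ^ (2 + E) := pow_le_pow_right₀ (by linarith) (by omega)
  have hNpos : 0 < (N : ℝ) ^ κ := by
    have : (0 : ℝ) < N := by exact_mod_cast hN0
    positivity
  rw [Real.rpow_neg (by positivity), div_le_iff₀ (by positivity)] at h4
  have h7 : K * ((N : ℝ) ^ κ)⁻¹ * (2 * (b : ℝ) ^ n) < 1 := by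
    rw [← div_eq_mul_inv, div_mul_eq_mul_div, div_lt_one hNpos]
    refine lt_of_le_of_lt ?_ h5
    have h8 : (b : ℝ) ^ n ≤ w := pow_le_pow_right₀ hb1 (by omega)
    nlinarith
  linarith

end Pool.Agent.Q199.Dg
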