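import Pool.Agent.Q199.Dg.Lin
import Pool.Agent.W472.AC.EMeas2
import Mathlib
set_option autoImplicit false

/-!
# Blocks of digits of several numbers with a measure of simultaneous approximation
-/

namespace Pool.Agent.Q199.Dg

open Real Polynomial

/-- a measure of simultaneous approximation of the numbers `x j` with exponent `μ` -/
def SM {k : ℕ} (μ c : ℝ) (x : Fin k → ℝ) : Prop :=
  ∀ q : ℤ, q ≠ 0 → ∀ p : Fin k → ℤ, ∀ M : ℝ, 1 ≤ M → |(q : ℝ)| ≤ M → (∀ j, |(p j : ℝ)| ≤ M) →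
    c * M ^ (-μ) ≤ ∑ j, |q * x j - p j|

/-- if all the numbers `x j` have repetitions then there is a common denominator -/
theorem sim_rep {k : ℕ} {μ c T : ℝ} (hT : 0 ≤ T) (x : Fin k → ℝ)
    (hx : ∀ j, |x j| ≤ T) (h : SM μ c x) (b : ℕ) (hb : 2 ≤ b) (s n l : ℕ)
    (hrep : ∀ j, Rep b (x j) s n l) (hl : (k - 1) * n ≤ l) :
    c * ((T + 1) * (b : ℝ) ^ (s + k * n)) ^ (-μ) ≤ k * ((b : ℝ) ^ ((k - 1) * n) / (b : ℝ) ^ l) := by
  choose D m hD hD1 hm using fun j => (hrep j).close hb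
  have hb1 : (1 : ℝ) ≤ b := by exact_mod_cast (by omega : 1 ≤ b)
  have hb0 : (0 : ℝ) < b := by linarith
  have hDR : ∀ j, (0 : ℝ) < D j := fun j => by exact_mod_cast hD j
  have hbZ : (b : ℤ) ≠ 0 := by exact_mod_cast (by omega : b ≠ 0)
  have hprod0 : (∏ j, D j) ≠ 0 := Finset.prod_ne_zero_iff.2 fun j _ => (hD j).ne'
  have hprodpos : (0 : ℝ) < ∏ j, (D j : ℝ) := Finset.prod_pos fun j _ => hDR j
  have hprodle : ∏ j, (D j : ℝ) ≤ (b : ℝ) ^ (k * n) := by
    calc ∏ j, (D j : ℝ) ≤ ∏ _j : Fin k, (b : ℝ) ^ n :=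
          Finset.prod_le_prod (fun j _ => (hDR j).le) (fun j _ => hD1 j)
      _ = (b : ℝ) ^ (k * n) := by
          rw [Finset.prod_const, Finset.card_univ, Fintype.card_fin, ← pow_mul, mul_comm]
  have heraseZ : ∀ j, D j * ∏ i ∈ Finset.univ.erase j, D i = ∏ i, D i := fun j =>
    Finset.mul_prod_erase _ _ (Finset.mem_univ j)
  have herase0 : ∀ j, (0 : ℝ) ≤ ∏ i ∈ Finset.univ.erase j, (D i : ℝ) := fun j =>
    Finset.prod_nonneg fun i _ => (hDR i).le
  have herasele : ∀ j, ∏ i ∈ Finset.univ.erase j, (D i : ℝ) ≤ (b : ℝ) ^ ((k - 1) * n) := by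
    intro j
    calc ∏ i ∈ Finset.univ.erase j, (D i : ℝ) ≤ ∏ _i ∈ Finset.univ.erase j, (b : ℝ) ^ n :=
          Finset.prod_le_prod (fun i _ => (hDR i).le) (fun i _ => hD1 i)
      _ = (b : ℝ) ^ ((k - 1) * n) := by
          rw [Finset.prod_const, Finset.card_erase_of_mem (Finset.mem_univ j), Finset.card_univ,
            Fintype.card_fin, ← pow_mul, mul_comm]
  have hm' : ∀ j, |x j * (b : ℝ) ^ s * D j - m j| ≤ 1 / (b : ℝ) ^ l := by
    intro j
    rw [le_div_iff₀ (by positivity)]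
    exact (hm j).le
  have hterm : ∀ j, (((b : ℤ) ^ s * ∏ i, D i : ℤ) : ℝ) * x j -
      ((m j * ∏ i ∈ Finset.univ.erase j, D i : ℤ) : ℝ) =
      (∏ i ∈ Finset.univ.erase j, (D i : ℝ)) * (x j * (b : ℝ) ^ s * D j - m j) := by
    intro j
    rw [← heraseZ j]
    push_cast
    ring
  have hterm' : ∀ j, |(((b : ℤ) ^ s * ∏ i, D i : ℤ) : ℝ) * x j -
      ((m j * ∏ i ∈ Finset.univ.erase j, D i : ℤ) : ℝ)| ≤
      (b : ℝ) ^ ((k - 1) * n) / (b : ℝ) ^ l := by
    intro j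
    rw [hterm j, abs_mul, abs_of_nonneg (herase0 j)]
    calc _ ≤ (b : ℝ) ^ ((k - 1) * n) * (1 / (b : ℝ) ^ l) := by
          apply mul_le_mul (herasele j) (hm' j) (abs_nonneg _) (by positivity)
      _ = _ := by ring
  have hq : |(((b : ℤ) ^ s * ∏ i, D i : ℤ) : ℝ)| ≤ (b : ℝ) ^ (s + k * n) := by
    push_cast
    rw [abs_of_pos (by positivity), pow_add]
    exact mul_le_mul_of_nonneg_left hprodle (by positivity)
  have hM0 : (1 : ℝ) ≤ (b : ℝ) ^ (s + k * n) := one_le_pow₀ hb1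
  have hsmall : (b : ℝ) ^ ((k - 1) * n) / (b : ℝ) ^ l ≤ 1 := by
    rw [div_le_one (by positivity)]
    exact pow_le_pow_right₀ hb1 hl
  have key := h ((b : ℤ) ^ s * ∏ i, D i) (mul_ne_zero (pow_ne_zero _ hbZ) hprod0)
    (fun j => m j * ∏ i ∈ Finset.univ.erase j, D i) ((T + 1) * (b : ℝ) ^ (s + k * n))
    (by nlinarith) (by nlinarith) (by
      intro j
      have h1 := hterm' j
      have h2 : |(((b : ℤ) ^ s * ∏ i, D i : ℤ) : ℝ) * x j| ≤ (b : ℝ) ^ (s + k * n) * T := by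
        rw [abs_mul]
        exact mul_le_mul hq (hx j) (abs_nonneg _) (by positivity)
      have h3 : |((m j * ∏ i ∈ Finset.univ.erase j, D i : ℤ) : ℝ)| ≤
          |(((b : ℤ) ^ s * ∏ i, D i : ℤ) : ℝ) * x j| + |(((b : ℤ) ^ s * ∏ i, D i : ℤ) : ℝ) * x j -
            ((m j * ∏ i ∈ Finset.univ.erase j, D i : ℤ) : ℝ)| := by
        have e : ((m j * ∏ i ∈ Finset.univ.erase j, D i : ℤ) : ℝ) =
            (((b : ℤ) ^ s * ∏ i, D i : ℤ) : ℝ) * x j - ((((b : ℤ) ^ s * ∏ i, D i : ℤ) : ℝ) * x j -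
              ((m j * ∏ i ∈ Finset.univ.erase j, D i : ℤ) : ℝ)) := by ring
        nth_rw 1 [e]
        exact abs_sub _ _
      nlinarith)
  refine key.trans ?_
  calc ∑ j, |(((b : ℤ) ^ s * ∏ i, D i : ℤ) : ℝ) * x j -
      ((m j * ∏ i ∈ Finset.univ.erase j, D i : ℤ) : ℝ)| ≤
      ∑ _j : Fin k, (b : ℝ) ^ ((k - 1) * n) / (b : ℝ) ^ l := Finset.sum_le_sum fun j _ => hterm' j
    _ = _ := by
      rw [Finset.sum_const, Finset.card_univ, Fintype.card_fin, nsmul_eq_mul]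

/-- **Blocks of digits of several numbers.** -/
theorem sim_blocks {k : ℕ} (hk : 1 ≤ k) (μ c T : ℝ) (hμ : 1 ≤ μ) (hc : 0 < c) (hT : 0 ≤ T) :
    ∃ C : ℕ, ∀ x : Fin k → ℝ, (∀ j, |x j| ≤ T) → SM μ c x → ∀ b : ℕ, 2 ≤ b → ∀ s n L : ℕ,
      k * (μ + 1) * n + μ * s + C ≤ L → ∃ j, n < blocksAt b (x j) s n L := by
  obtain ⟨C, hC⟩ := pow_unbounded_of_one_lt (k * (T + 1) ^ μ / c) (by norm_num : (1 : ℝ) < 2)
  refine ⟨C, fun x hx h b hb s n L hL => ?_⟩
  by_contra hcon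
  push Not at hcon
  have hb2 : (2 : ℝ) ≤ b := by exact_mod_cast hb
  have hb0 : (0 : ℝ) < b := by linarith
  have hkR : (1 : ℝ) ≤ k := by exact_mod_cast hk
  have hn0 : (0 : ℝ) ≤ n := by positivity
  have hs0 : (0 : ℝ) ≤ s := by positivity
  have hC0 : (0 : ℝ) ≤ C := by positivity
  have h1 : ((k * n + n : ℕ) : ℝ) ≤ L := by
    have hkμ : 1 ≤ k * μ := by nlinarith [mul_nonneg (sub_nonneg.2 hkR) (sub_nonneg.2 hμ)]
    push_cast
    have a1 := mul_nonneg (sub_nonneg.2 hkμ) hn0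
    have a2 := mul_nonneg (by linarith : (0 : ℝ) ≤ μ) hs0
    nlinarith
  have h2 : k * n + n ≤ L := by exact_mod_cast h1
  have h3 : n ≤ k * n := Nat.le_mul_of_pos_left n (by omega)
  have h4 : (k - 1) * n + n = k * n := by
    rw [← Nat.succ_mul]
    congr 1
    omega
  have key := sim_rep hT x hx h b hb s n (L - n) (fun j => rep_of_few b _ s n L (by omega) (hcon j))
    (by omega)
  have e1 : (b : ℝ) ^ ((k - 1) * n) / (b : ℝ) ^ (L - n) = (b : ℝ) ^ (-((L : ℝ) - k * n)) := by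
    rw [div_eq_iff (by positivity), ← Real.rpow_natCast, ← Real.rpow_natCast, ← Real.rpow_add hb0]
    congr 1
    rw [Nat.cast_sub (by omega)]
    have : (((k - 1) * n : ℕ) : ℝ) = k * n - n := by
      have := congrArg (fun z : ℕ => (z : ℝ)) h4
      push_cast at this ⊢
      linarith
    rw [this]
    ring
  rw [e1, Real.mul_rpow (by linarith) (by positivity), ← Real.rpow_natCast, ← Real.rpow_mul hb0.le]
    at key
  have hT1 : (0 : ℝ) < (T + 1) ^ μ := by positivity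
  have h5 := mul_le_mul_of_nonneg_right key (by positivity :
    (0 : ℝ) ≤ (T + 1) ^ μ * (b : ℝ) ^ (((L : ℝ) - k * n)))
  have e2 : c * ((T + 1) ^ (-μ) * (b : ℝ) ^ (((s + k * n : ℕ) : ℝ) * -μ)) *
      ((T + 1) ^ μ * (b : ℝ) ^ (((L : ℝ) - k * n))) =
      c * (b : ℝ) ^ (((s + k * n : ℕ) : ℝ) * -μ + ((L : ℝ) - k * n)) := by
    rw [Real.rpow_neg (by linarith : (0 : ℝ) ≤ T + 1), Real.rpow_add hb0]
    field_simp
  have e3 : k * (b : ℝ) ^ (-((L : ℝ) - k * n)) * ((T + 1) ^ μ * (b : ℝ) ^ (((L : ℝ) - k * n))) =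
      k * (T + 1) ^ μ := by
    have : (b : ℝ) ^ (-((L : ℝ) - k * n)) * (b : ℝ) ^ (((L : ℝ) - k * n)) = 1 := by
      rw [← Real.rpow_add hb0, neg_add_cancel, Real.rpow_zero]
    linear_combination (k * (T + 1) ^ μ) * this
  rw [e2, e3] at h5
  have h6 : (2 : ℝ) ^ C ≤ (b : ℝ) ^ (((s + k * n : ℕ) : ℝ) * -μ + ((L : ℝ) - k * n)) := by
    calc (2 : ℝ) ^ C ≤ (b : ℝ) ^ C := pow_le_pow_left₀ (by norm_num) hb2 C
      _ = (b : ℝ) ^ (C : ℝ) := (Real.rpow_natCast _ _).symm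
      _ ≤ _ := by
        apply Real.rpow_le_rpow_of_exponent_le (by linarith)
        push_cast
        linarith
  rw [div_lt_iff₀ hc] at hC
  nlinarith

/-- a bound for the coefficients -/
theorem coeff_bd (P : ℤ[X]) : ∃ B : ℝ, 0 ≤ B ∧ ∀ j, |(P.coeff j : ℝ)| ≤ B := by
  refine ⟨∑ j ∈ P.support, |(P.coeff j : ℝ)|, Finset.sum_nonneg fun _ _ => abs_nonneg _, ?_⟩
  intro j
  by_cases hj : j ∈ P.support
  · exact Finset.single_le_sum (f := fun j => |(P.coeff j : ℝ)|) (fun _ _ => abs_nonneg _) hj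
  · rw [notMem_support_iff.1 hj]
    simp only [Int.cast_zero, abs_zero]
    exact Finset.sum_nonneg fun _ _ => abs_nonneg _

/-- The measure for the points `x` with `A_0(e) + ∑ A_j(e) x_j = 0`. -/
theorem sm_of_rel (D k : ℕ) (A : Fin (k + 1) → ℤ[X]) (hA : ∀ i, (A i).natDegree ≤ D)
    (hli : LinearIndependent ℤ A) (η : ℝ) (hη : 0 < η) :
    ∃ c : ℝ, 0 < c ∧ ∀ x : Fin k → ℝ,
      aeval (exp 1) (A 0) + ∑ j, aeval (exp 1) (A j.succ) * x j = 0 → SM (D + η) c x := by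
  obtain ⟨c0, hc0, hmeas⟩ := Pool.Agent.W472.AC.e_measP D η hη
  choose B hB0 hB using fun i => coeff_bd (A i)
  obtain ⟨R, hR⟩ : ∃ R : ℝ, R = 1 + ∑ i, B i := ⟨_, rfl⟩
  have hR1 : 1 ≤ R := by
    rw [hR]; linarith [Finset.sum_nonneg fun i (_ : i ∈ Finset.univ) => hB0 i]
  obtain ⟨K, hK⟩ : ∃ K : ℝ, K = 1 + ∑ j : Fin k, |aeval (exp 1) (A j.succ)| := ⟨_, rfl⟩
  have hK1 : 1 ≤ K := by
    rw [hK]
    linarith [Finset.sum_nonneg fun j (_ : j ∈ (Finset.univ : Finset (Fin k))) =>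
      abs_nonneg (aeval (exp 1) (A j.succ))]
  have hK0 : 0 < K := by linarith
  have hD : (0 : ℝ) ≤ D := Nat.cast_nonneg D
  refine ⟨c0 / (K * R ^ ((D : ℝ) + η)), by positivity, fun x hx q hq p M hM1 hqM hpM => ?_⟩
  set v : Fin (k + 1) → ℤ := Fin.cons q p with hv
  have hvM : ∀ i, |(v i : ℝ)| ≤ M := by
    intro i
    refine Fin.cases ?_ (fun j => ?_) i
    · rw [hv, Fin.cons_zero]; exact hqM
    · rw [hv, Fin.cons_succ]; exact hpM j
  set P : ℤ[X] := ∑ i, v i • A i with hP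
  have hP0 : P ≠ 0 := by
    intro h
    rw [Fintype.linearIndependent_iff] at hli
    have h1 := hli v (by rw [← hP]; exact h) 0
    rw [hv, Fin.cons_zero] at h1
    exact hq h1
  have hPd : P.natDegree ≤ D := by
    apply natDegree_sum_le_of_forall_le
    intro i _
    exact (natDegree_smul_le _ _).trans (hA i)
  have hPc : ∀ j, |(P.coeff j : ℝ)| ≤ M * R := by
    intro j
    have e : (P.coeff j : ℝ) = ∑ i, (v i : ℝ) * (A i).coeff j := by
      rw [hP, finsetSum_coeff]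
      push_cast
      refine Finset.sum_congr rfl fun i _ => ?_
      rw [coeff_smul, smul_eq_mul]
      push_cast
      ring
    rw [e]
    calc |∑ i, (v i : ℝ) * (A i).coeff j| ≤ ∑ i, |(v i : ℝ) * (A i).coeff j| :=
          Finset.abs_sum_le_sum_abs _ _
      _ ≤ ∑ i, M * B i := Finset.sum_le_sum fun i _ => by
          rw [abs_mul]; exact mul_le_mul (hvM i) (hB i j) (abs_nonneg _) (by linarith)
      _ = M * ∑ i, B i := by rw [Finset.mul_sum]
      _ ≤ M * R := by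
          apply mul_le_mul_of_nonneg_left _ (by linarith)
          rw [hR]; linarith
  have h1 := hmeas P hP0 hPd (M * R) (by nlinarith) hPc
  have h2 : |aeval (exp 1) P| ≤ K * ∑ j, |q * x j - p j| := by
    have e : aeval (exp 1) P = -∑ j : Fin k, aeval (exp 1) (A j.succ) * (q * x j - p j) := by
      have e1 : aeval (exp 1) P = q * aeval (exp 1) (A 0) +
          ∑ j : Fin k, (p j : ℝ) * aeval (exp 1) (A j.succ) := by
        rw [hP, map_sum, Fin.sum_univ_succ]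
        simp only [zsmul_eq_mul, map_mul, map_intCast]
        rfl
      have e2 : ∑ j : Fin k, aeval (exp 1) (A j.succ) * ((q : ℝ) * x j - p j) =
          q * ∑ j : Fin k, aeval (exp 1) (A j.succ) * x j -
            ∑ j : Fin k, (p j : ℝ) * aeval (exp 1) (A j.succ) := by
        rw [Finset.mul_sum, ← Finset.sum_sub_distrib]
        refine Finset.sum_congr rfl fun j _ => ?_
        ring
      rw [e1, e2]
      linear_combination (q : ℝ) * hx
    rw [e, abs_neg]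
    calc |∑ j : Fin k, aeval (exp 1) (A j.succ) * ((q : ℝ) * x j - p j)| ≤
          ∑ j : Fin k, |aeval (exp 1) (A j.succ) * ((q : ℝ) * x j - p j)| :=
          Finset.abs_sum_le_sum_abs _ _
      _ ≤ ∑ j : Fin k, K * |(q : ℝ) * x j - p j| := Finset.sum_le_sum fun j _ => by
          rw [abs_mul]
          apply mul_le_mul_of_nonneg_right _ (abs_nonneg _)
          rw [hK]
          have := Finset.single_le_sum (f := fun j : Fin k => |aeval (exp 1) (A j.succ)|)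
            (fun _ _ => abs_nonneg _) (Finset.mem_univ j)
          linarith
      _ = _ := by rw [Finset.mul_sum]
  have hM0 : 0 < M := by linarith
  have hR0 : 0 < R := by linarith
  have h3 : c0 * (M * R) ^ (-((D : ℝ) + η)) ≤ |aeval (exp 1) P| := by
    rw [Real.rpow_neg (by positivity), ← div_eq_mul_inv, div_le_iff₀ (by positivity)]
    linarith
  have h4 := h3.trans h2
  rw [Real.mul_rpow hM0.le hR0.le, Real.rpow_neg hR0.le] at h4
  calc c0 / (K * R ^ ((D : ℝ) + η)) * M ^ (-((D : ℝ) + η)) =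
        (c0 * (M ^ (-((D : ℝ) + η)) * (R ^ ((D : ℝ) + η))⁻¹)) / K := by
        field_simp
    _ ≤ (K * ∑ j, |q * x j - p j|) / K := div_le_div_of_nonneg_right h4 hK0.le
    _ = _ := by field_simp

end Pool.Agent.Q199.Dg
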